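import Pool.Agent.H936.SL.Brk
import Pool.Graph.R_pool_sql_team_seeded_620a6dc7.Helper880_LF.Alg

/-!
# The core theorem in the ultrapower
-/

set_option autoImplicit false
set_option linter.unusedSectionVars false
set_option linter.unusedVariables false

open Matrix Module Filter

namespace Pool.Agent.H936.SL

open Pool.Agent.Helper880_LF (om om_add_left om_add_right om_smul_left om_smul_right om_zero_left om_zero_right pr spS
  mem_spS comm_mem)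
open Pool.Agent.Helper880_LF.NB (gm gm_mul gm_add gm_sub gm_smul gm_zero gm_one gm_ev gm_eq gm_surj gm_neg gm_unit gm_apply
  gm_transpose gm_kt kt kt_apply dm dm_mul dm_smul Lst mem_Lst normL rank_le)
open Pool.Agent.Helper880_R3 (Ix ib ib_apply ib_inj ib_mul Tot GU mem_GU finrank_GU gm_fb gm_ib dm_fb)
open Pool.Agent.Y118.UL (mk mk_eq mk_eq_zero mk_ne_zero mk_surj ev_ge U)
open Pool.Agent.Y123.ST (fl um LL fl_um um_fl)
open Pool.Agent.TH127.PT (IsSubtorsor)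

variable {n N r₀ : ℕ}

/-- the logarithmic derivative of the constant matrix -/
noncomputable def Fd (δ : Derivation (U ℚ) (U ℂ) (U ℂ)) (C : Matrix (Fin n) (Fin n) ℂ) : Matrix (Fin n) (Fin n) (U ℂ) :=
  dm δ (cu C) * (cu C)⁻¹

/-- the properties of the constants -/
structure Cst (J C α : Matrix (Fin n) (Fin n) ℂ) (C₀ : Matrix (Fin r₀) (Fin r₀) ℂ) : Prop where
  skew : Jᵀ = -J
  det : IsUnit J.det
  ty : Ty J α
  comm : ∀ δ, Fd δ C * cu α = cu α * Fd δ C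
  gs : ∀ δ, GS (cu J) (Fd δ C)
  few : ∃ (V : Type) (_ : AddCommGroup V) (_ : Module (U ℂ) V) (_ : FiniteDimensional (U ℂ) V)
    (Φ : Derivation (U ℚ) (U ℂ) (U ℂ) →ₗ[U ℂ] V), finrank (U ℂ) V < finrank (U ℂ) (spS (cu J)) ∧ ∀ δ, Φ δ = 0 →
      ∃ z : U ℂ, dm δ (gm fun _ => C₀) = z • (gm fun _ => C₀) ∧ dm δ (cu C) = z • cu C

theorem dm_Tot {k Ω : Type} [Field k] [Field Ω] [Algebra k Ω] (δ : Derivation k Ω Ω)
    (A : Matrix (Fin r₀) (Fin r₀) Ω) (X : Fin N → Matrix (Fin n) (Fin n) Ω) :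
    dm δ (Tot A X) = Tot (dm δ A) fun j => dm δ (X j) := dm_fb δ A X

theorem Tot_inv' {F : Type} [Field F] {x : Matrix (Fin r₀) (Fin r₀) F} {X Y : Fin N → Matrix (Fin n) (Fin n) F}
    (hx : IsUnit x.det) (hX : ∀ j, X j * Y j = 1) : (Tot x X)⁻¹ = Tot x⁻¹ Y := by
  refine Matrix.inv_eq_right_inv ?_
  rw [Tot_mul', Matrix.mul_nonsing_inv _ hx]
  have h3 : (fun j => X j * Y j) = fun _ => 1 := funext hX
  rw [h3, Tot_one']

theorem cu_inv {C : Matrix (Fin n) (Fin n) ℂ} (hC : IsUnit C.det) : (cu C)⁻¹ = cu C⁻¹ := by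
  refine Matrix.inv_eq_right_inv ?_
  rw [← gm_mul, Matrix.mul_nonsing_inv _ hC, gm_one]

theorem cu_unit {C : Matrix (Fin n) (Fin n) ℂ} (hC : IsUnit C.det) : IsUnit (cu C).det := gm_unit fun _ => hC.ne_zero

/-- **the Lie algebras of the limit are closed under commutators** -/
theorem Lst_br {B : Type} [Fintype B] [DecidableEq B] {K : ℕ → Subfield ℂ} {T : ℕ → Set (Matrix B B ℂ)}
    (hT : ∀ k, IsSubtorsor (K k) (T k)) (hne : ∀ k, (T k).Nonempty) :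
    ∀ x ∈ Lst (fun k => LL (T k)), ∀ y ∈ Lst (fun k => LL (T k)), x * y - y * x ∈ Lst (fun k => LL (T k)) := by
  rintro _ ⟨F, rfl, hF⟩ _ ⟨G, rfl, hG⟩
  refine ⟨fun k => F k * G k - G k * F k, ?_, fun k => LL_br (hT k) (hne k) (hF k) (hG k)⟩
  rw [gm_sub, gm_mul, gm_mul]

/-- **The core theorem.** -/
theorem core2 (hn : 3 ≤ n) {J C α : Matrix (Fin n) (Fin n) ℂ} {C₀ : Matrix (Fin r₀) (Fin r₀) ℂ}
    (hc : Cst J C α C₀) (hC : IsUnit C.det) (hC0 : IsUnit C₀.det)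
    {𝔤 : Submodule ℂ (Matrix (Fin n) (Fin n) ℂ)} (h𝔤 : ∀ X ∈ spS J, C⁻¹ * X * C ∈ 𝔤)
    {z : ℕ → Fin N → Matrix (Fin n) (Fin n) ℂ} (hz : ∀ k j, (z k j).det ≠ 0)
    (hder : ∀ i, ∀ A ∈ GU 𝔤, ∃ δ : Derivation (U ℚ) (U ℂ) (U ℂ), dm δ (gm fun k => z k i) = A * (gm fun k => z k i) ∧
      ∀ j, j ≠ i → dm δ (gm fun k => z k j) = 0)
    {K : ℕ → Subfield ℂ} {D : ℕ} (hK : ∀ k, FiniteDimensional ℚ (K k)) (hD : ∀ k, finrank ℚ (K k) ≤ D)
    {T : ℕ → Set (Matrix (Ix r₀ n N) (Ix r₀ n N) ℂ)} (hT : ∀ k, IsSubtorsor (K k) (T k))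
    (hcT : ∀ k, Tot C₀ (fun j => C * z k j) ∈ T k)
    (hTN : ∀ k j, TN (Pj J (Lm (T k)) j)) (hne : ∀ k j, Pj J (Lm (T k)) j ≠ ⊥) :
    ∀ᶠ k in (hyperfilter ℕ : Filter ℕ), ∀ i, ∀ X ∈ spS J, ib (r₀ := r₀) i X ∈ Lm (T k) := by
  classical
  have hJu : (cu J)ᵀ = -cu J := by
    rw [← gm_transpose, ← gm_neg]
    congr 1
    funext k
    exact hc.skew
  have hdu : IsUnit (cu J).det := cu_unit hc.det
  have hCu := cu_unit hC
  have hCC : cu C * (cu C)⁻¹ = 1 := Matrix.mul_nonsing_inv _ hCu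
  have hCC' : (cu C)⁻¹ * cu C = 1 := Matrix.nonsing_inv_mul _ hCu
  set x : Fin N → Matrix (Fin n) (Fin n) (U ℂ) := fun j => gm fun k => z k j with hx
  have hxu : ∀ j, IsUnit (x j).det := fun j => gm_unit fun k => hz k j
  have hxx : ∀ j, x j * (x j)⁻¹ = 1 := fun j => mul_nonsing_inv _ (hxu j)
  set Ĉ : Matrix (Fin r₀) (Fin r₀) (U ℂ) := gm fun _ => C₀ with hĈ
  have hĈu : IsUnit Ĉ.det := gm_unit fun _ => hC0.ne_zero
  set L : Submodule (U ℂ) (Matrix (Ix r₀ n N) (Ix r₀ n N) (U ℂ)) := Lst fun k => LL (T k) with hL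
  have hLbr : ∀ x ∈ L, ∀ y ∈ L, x * y - y * x ∈ L := Lst_br hT fun k => ⟨_, hcT k⟩
  have hcc : gm (fun k => Tot C₀ (fun j => C * z k j)) = Tot Ĉ fun j => cu C * x j := by
    have h1 := gm_Tot (fun _ => C₀) fun k j => C * z k j
    refine h1.trans ?_
    congr 1
    funext j
    exact gm_mul _ _
  have hinv : (Tot Ĉ fun j => cu C * x j)⁻¹ = Tot Ĉ⁻¹ fun j => (x j)⁻¹ * (cu C)⁻¹ := by
    refine Tot_inv' hĈu fun j => ?_
    calc cu C * x j * ((x j)⁻¹ * (cu C)⁻¹) = cu C * (x j * (x j)⁻¹) * (cu C)⁻¹ := by simp only [Matrix.mul_assoc]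
      _ = 1 := by rw [hxx, Matrix.mul_one, hCC]
  -- the logarithmic derivatives
  have hlog : ∀ (δ : Derivation (U ℚ) (U ℂ) (U ℂ)) (i : Fin N) (X : Matrix (Fin n) (Fin n) (U ℂ)),
      dm δ (x i) = (cu C)⁻¹ * X * cu C * x i → (∀ j, j ≠ i → dm δ (x j) = 0) →
      ∀ w ∈ L, Tot (dm δ Ĉ * Ĉ⁻¹) (fun j => Fd δ C + (Pi.single i X : Fin N → Mn n (U ℂ)) j) * w -
        w * Tot (dm δ Ĉ * Ĉ⁻¹) (fun j => Fd δ C + (Pi.single i X : Fin N → Mn n (U ℂ)) j) ∈ L := by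
    intro δ i X h1 h2 w hw
    have h3 := normL hK hD hT hcT δ hw
    have h4 : dm δ (gm fun k => Tot C₀ (fun j => C * z k j)) * (gm fun k => Tot C₀ (fun j => C * z k j))⁻¹ =
        Tot (dm δ Ĉ * Ĉ⁻¹) (fun j => Fd δ C + (Pi.single i X : Fin N → Mn n (U ℂ)) j) := by
      rw [hcc, hinv, dm_Tot, Tot_mul']
      congr 1
      funext j
      rw [dm_mul]
      have e1 : (dm δ (cu C) * x j + cu C * dm δ (x j)) * ((x j)⁻¹ * (cu C)⁻¹) =
          dm δ (cu C) * (x j * (x j)⁻¹) * (cu C)⁻¹ + cu C * dm δ (x j) * ((x j)⁻¹ * (cu C)⁻¹) := by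
        simp only [Matrix.add_mul, Matrix.mul_assoc]
      rw [e1, hxx, Matrix.mul_one]
      congr 1
      by_cases hj : j = i
      · subst hj
        rw [Pi.single_eq_same, h1]
        calc cu C * ((cu C)⁻¹ * X * cu C * x j) * ((x j)⁻¹ * (cu C)⁻¹) =
            (cu C * (cu C)⁻¹) * X * (cu C * (x j * (x j)⁻¹) * (cu C)⁻¹) := by simp only [Matrix.mul_assoc]
          _ = X := by rw [hCC, hxx, Matrix.mul_one, hCC, Matrix.mul_one, Matrix.one_mul]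
      · rw [Pi.single_eq_of_ne hj, h2 j hj, Matrix.mul_zero, Matrix.zero_mul]
    rw [h4] at h3
    exact h3
  -- the derivations
  have hexd : ∀ (i : Fin N) (X : Matrix (Fin n) (Fin n) (U ℂ)), X ∈ spS (cu J) →
      ∃ δ : Derivation (U ℚ) (U ℂ) (U ℂ), dm δ (x i) = (cu C)⁻¹ * X * cu C * x i ∧ ∀ j, j ≠ i → dm δ (x j) = 0 := by
    intro i X hX
    refine hder i _ ?_
    obtain ⟨F, rfl⟩ := gm_surj X
    rw [gm_spS] at hX
    rw [cu_inv hC, ← gm_mul, ← gm_mul, mem_GU]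
    exact hX.mono fun k hk => h𝔤 _ hk
  have hgs : ∀ (δ : Derivation (U ℚ) (U ℂ) (U ℂ)) (i : Fin N) (X : Matrix (Fin n) (Fin n) (U ℂ)), X ∈ spS (cu J) →
      ∀ j, GS (cu J) (Fd δ C + (Pi.single i X : Fin N → Mn n (U ℂ)) j) := by
    intro δ i X hX j
    refine (hc.gs δ).add (GS.of ?_)
    by_cases hj : j = i
    · subst hj
      rw [Pi.single_eq_same]
      exact hX
    · rw [Pi.single_eq_of_ne hj]
      exact (spS (cu J)).zero_mem
  -- the projections are everything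
  have hfull : ∀ i, Pj (cu J) L i = spS (cu J) := by
    intro i
    refine (thmC (F := U ℂ) hJu hdu hn (TN_gm (J := J) (T := T) (j := i) fun k => hTN k i) Pj_le (Ty_cu hc.ty) fun X hX => ?_).resolve_left
      (ne_gm (J := J) (T := T) (j := i) fun k => hne k i)
    obtain ⟨δ, h1, h2⟩ := hexd i X hX
    obtain ⟨c, hcd⟩ := hc.gs δ
    refine ⟨X + (Fd δ C + c • (1 : Mn n (U ℂ))), -(Fd δ C + c • (1 : Mn n (U ℂ))), ?_, ?_, ?_, ?_⟩
    · abel
    · exact (spS (cu J)).add_mem hX hcd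
    · refine Pj_nrm hJu (hgs δ i X hX) (hlog δ i X h1 h2) (c := -c) ((spS (cu J)).add_mem hX hcd) ?_
      rw [Pi.single_eq_same]
      module
    · rw [Matrix.neg_mul, Matrix.mul_neg, Matrix.add_mul, Matrix.mul_add, hc.comm δ, Matrix.smul_mul, Matrix.mul_smul,
        Matrix.one_mul, Matrix.mul_one]
  -- the last step
  obtain ⟨V, _, _, _, Φ, hV, hΦ⟩ := hc.few
  have hmain : ∀ i, ∀ Y ∈ spS (cu J), ib (r₀ := r₀) i Y ∈ L := by
    intro i
    let 𝒬 : Submodule (U ℂ) (Matrix (Fin n) (Fin n) (U ℂ) × Derivation (U ℚ) (U ℂ) (U ℂ)) :=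
      { carrier := {p | p.1 ∈ spS (cu J) ∧ dm p.2 (x i) = (cu C)⁻¹ * p.1 * cu C * x i ∧ ∀ j, j ≠ i → dm p.2 (x j) = 0}
        zero_mem' := by
          refine ⟨(spS (cu J)).zero_mem, ?_, fun j _ => ?_⟩
          · rw [Prod.fst_zero, Matrix.mul_zero, Matrix.zero_mul, Matrix.zero_mul]
            ext a b
            simp [dm]
          · ext a b
            simp [dm]
        add_mem' := by
          rintro p q ⟨h0, h1, h2⟩ ⟨h0', h1', h2'⟩
          have h3 : ∀ y : Matrix (Fin n) (Fin n) (U ℂ), dm (p + q).2 y = dm p.2 y + dm q.2 y := by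
            intro y
            ext a b
            simp [dm]
          refine ⟨(spS (cu J)).add_mem h0 h0', ?_, fun j hj => ?_⟩
          · rw [h3, h1, h1', Prod.fst_add, Matrix.mul_add, Matrix.add_mul, Matrix.add_mul]
          · rw [h3, h2 j hj, h2' j hj, add_zero]
        smul_mem' := by
          rintro a p ⟨h0, h1, h2⟩
          have h3 : ∀ y : Matrix (Fin n) (Fin n) (U ℂ), dm (a • p).2 y = a • dm p.2 y := by
            intro y
            ext b c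
            simp [dm]
          refine ⟨(spS (cu J)).smul_mem a h0, ?_, fun j hj => ?_⟩
          · rw [h3, h1, Prod.smul_fst, Matrix.mul_smul, Matrix.smul_mul, Matrix.smul_mul]
          · rw [h3, h2 j hj, smul_zero] }
    let R : 𝒬 →ₗ[U ℂ] V := Φ ∘ₗ (LinearMap.snd (U ℂ) _ _) ∘ₗ 𝒬.subtype
    let E : 𝒬 →ₗ[U ℂ] Matrix (Fin n) (Fin n) (U ℂ) := (LinearMap.fst (U ℂ) _ _) ∘ₗ 𝒬.subtype
    obtain ⟨⟨p, hp⟩, hp1, hp2⟩ : ∃ p : 𝒬, R p = 0 ∧ E p ≠ 0 := by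
      by_contra hcon
      push Not at hcon
      have h1 : LinearMap.ker R ≤ LinearMap.ker E := fun p hp => hcon p hp
      obtain ⟨h2, h3⟩ := rank_le R E h1
      have h4 : spS (cu J) ≤ LinearMap.range E := by
        intro X hX
        obtain ⟨δ, e1, e2⟩ := hexd i X hX
        exact ⟨⟨(X, δ), hX, e1, e2⟩, rfl⟩
      have h5 := Submodule.finrank_mono h4
      omega
    obtain ⟨A, δ⟩ := p
    obtain ⟨h0, h1, h2⟩ := hp
    have hA0 : A ≠ 0 := hp2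
    obtain ⟨w, hw1, hw2⟩ := hΦ δ hp1
    refine link hJu hdu hLbr (hfull i).ge h0 hA0 fun y hy => ?_
    have h3 := hlog δ i A h1 h2 y hy
    have h4 : dm δ Ĉ * Ĉ⁻¹ = w • 1 := by
      rw [hw1, Matrix.smul_mul, Matrix.mul_nonsing_inv _ hĈu]
    have h5 : Fd δ C = w • 1 := by
      unfold Fd
      rw [hw2, Matrix.smul_mul, hCC]
    have h6 : Tot (dm δ Ĉ * Ĉ⁻¹) (fun j => Fd δ C + (Pi.single i A : Fin N → Mn n (U ℂ)) j) =
        w • (1 : Matrix (Ix r₀ n N) (Ix r₀ n N) (U ℂ)) + ib i A := by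
      rw [h4, h5, ib_Tot, ← Tot_one', Tot_smul, Tot_add, add_zero]
    rw [h6, Matrix.add_mul, Matrix.mul_add, Matrix.smul_mul, Matrix.mul_smul, Matrix.one_mul, Matrix.mul_one,
      add_sub_add_left_eq_sub] at h3
    exact h3
  -- back to the components
  rw [Filter.eventually_all]
  intro i
  by_contra hcon
  rw [← Ultrafilter.eventually_not] at hcon
  have h1 : ∀ k, ∃ X ∈ spS J, (¬ ∀ X ∈ spS J, ib (r₀ := r₀) i X ∈ Lm (T k)) → ib (r₀ := r₀) i X ∉ Lm (T k) := by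
    intro k
    by_cases hk : ∀ X ∈ spS J, ib (r₀ := r₀) i X ∈ Lm (T k)
    · exact ⟨0, (spS J).zero_mem, fun h => absurd hk h⟩
    · have hk' := hk
      push Not at hk'
      obtain ⟨Y, h1, h2⟩ := hk'
      exact ⟨Y, h1, fun _ => h2⟩
  choose X hX1 hX2 using h1
  have h3 : ib i (gm X) ∈ L := hmain i _ (gm_spS.2 (Filter.Eventually.of_forall hX1))
  rw [← gm_ib] at h3
  have h5 := mem_Lst.1 h3
  obtain ⟨k, hk1, hk2⟩ := (h5.and hcon).exists
  exact hX2 k hk2 hk1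

end Pool.Agent.H936.SL
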