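import Pool.Agent.H936.SL.Cns2

/-!
# The constants, III: the fibre with endomorphisms
-/

set_option autoImplicit false
set_option linter.unusedSectionVars false
set_option linter.unusedVariables false
set_option maxHeartbeats 400000

open Matrix Module Filter

namespace Pool.Agent.H936.SL

open Pool.Agent.Helper880_LF (om om_add_left om_add_right om_smul_left om_smul_right pr spS mem_spS comm_mem pr_mem pr_mulVec)
open Pool.Agent.Helper880_LF.NB (gm gm_mul gm_add gm_sub gm_smul gm_zero gm_one gm_neg gm_unit gm_transpose gm_kt kt kt_apply dm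
  dm_mul dm_smul dm_transpose kerD mem_kerD ker_alg ker_adj gm_apply)
open Pool.Agent.Helper880_R3 (Ix ib Tot GU lieB mem_lieB Inf Few GU_cod cod_sp Cod IsLie)
open Pool.Agent.Y118.UL (mk U)
open Pool.Agent.Y119.HY (cm cm_apply cm_mul cm_one cm_transpose cm_zero cm_add cm_neg)
open Pool.Agent.Y102 (AbVar QBar tau toC toC_eq)
open Pool.Agent.W516.DR (IsDeRhamBettiEnd)
open Pool.Agent.W516.KC (IsSkew)
open Pool.Agent.R917 (PM PM_apply eqv)

variable {n N r₀ g : ℕ}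

/-! ### algebraic matrices -/

/-- matrices with algebraic entries -/
def Alg (M : Matrix (Fin n) (Fin n) ℂ) : Prop := ∀ i j, IsAlgebraic ℚ (M i j)

theorem Alg.mul {A B : Matrix (Fin n) (Fin n) ℂ} (hA : Alg A) (hB : Alg B) : Alg (A * B) := by
  intro i j
  rw [Matrix.mul_apply]
  exact Finset.sum_induction _ (fun x : ℂ => IsAlgebraic ℚ x) (fun _ _ => IsAlgebraic.add) isAlgebraic_zero
    fun k _ => (hA i k).mul (hB k j)

theorem Alg.transpose {A : Matrix (Fin n) (Fin n) ℂ} (hA : Alg A) : Alg Aᵀ := fun i j => hA j i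

theorem Alg.cm (R : Matrix (Fin n) (Fin n) ℚ) : Alg (cm R) := cm_alg R

theorem Alg.inv {T T' : Matrix (Fin n) (Fin n) ℂ} (hT : Alg T) (h : T * T' = 1) : Alg T' := by
  classical
  let M : Matrix (Fin n) (Fin n) QBar := Matrix.of fun i j => ⟨T i j, (mem_algebraicClosure_iff).2 (hT i j)⟩
  have hM : M.map (algebraMap QBar ℂ) = T := by
    ext i j
    rfl
  have hdet : IsUnit M.det := by
    rw [isUnit_iff_ne_zero]
    intro h0
    have h1 : T.det = 0 := by
      rw [← hM, ← RingHom.mapMatrix_apply, ← RingHom.map_det, h0, map_zero]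
    have h2 := congrArg Matrix.det h
    rw [Matrix.det_mul, h1, zero_mul, Matrix.det_one] at h2
    exact zero_ne_one h2
  have h3 : T' = (M⁻¹).map (algebraMap QBar ℂ) := by
    have h4 : T * (M⁻¹).map (algebraMap QBar ℂ) = 1 := by
      rw [← hM, ← Matrix.map_mul, Matrix.mul_nonsing_inv _ hdet, Matrix.map_one _ (map_zero _) (map_one _)]
    have h5 : T' * T = 1 := by
      rw [mul_eq_one_comm]
      exact h
    calc T' = T' * (T * (M⁻¹).map (algebraMap QBar ℂ)) := by rw [h4, Matrix.mul_one]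
      _ = _ := by rw [← Matrix.mul_assoc, h5, Matrix.one_mul]
  intro i j
  rw [h3, Matrix.map_apply]
  exact QBar.alg _

/-! ### symmetric operators -/

theorem sym_EM (A : AbVar g) (X : Module.End ℚ A.H1) (h : ∀ u v, A.om (X u) v = A.om u (X v)) :
    (LinearMap.toMatrix' X)ᵀ * EM A = EM A * LinearMap.toMatrix' X := by
  have hX : ∀ u, X u = LinearMap.toMatrix' X *ᵥ u := by
    intro u
    rw [← Matrix.toLin'_apply, Matrix.toLin'_toMatrix']
  have h1 : ∀ u v : A.H1, A.om (X u) v - A.om u (X v) =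
      u ⬝ᵥ (((LinearMap.toMatrix' X)ᵀ * EM A - EM A * LinearMap.toMatrix' X) *ᵥ v) := by
    intro u v
    rw [om_EM, om_EM, hX, hX, Matrix.sub_mulVec, dotProduct_sub, ← Matrix.mulVec_mulVec, ← Matrix.mulVec_mulVec]
    congr 1
    rw [Matrix.dotProduct_mulVec u, Matrix.vecMul_transpose]
  rw [← sub_eq_zero]
  ext a b
  have h2 := h (Pi.single a 1) (Pi.single b 1)
  rw [← sub_eq_zero, h1, Matrix.mulVec_single_one, single_one_dotProduct] at h2
  exact h2

theorem sym_bt {A : AbVar g} {H R : Matrix (Fin (2 * g)) (Fin (2 * g)) ℚ} {P : Matrix (Fin (2 * g)) (Fin (2 * g)) ℂ}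
    (hH : IsUnit H.det) (h : Pres A H P R) {X : Module.End ℚ A.H1} (hX : ∀ u v, A.om (X u) v = A.om u (X v)) :
    Sy (cm H⁻¹) (bt R X) := by
  obtain ⟨T, T', q, hR, -, -, hq, -, hE⟩ := h
  have h0 := sym_EM A X hX
  set M := (LinearMap.toMatrix' X)ᵀ with hM
  have hMt : LinearMap.toMatrix' X = Mᵀ := (transpose_transpose _).symm
  rw [hMt] at h0
  have hHH : H * H⁻¹ = 1 := Matrix.mul_nonsing_inv _ hH
  have hHH' : H⁻¹ * H = 1 := Matrix.nonsing_inv_mul _ hH
  have hRR : R⁻¹ * R = 1 := Matrix.nonsing_inv_mul _ hR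
  have hRt : Rᵀ * (R⁻¹)ᵀ = 1 := by rw [← transpose_mul, hRR, transpose_one]
  set Y := R * M * R⁻¹ with hY
  have e1 : q • (Y * H) = R * (M * EM A) * Rᵀ := by
    rw [← Matrix.mul_smul, ← hE, hY]
    calc R * M * R⁻¹ * (R * EM A * Rᵀ) = R * M * (R⁻¹ * R) * EM A * Rᵀ := by simp only [Matrix.mul_assoc]
      _ = _ := by
        rw [hRR, Matrix.mul_one]
        simp only [Matrix.mul_assoc]
  have e2 : q • (H * Yᵀ) = R * (EM A * Mᵀ) * Rᵀ := by
    rw [← Matrix.smul_mul, ← hE, hY, transpose_mul, transpose_mul]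
    calc R * EM A * Rᵀ * ((R⁻¹)ᵀ * (Mᵀ * Rᵀ)) = R * EM A * (Rᵀ * (R⁻¹)ᵀ) * Mᵀ * Rᵀ := by
          simp only [Matrix.mul_assoc]
      _ = _ := by
        rw [hRt, Matrix.mul_one]
        simp only [Matrix.mul_assoc]
  have h1 : Y * H = H * Yᵀ := by
    have h2 : q • (Y * H) = q • (H * Yᵀ) := by rw [e1, e2, h0]
    exact smul_right_injective _ hq h2
  have h3 : Yᵀ * H⁻¹ = H⁻¹ * Y := by
    calc Yᵀ * H⁻¹ = H⁻¹ * (H * Yᵀ) * H⁻¹ := by rw [← Matrix.mul_assoc, hHH', Matrix.one_mul]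
      _ = H⁻¹ * Y * (H * H⁻¹) := by
        rw [← h1]
        simp only [Matrix.mul_assoc]
      _ = _ := by rw [hHH, Matrix.mul_one]
  have h4 : (bt R X)ᵀ * cm H⁻¹ = cm H⁻¹ * bt R X := by
    have h5 := congrArg Pool.Agent.Y119.HY.cm h3
    rw [cm_mul, cm_mul, cm_transpose] at h5
    exact h5
  intro u v
  unfold Pool.Agent.Helper880_LF.om
  rw [Matrix.mulVec_mulVec, ← h4, ← Matrix.mulVec_mulVec, Matrix.dotProduct_mulVec u, Matrix.vecMul_transpose]

/-- operators which are not scalar -/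
theorem ns_bt (hn : 0 < n) {J : Matrix (Fin n) (Fin n) ℂ} (hJ : Jᵀ = -J) (hdet : IsUnit J.det) {R : Matrix (Fin n) (Fin n) ℚ}
    (hR : IsUnit R.det) {X : Module.End ℚ (Fin n → ℚ)} (hX : ∀ c : ℚ, X ≠ c • (1 : Module.End ℚ (Fin n → ℚ))) :
    ∃ w, bt R X *ᵥ w ∉ Submodule.span ℂ {w} := by
  by_contra hcon
  push Not at hcon
  obtain ⟨ν, hν⟩ := scalar_of hJ hdet hcon
  have h1 : bt R X = ν • 1 := by
    apply Matrix.ext_of_mulVec_single
    intro i
    rw [hν, Matrix.smul_mulVec, Matrix.one_mulVec]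
  have h2 : ∃ q : ℚ, ν = q := by
    have h3 := congrFun (congrFun h1 ⟨0, hn⟩) ⟨0, hn⟩
    rw [Matrix.smul_apply, Matrix.one_apply_eq, smul_eq_mul, mul_one] at h3
    unfold bt at h3
    rw [cm_apply] at h3
    exact ⟨_, h3.symm⟩
  obtain ⟨q, rfl⟩ := h2
  apply hX q
  rw [← sub_eq_zero]
  apply bt_inj hR
  rw [bt_sub, bt_smul, bt_one hR, h1, sub_self]

/-! ### the endomorphisms on the de Rham side -/

theorem end_PM (A : AbVar g) {X : Module.End ℚ A.H1} (hX : IsDeRhamBettiEnd QBar A.dR X) :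
    ∃ a : Matrix (Fin (2 * g)) (Fin (2 * g)) ℂ, Alg a ∧ (toC X)ᵀ * PM A = PM A * a := by
  obtain ⟨a, ha⟩ := hX
  refine ⟨Matrix.of fun p q => algebraMap QBar ℂ (a ((eqv g).symm q) ((eqv g).symm p)), fun p q => QBar.alg _, ?_⟩
  ext b q
  obtain ⟨i, rfl⟩ := (eqv g).surjective q
  rw [Matrix.mul_apply, Matrix.mul_apply]
  have h1 := ha i (Pi.single b 1)
  have h2 : A.dR i (X (Pi.single b 1)) = ∑ c, (toC X)ᵀ b c * PM A c (eqv g i) := by
    have h3 : X (Pi.single b 1) = ∑ c, (X (Pi.single b 1) c) • (Pi.single c 1 : A.H1) := by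
      conv_lhs => rw [pi_eq_sum_univ (X (Pi.single b 1))]
      refine Finset.sum_congr rfl fun c _ => ?_
      congr 1
      funext d
      rw [Pi.single_apply]
      by_cases h : c = d
      · rw [if_pos h, if_pos h.symm]
      · rw [if_neg h, if_neg (Ne.symm h)]
    rw [h3, map_sum]
    refine Finset.sum_congr rfl fun c _ => ?_
    rw [map_smul, PM_apply, Rat.smul_def]
    rfl
  rw [← h2, h1, ← Equiv.sum_comp (eqv g)]
  refine Finset.sum_congr rfl fun j _ => ?_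
  rw [PM_apply, Matrix.of_apply, Equiv.symm_apply_apply, Equiv.symm_apply_apply, mul_comm]

theorem Pres.end {A : AbVar g} {H R : Matrix (Fin (2 * g)) (Fin (2 * g)) ℚ} {P : Matrix (Fin (2 * g)) (Fin (2 * g)) ℂ}
    (h : Pres A H P R) {X : Module.End ℚ A.H1} (hX : IsDeRhamBettiEnd QBar A.dR X) :
    ∃ a : Matrix (Fin (2 * g)) (Fin (2 * g)) ℂ, Alg a ∧ bt R X * P = P * a := by
  obtain ⟨T, T', q, hR, hT, hTa, hq, hP, hE⟩ := h
  obtain ⟨a, ha, h1⟩ := end_PM A hX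
  have hT' : Alg T' := Alg.inv hTa hT
  refine ⟨T' * a * T, (hT'.mul ha).mul hTa, ?_⟩
  rw [bt_eq hR, hP]
  calc cm R * (toC X)ᵀ * (cm R)⁻¹ * (cm R * PM A * T) = cm R * (toC X)ᵀ * ((cm R)⁻¹ * cm R) * PM A * T := by
        simp only [Matrix.mul_assoc]
    _ = cm R * ((toC X)ᵀ * PM A) * T := by
      rw [cm_inv_mul hR, Matrix.mul_one]
      simp only [Matrix.mul_assoc]
    _ = cm R * PM A * (T * T') * a * T := by
      rw [h1, hT, Matrix.mul_one]
      simp only [Matrix.mul_assoc]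
    _ = _ := by simp only [Matrix.mul_assoc]

/-- **the Legendre relation** -/
theorem Pres.leg {A : AbVar g} {H R : Matrix (Fin (2 * g)) (Fin (2 * g)) ℚ} {P : Matrix (Fin (2 * g)) (Fin (2 * g)) ℂ}
    (h : Pres A H P R) : ∃ (B : Matrix (Fin (2 * g)) (Fin (2 * g)) ℂ) (q : ℚ), Alg B ∧ q ≠ 0 ∧
      P * B * Pᵀ = (tau * q : ℂ) • cm H := by
  obtain ⟨T, T', q, hR, hT, hTa, hq, hP, hE⟩ := h
  have hT' : Alg T' := Alg.inv hTa hT
  have hdrb : Pool.Agent.W516.DR.IsDeRhamBettiBilinear QBar A.dR tau A.om := A.om_drb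
  obtain ⟨a, ha⟩ := hdrb
  set Ω : Matrix (Fin (2 * g)) (Fin (2 * g)) ℂ := Matrix.of fun p q => algebraMap QBar ℂ (a ((eqv g).symm p) ((eqv g).symm q))
    with hΩ
  have hΩa : Alg Ω := fun p q => QBar.alg (a ((eqv g).symm p) ((eqv g).symm q))
  have h1 : PM A * Ω * (PM A)ᵀ = (tau : ℂ) • cm (EM A) := by
    ext b c
    have h2 := ha (Pi.single b 1) (Pi.single c 1)
    rw [Matrix.smul_apply, smul_eq_mul, cm_apply]
    refine Eq.trans ?_ h2.symm
    rw [Matrix.mul_apply]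
    have h4 : ∀ p, (PM A * Ω) b p = ∑ i, PM A b (eqv g i) * Ω (eqv g i) p := by
      intro p
      rw [Matrix.mul_apply, ← Equiv.sum_comp (eqv g)]
    rw [← Equiv.sum_comp (eqv g)]
    simp only [h4, Finset.sum_mul]
    rw [Finset.sum_comm]
    refine Finset.sum_congr rfl fun i _ => Finset.sum_congr rfl fun j _ => ?_
    rw [Matrix.transpose_apply, PM_apply, PM_apply, hΩ, Matrix.of_apply, Equiv.symm_apply_apply, Equiv.symm_apply_apply]
    ring
  refine ⟨T' * Ω * T'ᵀ, q, (hT'.mul hΩa).mul hT'.transpose, hq, ?_⟩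
  have hTt : T'ᵀ * Tᵀ = 1 := by rw [← transpose_mul, hT, transpose_one]
  rw [hP, transpose_mul, transpose_mul]
  calc cm R * PM A * T * (T' * Ω * T'ᵀ) * (Tᵀ * ((PM A)ᵀ * (cm R)ᵀ)) =
      cm R * PM A * (T * T') * Ω * (T'ᵀ * Tᵀ) * (PM A)ᵀ * (cm R)ᵀ := by simp only [Matrix.mul_assoc]
    _ = cm R * (PM A * Ω * (PM A)ᵀ) * (cm R)ᵀ := by
      rw [hT, hTt, Matrix.mul_one, Matrix.mul_one]
      simp only [Matrix.mul_assoc]
    _ = (tau : ℂ) • cm (R * EM A * Rᵀ) := by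
      rw [h1, cm_mul, cm_mul, cm_transpose, Matrix.mul_smul, Matrix.smul_mul]
    _ = _ := by
      have h5 : cm (q • H) = (q : ℂ) • cm H := by
        ext i j
        rw [cm_apply, Matrix.smul_apply, Matrix.smul_apply, cm_apply]
        simp
      rw [hE, h5, smul_smul]

/-- **the constants of a family with a special fibre** -/
theorem cst_of (hg : 2 ≤ g) {A : AbVar g} {H R : Matrix (Fin (2 * g)) (Fin (2 * g)) ℚ}
    {C : Matrix (Fin (2 * g)) (Fin (2 * g)) ℂ} (hP : Pres A H C R) (hH : Hᵀ = -H) (hHd : IsUnit H.det) (hC : IsUnit C.det)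
    {X₀ : Module.End ℚ A.H1} (hX : IsDeRhamBettiEnd QBar A.dR X₀) (hns : ∀ c : ℚ, X₀ ≠ c • (1 : Module.End ℚ A.H1))
    {C₀ : Matrix (Fin r₀) (Fin r₀) ℂ}
    (hl : (∃ s, s < (2 * g + 1).choose 2 ∧ Few s C₀ C) ∨ (∃ (s : ℕ) (b : Fin s → ℂ), s + 3 ≤ 2 * g ∧
      ∀ i j, IsAlgebraic (IntermediateField.adjoin ℚ (insert (tau : ℂ) (Set.range b ∪
        Set.range fun p : Fin (2 * g) × Fin (2 * g) => C p.1 p.2))) (C₀ i j))) :
    ∃ α, Cst (cm H⁻¹) C α C₀ := by
  obtain ⟨X, hXe, hXt⟩ := exists_type A (by omega) hX hns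
  have hR : IsUnit R.det := by
    obtain ⟨T, T', q, hR, -⟩ := hP
    exact hR
  have hJ : (cm H⁻¹)ᵀ = -cm H⁻¹ := cm_skew hH
  have hHH : cm H * cm H⁻¹ = 1 := by rw [← cm_mul, Matrix.mul_nonsing_inv _ hHd, cm_one]
  have hJd : IsUnit (cm H⁻¹).det := by
    have h1 := congrArg Matrix.det hHH
    rw [Matrix.det_mul, Matrix.det_one] at h1
    exact IsUnit.of_mul_eq_one _ (by rw [mul_comm]; exact h1)
  have hHc : IsUnit (cm H).det := by
    have h1 := congrArg Matrix.det hHH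
    rw [Matrix.det_mul, Matrix.det_one] at h1
    exact IsUnit.of_mul_eq_one _ h1
  have hty : Ty (cm H⁻¹) (bt R X) := by
    rcases hXt with ⟨h1, h2⟩ | ⟨h1, c, hc, h2⟩
    · exact Or.inl ⟨sym_bt hHd hP h1, ns_bt (by omega) hJ hJd hR h2⟩
    · refine Or.inr ⟨fun u v => skew ((skew_bt hHd hP X).1 h1) u v, (c : ℂ), by exact_mod_cast hc, fun v => ?_⟩
      rw [Matrix.mulVec_mulVec, ← bt_mul hR, h2, bt_smul, bt_one hR, Matrix.smul_mulVec, Matrix.one_mulVec]
  obtain ⟨a, ha, hCa⟩ := hP.end hXe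
  have hcomm : ∀ δ, Fd δ C * cu (bt R X) = cu (bt R X) * Fd δ C := fun δ =>
    Fd_comm hC hCa (fun i j => cm_alg _ i j) ha δ
  obtain ⟨B, q, hB, hq, hCB⟩ := hP.leg
  have hθ : (tau * q : ℂ) ≠ 0 := mul_ne_zero AbVar.tau_ne (by exact_mod_cast hq)
  have hinv : cm H⁻¹ = (cm H)⁻¹ := (cm_inv hHd).symm
  have hgs : ∀ δ, GS (cu (cm H⁻¹)) (Fd δ C) := fun δ => by
    rw [hinv]
    exact Fd_gs hC hHc hθ hCB hB (fun i j => cm_alg _ i j) δ
  refine ⟨bt R X, hJ, hJd, hty, hcomm, hgs, ?_⟩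
  have hHt : (cm H)ᵀ = -cm H := by rw [← cm_transpose, hH, cm_neg]
  rcases hl with ⟨s, hs, hf⟩ | ⟨s, b, hs, hf⟩
  · exact few_a hJ hJd hf hs
  · rw [hinv]
    rw [hinv] at hty hgs
    refine few_b (by omega) hHt hHc hty hC hcomm hgs (fun δ hδ => ?_) hf hs
    have h0 : cu C * cu B * (cu C)ᵀ = kt (tau * q) • cu (cm H) := by
      rw [← gm_transpose, ← gm_mul, ← gm_mul]
      have : kt (tau * q) • cu (cm H) = gm fun _ => (tau * q : ℂ) • cm H := by rw [gm_smul]; rfl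
      rw [this]
      congr 1
      funext _
      exact hCB
    have h1 := congrArg (dm δ) h0
    rw [dm_mul, dm_mul, hδ, dm_alg δ hB, Matrix.mul_zero, Matrix.zero_mul, add_zero, Matrix.zero_mul, zero_add, dm_transpose,
      hδ, transpose_zero, Matrix.mul_zero, dm_smul, dm_cm, smul_zero, add_zero] at h1
    have h2 : (cu (cm H)) ≠ 0 := by
      intro h3
      have h4 := (cu_unit hHc).ne_zero
      rw [h3] at h4
      refine h4 ?_
      have : Nonempty (Fin (2 * g)) := ⟨⟨0, by omega⟩⟩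
      exact Matrix.det_zero
    have h3 := (smul_eq_zero.1 h1.symm).resolve_right h2
    rw [map_mul, Derivation.leibniz, smul_eq_mul, smul_eq_mul] at h3
    have h4 : δ (kt (q : ℂ)) = 0 := by
      have h5 : (kt (q : ℂ)) = ((q : ℚ) : U ℂ) := map_ratCast kt q
      rw [h5]
      have h6 : ((q : ℚ) : U ℂ) ∈ kerD δ := SubfieldClass.ratCast_mem _ q
      exact h6
    rw [h4, mul_zero, zero_add] at h3
    exact (mul_eq_zero.1 h3).resolve_left ((map_ne_zero kt).2 (by exact_mod_cast hq))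

end Pool.Agent.H936.SL
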