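import Pool.Agent.H936.SL.Cns3

/-!
# Families of abelian varieties with a special fibre: all fibres with large integral parameter
-/

set_option autoImplicit false
set_option linter.unusedSectionVars false
set_option linter.unusedVariables false
set_option maxHeartbeats 400000

open Matrix Module Filter PowerSeries

namespace Pool.Agent.H936.SL

open Pool.Agent.Y113 (ev Cv GSys ps)
open Pool.Agent.Y120.GH (QU0)
open Pool.Agent.Y118.HV (Hv hh)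
open Pool.Agent.Helper880_LF (spS mem_spS comm_mem)
open Pool.Agent.Helper880_R3 (Ix ib Tot Zm GU lieB mem_lieB Inf Few windows sum_ib exp_Zm exp_stab grp_stab)
open Pool.Agent.Y123.ST (fl um LL fl_um um_fl fl_add fl_zero)
open Pool.Agent.TH127.PT (IsSubtorsor)
open Pool.Agent.Y119.HY (cm cm_pow cm_apply)
open Pool.Agent.Y102 (AbVar QBar)
open Pool.Agent.W516.DR (IsDeRhamBettiEnd)

variable {n N r₀ g : ℕ} {K : Subfield ℂ}

/-- stability under exponentials -/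
theorem exp_of_ib {H : Matrix (Fin n) (Fin n) ℂ} (hH : IsUnit H.det) {S : Set (Matrix (Ix r₀ n N) (Ix r₀ n N) ℂ)}
    (hS : IsSubtorsor K S) (h : ∀ i, ∀ X ∈ spS H⁻¹, ib (r₀ := r₀) i X ∈ Lm S) (Y : Fin N → Matrix (Fin n) (Fin n) ℂ)
    (hY : ∀ j, Y j ∈ lieB H) {x : Matrix (Ix r₀ n N) (Ix r₀ n N) ℂ} (hx : x ∈ S) :
    Zm (fun j => NormedSpace.exp (Y j)) * x ∈ S := by
  classical
  rw [lieB_eq hH] at hY
  have h4 : ∀ s : Finset (Fin N), fl (∑ i ∈ s, ib (r₀ := r₀) i (Y i)) ∈ LL S := by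
    intro s
    induction s using Finset.induction_on with
    | empty =>
      rw [Finset.sum_empty, fl_zero]
      exact (LL S).zero_mem
    | insert a s ha ih =>
      rw [Finset.sum_insert ha, fl_add]
      exact (LL S).add_mem (h a _ (hY a)) ih
  have h3 := h4 Finset.univ
  rw [sum_ib] at h3
  have h5 := exp_stab hS h3 hx
  rw [exp_Zm] at h5
  exact h5

/-- **stability under the symplectic groups** -/
theorem sp_stab {H : Matrix (Fin n) (Fin n) ℂ} (hHt : Hᵀ = -H) (hH : IsUnit H.det)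
    {S : Set (Matrix (Ix r₀ n N) (Ix r₀ n N) ℂ)}
    (hS : IsSubtorsor K S) (h : ∀ i, ∀ X ∈ spS H⁻¹, ib (r₀ := r₀) i X ∈ Lm S)
    (γ : Fin N → (Matrix (Fin n) (Fin n) ℂ)ˣ) (hγ : ∀ i, γ i ∈ Pool.Agent.Y123.GN.GB H)
    {x : Matrix (Ix r₀ n N) (Ix r₀ n N) ℂ} (hx : x ∈ S) :
    Tot 1 (fun i => (γ i : Matrix (Fin n) (Fin n) ℂ)) * x ∈ S := by
  refine grp_stab hS (C := 1) (B := H) (by rw [Matrix.det_one]; exact isUnit_one) (fun Y hY x hx => ?_)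
    (Or.inr (Or.inl ⟨(Matrix.isUnit_iff_isUnit_det _).2 hH, hHt⟩)) γ (fun i => ?_) hx
  · have h1 := exp_of_ib hH hS h Y hY hx
    have h2 : (fun j => NormedSpace.exp ((1 : Matrix (Fin n) (Fin n) ℂ) * Y j * (1 : Matrix (Fin n) (Fin n) ℂ)⁻¹)) =
        fun j => NormedSpace.exp (Y j) := by
      funext j
      rw [inv_one, Matrix.one_mul, Matrix.mul_one]
    rw [h2]
    exact h1
  · rw [transpose_one, Matrix.one_mul, Matrix.mul_one]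
    exact hγ i

/-- **the theorem for windows** -/
theorem main2 (hg : 2 ≤ g) {Z : Matrix (Fin (2 * g)) (Fin (2 * g)) ℚ⟦X⟧} {T : Polynomial ℤ}
    {A : Fin (2 * g * (2 * g)) → Fin (2 * g * (2 * g)) → Polynomial ℤ}
    (hT : T ≠ 0) (hode : ∀ i, ps T * d⁄dX ℚ (hh Z i) = ∑ j, ps (A i j) * hh Z j)
    {q' : ℕ} {C' : ℝ} (hG' : GSys q' C' T (hh Z)) (hqu : QU0 T A) :
    ∃ G : ℕ, 1 ≤ G ∧ ∀ (C : Matrix (Fin (2 * g)) (Fin (2 * g)) ℂ) (H : Matrix (Fin (2 * g)) (Fin (2 * g)) ℚ),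
      Hᵀ = -H → IsUnit H.det → IsUnit C.det →
      (∀ X : Matrix (Fin (2 * g)) (Fin (2 * g)) ℂ, X * cm H + cm H * Xᵀ = 0 → Inf Z (C⁻¹ * X * C)) →
      ∀ (A₀ : AbVar g) (R₀ : Matrix (Fin (2 * g)) (Fin (2 * g)) ℚ), Pres A₀ H C R₀ →
      ∀ X₀ : Module.End ℚ A₀.H1, IsDeRhamBettiEnd QBar A₀.dR X₀ → (∀ c : ℚ, X₀ ≠ c • (1 : Module.End ℚ A₀.H1)) →
      ∀ (N D r₀ : ℕ) (C₀ : Matrix (Fin r₀) (Fin r₀) ℂ), 0 < N → IsUnit C₀.det →
      ((∃ s, s < (2 * g + 1).choose 2 ∧ Few s C₀ C) ∨ (∃ (s : ℕ) (b : Fin s → ℂ), s + 3 ≤ 2 * g ∧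
        ∀ i j, IsAlgebraic (IntermediateField.adjoin ℚ (insert (2 * Real.pi * Complex.I : ℂ) (Set.range b ∪
          Set.range fun p : Fin (2 * g) × Fin (2 * g) => C p.1 p.2))) (C₀ i j))) →
      ∃ E : ℕ, ∀ t : Fin N → ℕ, Function.Injective t → (∀ i j, t i ≡ t j [MOD G]) → (∀ i j, (t i - t j + 2) ^ E ≤ t j) →
      ∀ K : Subfield ℂ, FiniteDimensional ℚ K → finrank ℚ K ≤ D → ∀ S : Set (Matrix (Ix r₀ (2 * g) N) (Ix r₀ (2 * g) N) ℂ),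
      IsSubtorsor K S → RatGrp S → Tot C₀ (fun j => C * Hv Z (t j)) ∈ S →
      (∀ j, ∃ (A : AbVar g) (R : Matrix (Fin (2 * g)) (Fin (2 * g)) ℚ), Pres A H (C * Hv Z (t j)) R) →
      ∀ i, ∀ X ∈ spS (cm H)⁻¹, ib (r₀ := r₀) i X ∈ Lm S := by
  obtain ⟨G0, h⟩ := final2 hg hT hode hG' hqu
  refine ⟨G0 + 1, by omega, fun C H hH hHd hC hI A₀ R₀ hP X₀ hX₀ hns N D r₀ C₀ hN hC0 hl => ?_⟩
  obtain ⟨α, hα⟩ := cst_of hg hP hH hHd hC hX₀ hns hl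
  have hCC : C * C⁻¹ = 1 := Matrix.mul_nonsing_inv _ hC
  have hCC' : C⁻¹ * C = 1 := Matrix.nonsing_inv_mul _ hC
  have hCt : (C⁻¹)ᵀ * Cᵀ = 1 := by rw [← transpose_mul, hCC, transpose_one]
  have hCt' : Cᵀ * (C⁻¹)ᵀ = 1 := by rw [← transpose_mul, hCC', transpose_one]
  have hB : C * (C⁻¹ * cm H * (C⁻¹)ᵀ) * Cᵀ = (1 : ℂ) • cm H := by
    rw [one_smul]
    calc C * (C⁻¹ * cm H * (C⁻¹)ᵀ) * Cᵀ = (C * C⁻¹) * cm H * ((C⁻¹)ᵀ * Cᵀ) := by simp only [Matrix.mul_assoc]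
      _ = cm H := by rw [hCC, hCt, Matrix.one_mul, Matrix.mul_one]
  have hI' : ∀ X ∈ lieB (C⁻¹ * cm H * (C⁻¹)ᵀ), Inf Z X := by
    rintro X ⟨-, hX⟩
    have h1 : X = C⁻¹ * (C * X * C⁻¹) * C := by
      calc X = (C⁻¹ * C) * X * (C⁻¹ * C) := by rw [hCC', Matrix.one_mul, Matrix.mul_one]
        _ = _ := by simp only [Matrix.mul_assoc]
    rw [h1]
    refine hI _ ?_
    have h2 : C * X * C⁻¹ * cm H + cm H * (C * X * C⁻¹)ᵀ =
        C * (X * (C⁻¹ * cm H * (C⁻¹)ᵀ) + C⁻¹ * cm H * (C⁻¹)ᵀ * Xᵀ) * Cᵀ := by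
      rw [Matrix.mul_add, Matrix.add_mul, transpose_mul, transpose_mul]
      congr 1
      · calc C * X * C⁻¹ * cm H = C * X * C⁻¹ * cm H * ((C⁻¹)ᵀ * Cᵀ) := by rw [hCt, Matrix.mul_one]
          _ = _ := by simp only [Matrix.mul_assoc]
      · calc cm H * ((C⁻¹)ᵀ * (Xᵀ * Cᵀ)) = (C * C⁻¹) * (cm H * ((C⁻¹)ᵀ * (Xᵀ * Cᵀ))) := by rw [hCC, Matrix.one_mul]
          _ = _ := by simp only [Matrix.mul_assoc]
    rw [h2, hX, Matrix.mul_zero, Matrix.zero_mul]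
  obtain ⟨E, hE⟩ := h (G0 + 1) (by omega) _ hI' H hH hHd N D r₀ C₀ C α 1 hB hα hC hC0
  refine ⟨2 * E, fun t hinj hmod hw K hK hKD S hS hSr hmem hpres => ?_⟩
  obtain ⟨H', w, u, h1, h2, h3, h4⟩ := windows (by omega) hN hinj hmod hw
  have h5 := (hE H' w h1).2 u h2 h3 K hK hKD S hS hSr
  simp only [h4] at h5
  rw [cm_inv hHd]
  exact h5 hmem hpres

end Pool.Agent.H936.SL
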