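import Pool.Agent.H936.SL.Cns

/-!
# The constants, II
-/

set_option autoImplicit false
set_option linter.unusedSectionVars false
set_option linter.unusedVariables false
set_option maxHeartbeats 400000

open Matrix Module Filter

namespace Pool.Agent.H936.SL

open Pool.Agent.Helper880_LF (om om_add_left om_add_right om_smul_left om_smul_right pr spS mem_spS comm_mem pr_mem pr_mulVec)
open Pool.Agent.Helper880_LF.NB (gm gm_mul gm_add gm_sub gm_smul gm_zero gm_one gm_neg gm_unit gm_transpose gm_kt kt kt_apply dm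
  dm_mul dm_smul dm_transpose kerD mem_kerD ker_alg ker_adj gm_apply)
open Pool.Agent.Helper880_R3 (Ix ib Tot GU lieB mem_lieB Inf Few GU_cod cod_sp Cod IsLie)
open Pool.Agent.Y118.UL (mk U)
open Pool.Agent.Y119.HY (cm cm_apply cm_mul cm_one cm_transpose cm_zero cm_add cm_neg)
open Pool.Agent.Y102 (AbVar QBar tau toC toC_eq)
open Pool.Agent.W516.DR (IsDeRhamBettiEnd)
open Pool.Agent.W516.KC (IsSkew)
open Pool.Agent.R917 (PM PM_apply eqv)

variable {n N r₀ g : ℕ}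

/-- the condition on the number of the constants -/
def FewV (J C : Matrix (Fin n) (Fin n) ℂ) (C₀ : Matrix (Fin r₀) (Fin r₀) ℂ) : Prop :=
  ∃ (V : Type) (_ : AddCommGroup V) (_ : Module (U ℂ) V) (_ : FiniteDimensional (U ℂ) V)
    (Φ : Derivation (U ℚ) (U ℂ) (U ℂ) →ₗ[U ℂ] V), finrank (U ℂ) V < finrank (U ℂ) (spS (cu J)) ∧ ∀ δ, Φ δ = 0 →
      ∃ z : U ℂ, dm δ (gm fun _ => C₀) = z • (gm fun _ => C₀) ∧ dm δ (cu C) = z • cu C

theorem cu_skew {J : Matrix (Fin n) (Fin n) ℂ} (hJ : Jᵀ = -J) : (cu J)ᵀ = -cu J := by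
  rw [← gm_transpose, ← gm_neg]
  congr 1
  funext k
  exact hJ

/-- the values at finitely many constants -/
noncomputable def evb {s : ℕ} (b : Fin s → ℂ) : Derivation (U ℚ) (U ℂ) (U ℂ) →ₗ[U ℂ] (Fin s → U ℂ) where
  toFun δ i := δ (kt (b i))
  map_add' _ _ := rfl
  map_smul' _ _ := rfl

theorem few_a {s : ℕ} {C₀ : Matrix (Fin r₀) (Fin r₀) ℂ} {J C : Matrix (Fin n) (Fin n) ℂ} (hJ : Jᵀ = -J) (hdet : IsUnit J.det)
    (h : Few s C₀ C) (hs : s < (n + 1).choose 2) : FewV J C C₀ := by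
  obtain ⟨b, κ, hκ, h1, h2⟩ := h
  refine ⟨Fin s → U ℂ, inferInstance, inferInstance, inferInstance, evb b, ?_, fun δ hδ => ?_⟩
  · rw [Module.finrank_fin_fun]
    exact hs.trans_le (finrank_spS_ge (cu_skew hJ) (cu_unit hdet))
  have hb : ∀ y ∈ Set.range b, δ (kt y) = 0 := by
    rintro _ ⟨i, rfl⟩
    exact congrFun hδ i
  have hκ' : kt κ ≠ 0 := (map_ne_zero kt).2 hκ
  have hx : ∀ x : ℂ, IsAlgebraic (IntermediateField.adjoin ℚ (Set.range b)) (κ * x) →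
      δ (kt x) = -(δ (kt κ) / kt κ) * kt x := by
    intro x hx
    have h3 := ker_adj (Ω := U ℂ) kt hb hx
    rw [map_mul, Derivation.leibniz, smul_eq_mul, smul_eq_mul] at h3
    field_simp
    linear_combination h3
  refine ⟨-(δ (kt κ) / kt κ), ?_, ?_⟩
  · ext i j
    exact hx _ (h1 i j)
  · ext i j
    exact hx _ (h2 i j)

/-- the elements of the similitude algebra which commute with `α` -/
noncomputable def Ca (J α : Mn n (U ℂ)) : Submodule (U ℂ) (Mn n (U ℂ)) where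
  carrier := {F | GS J F ∧ F * α = α * F}
  zero_mem' := ⟨GS.zero, by rw [Matrix.mul_zero, Matrix.zero_mul]⟩
  add_mem' := by
    rintro a b ⟨h1, h2⟩ ⟨h3, h4⟩
    exact ⟨h1.add h3, by rw [Matrix.mul_add, Matrix.add_mul, h2, h4]⟩
  smul_mem' := by
    rintro c a ⟨h1, h2⟩
    exact ⟨h1.smul c, by rw [Matrix.mul_smul, Matrix.smul_mul, h2]⟩

theorem lieB_eq {H : Matrix (Fin n) (Fin n) ℂ} (hB : IsUnit H.det) : lieB H = spS H⁻¹ := by
  have hBJ : H * H⁻¹ = 1 := mul_nonsing_inv _ hB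
  have hJB : H⁻¹ * H = 1 := nonsing_inv_mul _ hB
  have hJ : IsUnit (H⁻¹).det := by
    rw [det_nonsing_inv]
    exact hB.ringInverse
  ext X
  rw [mem_lieB, mem_spS]
  constructor
  · rintro ⟨-, h⟩
    have h1 : H⁻¹ * (X * H + H * Xᵀ) * H⁻¹ = 0 := by rw [h, Matrix.mul_zero, Matrix.zero_mul]
    have h2 : H⁻¹ * (X * H + H * Xᵀ) * H⁻¹ = H⁻¹ * X * (H * H⁻¹) + (H⁻¹ * H) * Xᵀ * H⁻¹ := by noncomm_ring
    rw [h2, hBJ, hJB, Matrix.mul_one, Matrix.one_mul] at h1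
    rw [add_comm]
    exact h1
  · intro h
    refine ⟨spS_trace hJ ?_, ?_⟩
    · rw [mem_spS]
      exact h
    have h1 : H * (Xᵀ * H⁻¹ + H⁻¹ * X) * H = 0 := by rw [h, Matrix.mul_zero, Matrix.zero_mul]
    have h2 : H * (Xᵀ * H⁻¹ + H⁻¹ * X) * H = H * Xᵀ * (H⁻¹ * H) + (H * H⁻¹) * X * H := by noncomm_ring
    rw [h2, hBJ, hJB, Matrix.mul_one, Matrix.one_mul] at h1
    rw [add_comm]
    exact h1

/-- the dimension of the commutant -/
theorem Ca_dim (hn : 3 ≤ n) {H α : Matrix (Fin n) (Fin n) ℂ} (hH : Hᵀ = -H) (hdet : IsUnit H.det) (hα : Ty H⁻¹ α) :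
    finrank (U ℂ) (Ca (cu H⁻¹) (cu α)) + n ≤ finrank (U ℂ) (spS (cu H⁻¹)) + 2 := by
  have hJ : (H⁻¹)ᵀ = -H⁻¹ := by
    rw [transpose_nonsing_inv, hH]
    refine inv_eq_right_inv ?_
    rw [neg_mul_neg, mul_nonsing_inv _ hdet]
  have hJd : IsUnit (H⁻¹).det := by
    rw [det_nonsing_inv]
    exact hdet.ringInverse
  have hc : Cod (n - 2) (GU (lieB H)) := GU_cod (cod_sp hdet hH (by omega) le_rfl)
  rw [lieB_eq hdet, GU_spS] at hc
  let 𝔫 : Submodule (U ℂ) (Mn n (U ℂ)) :=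
    { carrier := {F | F ∈ spS (cu H⁻¹) ∧ F * cu α = cu α * F}
      zero_mem' := ⟨Submodule.zero_mem _, by rw [Matrix.mul_zero, Matrix.zero_mul]⟩
      add_mem' := by
        rintro a b ⟨h1, h2⟩ ⟨h3, h4⟩
        exact ⟨Submodule.add_mem _ h1 h3, by rw [Matrix.mul_add, Matrix.add_mul, h2, h4]⟩
      smul_mem' := by
        rintro c a ⟨h1, h2⟩
        exact ⟨Submodule.smul_mem _ c h1, by rw [Matrix.mul_smul, Matrix.smul_mul, h2]⟩ }
  have h1 : ¬ spS (cu H⁻¹) ≤ 𝔫 := by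
    intro hcon
    obtain ⟨X, hX, hX'⟩ := not_comm (cu_skew hJ) (cu_unit hJd) (by omega) (Ty_cu hα)
    exact hX' (hcon hX).2
  have h2 : ¬ finrank (U ℂ) (spS (cu H⁻¹)) ≤ finrank (U ℂ) 𝔫 + (n - 2) := by
    intro hcon
    refine h1 (hc 𝔫 (fun F hF => hF.1) ?_ hcon)
    rintro x ⟨hx1, hx2⟩ y ⟨hy1, hy2⟩
    refine ⟨comm_mem (cu_skew hJ) hx1 hy1, ?_⟩
    rw [Matrix.sub_mul, Matrix.mul_sub, Matrix.mul_assoc, hy2, ← Matrix.mul_assoc, hx2, Matrix.mul_assoc y, hx2,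
      ← Matrix.mul_assoc y, hy2]
    simp only [Matrix.mul_assoc]
  have h3 : Ca (cu H⁻¹) (cu α) ≤ 𝔫 ⊔ Submodule.span (U ℂ) {(1 : Mn n (U ℂ))} := by
    rintro F ⟨⟨c, hc⟩, hF⟩
    have h4 : F = (F + c • (1 : Mn n (U ℂ))) + -(c • (1 : Mn n (U ℂ))) := by abel
    rw [h4]
    refine Submodule.add_mem _ (Submodule.mem_sup_left ⟨hc, ?_⟩) (Submodule.mem_sup_right
      (Submodule.neg_mem _ (Submodule.smul_mem _ _ (Submodule.mem_span_singleton_self _))))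
    rw [Matrix.add_mul, Matrix.mul_add, hF, Matrix.smul_mul, Matrix.mul_smul, Matrix.one_mul, Matrix.mul_one]
  have h4 := Submodule.finrank_mono h3
  have h5 := Submodule.finrank_add_le_finrank_add_finrank 𝔫 (Submodule.span (U ℂ) {(1 : Mn n (U ℂ))})
  have h6 : finrank (U ℂ) (Submodule.span (U ℂ) {(1 : Mn n (U ℂ))}) ≤ 1 := by
    have := finrank_span_le_card (R := U ℂ) ({1} : Set (Mn n (U ℂ)))
    simpa using this
  omega

theorem few_b (hn : 3 ≤ n) {s : ℕ} {C₀ : Matrix (Fin r₀) (Fin r₀) ℂ} {H C α : Matrix (Fin n) (Fin n) ℂ} (hH : Hᵀ = -H)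
    (hdet : IsUnit H.det) (hα : Ty H⁻¹ α) (hC : IsUnit C.det) (hcomm : ∀ δ, Fd δ C * cu α = cu α * Fd δ C)
    (hgs : ∀ δ, GS (cu H⁻¹) (Fd δ C)) {b : Fin s → ℂ} {τ : ℂ}
    (hτ : ∀ δ : Derivation (U ℚ) (U ℂ) (U ℂ), dm δ (cu C) = 0 → δ (kt τ) = 0)
    (h : ∀ i j, IsAlgebraic (IntermediateField.adjoin ℚ (insert τ (Set.range b ∪
      Set.range fun p : Fin n × Fin n => C p.1 p.2))) (C₀ i j))
    (hs : s + 3 ≤ n) : FewV H⁻¹ C C₀ := by
  let Φ1 : Derivation (U ℚ) (U ℂ) (U ℂ) →ₗ[U ℂ] Ca (cu H⁻¹) (cu α) :=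
    { toFun := fun δ => ⟨Fd δ C, hgs δ, hcomm δ⟩
      map_add' := fun δ δ' => by
        apply Subtype.ext
        show Fd (δ + δ') C = Fd δ C + Fd δ' C
        unfold Fd
        rw [← Matrix.add_mul]
        congr 1
      map_smul' := fun c δ => by
        apply Subtype.ext
        show Fd (c • δ) C = c • Fd δ C
        unfold Fd
        rw [← Matrix.smul_mul]
        congr 1 }
  refine ⟨Ca (cu H⁻¹) (cu α) × (Fin s → U ℂ), inferInstance, inferInstance, inferInstance, Φ1.prod (evb b), ?_, fun δ hδ => ?_⟩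
  · rw [Module.finrank_prod, Module.finrank_fin_fun]
    have := Ca_dim hn hH hdet hα
    omega
  · have h1 : Φ1 δ = 0 := congrArg Prod.fst hδ
    have h2 : evb b δ = 0 := congrArg Prod.snd hδ
    have hCu := cu_unit hC
    have h3 : dm δ (cu C) = 0 := by
      have h4 : Fd δ C = 0 := congrArg Subtype.val h1
      unfold Fd at h4
      calc dm δ (cu C) = dm δ (cu C) * (cu C)⁻¹ * cu C := by
            rw [Matrix.mul_assoc, Matrix.nonsing_inv_mul _ hCu, Matrix.mul_one]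
        _ = 0 := by rw [h4, Matrix.zero_mul]
    refine ⟨0, ?_, by rw [h3, zero_smul]⟩
    rw [zero_smul]
    have hb : ∀ y ∈ insert τ (Set.range b ∪ Set.range (fun p : Fin n × Fin n => C p.1 p.2)), δ (kt y) = 0 := by
      rintro y (rfl | ⟨i, rfl⟩ | ⟨p, rfl⟩)
      · exact hτ δ h3
      · exact congrFun h2 i
      · exact congrFun (congrFun h3 p.1) p.2
    ext i j
    exact ker_adj (Ω := U ℂ) kt hb (h i j)

/-! ### the type of an endomorphism -/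

theorem exists_type (A : AbVar g) (hg : 0 < g) {X₀ : Module.End ℚ A.H1} (hX : IsDeRhamBettiEnd QBar A.dR X₀)
    (hns : ∀ c : ℚ, X₀ ≠ c • (1 : Module.End ℚ A.H1)) : ∃ X : Module.End ℚ A.H1, IsDeRhamBettiEnd QBar A.dR X ∧
      (((∀ u v, A.om (X u) v = A.om u (X v)) ∧ ∀ c : ℚ, X ≠ c • (1 : Module.End ℚ A.H1)) ∨
        (IsSkew A.om X ∧ ∃ c : ℚ, c ≠ 0 ∧ X * X = c • (1 : Module.End ℚ A.H1))) := by
  have hX' := A.mem_EA.2 hX
  obtain ⟨Y, hY, hadj⟩ := A.endAlg.adj X₀ hX'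
  have hadj' : ∀ u v, A.om (Y u) v = A.om u (X₀ v) := by
    intro u v
    rw [A.om_anti, ← hadj, A.om_anti, neg_neg]
  have hS : X₀ + Y ∈ A.EA := A.EA.add_mem hX' hY
  have hK : X₀ - Y ∈ A.EA := A.EA.sub_mem hX' hY
  have hSs : ∀ u v, A.om ((X₀ + Y) u) v = A.om u ((X₀ + Y) v) := by
    intro u v
    rw [LinearMap.add_apply, LinearMap.add_apply, map_add, LinearMap.add_apply, map_add, hadj, hadj', add_comm]
  have hKs : ∀ u v, A.om ((X₀ - Y) u) v = -A.om u ((X₀ - Y) v) := by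
    intro u v
    rw [LinearMap.sub_apply, LinearMap.sub_apply, map_sub, LinearMap.sub_apply, map_sub, hadj, hadj']
    ring
  by_cases h1 : ∀ c : ℚ, X₀ + Y ≠ c • (1 : Module.End ℚ A.H1)
  · exact ⟨X₀ + Y, A.mem_EA.1 hS, Or.inl ⟨hSs, h1⟩⟩
  push Not at h1
  obtain ⟨c, hc⟩ := h1
  have hKne : X₀ - Y ≠ 0 := by
    intro h
    apply hns (c / 2)
    have h2 : X₀ = Y := sub_eq_zero.1 h
    have h3 : (2 : ℚ) • X₀ = c • (1 : Module.End ℚ A.H1) := by
      rw [two_smul]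
      rw [← h2] at hc
      exact hc
    rw [div_eq_inv_mul, mul_smul, ← h3, smul_smul, inv_mul_cancel₀ (two_ne_zero), one_smul]
  have hKK : (X₀ - Y) * (X₀ - Y) ∈ A.EA := A.endAlg.mul _ hK _ hK
  by_cases h2 : ∀ c : ℚ, (X₀ - Y) * (X₀ - Y) ≠ c • (1 : Module.End ℚ A.H1)
  · refine ⟨(X₀ - Y) * (X₀ - Y), A.mem_EA.1 hKK, Or.inl ⟨fun u v => ?_, h2⟩⟩
    rw [Module.End.mul_apply, Module.End.mul_apply, hKs, hKs, neg_neg]
  push Not at h2
  obtain ⟨d, hd⟩ := h2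
  refine ⟨X₀ - Y, A.mem_EA.1 hK, Or.inr ⟨fun u v => ?_, d, ?_, hd⟩⟩
  · rw [hKs, neg_add_cancel]
  · rintro rfl
    apply hKne
    obtain ⟨M, hM⟩ := A.hodge_end (A.mem_EA.1 hK)
    refine A.trace_sq hM (fun u v => ?_) ?_
    · rw [hKs, neg_add_cancel]
    · rw [hd, zero_smul, map_zero]

end Pool.Agent.H936.SL
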