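import Pool.Agent.H936.SL.Wt
import Pool.Graph.R_seed8.W516.Cartan

/-!
# The projection to a subspace on which the trace form is nondegenerate
-/

set_option autoImplicit false
set_option linter.unusedSectionVars false
set_option linter.unusedVariables false

open Matrix Module MvPolynomial
open scoped Kronecker

namespace Pool.Agent.H936.SL

open Pool.Agent.Helper880_LF

variable {F : Type} [Field F] {n : ℕ}

/-- the space of matrices -/
abbrev Mn (n : ℕ) (F : Type) [Field F] : Type := Matrix (Fin n) (Fin n) F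

/-- the trace form is nondegenerate on `𝔩` -/
def TN (𝔩 : Submodule F (Mn n F)) : Prop := ∀ X ∈ 𝔩, (∀ Y ∈ 𝔩, Matrix.trace (X * Y) = 0) → X = 0

/-- `P` is the projection to `𝔩` -/
structure IsPr (𝔩 : Submodule F (Mn n F)) (P : Mn n F →ₗ[F] Mn n F) : Prop where
  mem : ∀ X, P X ∈ 𝔩
  tr : ∀ X, ∀ Y ∈ 𝔩, Matrix.trace (P X * Y) = Matrix.trace (X * Y)

theorem exists_proj {𝔩 : Submodule F (Mn n F)} (h : TN 𝔩) : ∃ P, IsPr 𝔩 P := by
  let f : 𝔩 →ₗ[F] Dual F 𝔩 :=
    { toFun := fun X =>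
        { toFun := fun Y => Matrix.trace (X.1 * Y.1)
          map_add' := fun Y Y' => by
            show Matrix.trace (X.1 * (Y.1 + Y'.1)) = _
            rw [Matrix.mul_add, Matrix.trace_add]
          map_smul' := fun c Y => by
            show Matrix.trace (X.1 * (c • Y.1)) = _
            rw [Matrix.mul_smul, Matrix.trace_smul]
            rfl }
      map_add' := fun X X' => by
        ext Y
        show Matrix.trace ((X.1 + X'.1) * Y.1) = _
        rw [Matrix.add_mul, Matrix.trace_add]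
        rfl
      map_smul' := fun c X => by
        ext Y
        show Matrix.trace ((c • X.1) * Y.1) = _
        rw [Matrix.smul_mul, Matrix.trace_smul]
        rfl }
  have hinj : Function.Injective f := by
    rw [injective_iff_map_eq_zero]
    intro X hX
    refine Subtype.ext (h X.1 X.2 fun Y hY => ?_)
    exact LinearMap.congr_fun hX ⟨Y, hY⟩
  let e : 𝔩 ≃ₗ[F] Dual F 𝔩 := LinearEquiv.ofInjectiveOfFinrankEq f hinj (Subspace.dual_finrank_eq).symm
  let φ : Mn n F →ₗ[F] Dual F 𝔩 :=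
    { toFun := fun X =>
        { toFun := fun Y => Matrix.trace (X * Y.1)
          map_add' := fun Y Y' => by
            show Matrix.trace (X * (Y.1 + Y'.1)) = _
            rw [Matrix.mul_add, Matrix.trace_add]
          map_smul' := fun c Y => by
            show Matrix.trace (X * (c • Y.1)) = _
            rw [Matrix.mul_smul, Matrix.trace_smul]
            rfl }
      map_add' := fun X X' => by
        ext Y
        show Matrix.trace ((X + X') * Y.1) = _
        rw [Matrix.add_mul, Matrix.trace_add]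
        rfl
      map_smul' := fun c X => by
        ext Y
        show Matrix.trace ((c • X) * Y.1) = _
        rw [Matrix.smul_mul, Matrix.trace_smul]
        rfl }
  refine ⟨𝔩.subtype ∘ₗ e.symm.toLinearMap ∘ₗ φ, fun X => (e.symm (φ X)).2, fun X Y hY => ?_⟩
  have h1 : f (e.symm (φ X)) = φ X := e.apply_symm_apply (φ X)
  exact LinearMap.congr_fun h1 ⟨Y, hY⟩

section
variable {𝔩 : Submodule F (Mn n F)} {P : Mn n F →ₗ[F] Mn n F} (hTN : TN 𝔩) (hP : IsPr 𝔩 P)
include hTN

theorem TN.eq {A B : Mn n F} (hA : A ∈ 𝔩) (hB : B ∈ 𝔩) (h : ∀ Y ∈ 𝔩, Matrix.trace (A * Y) = Matrix.trace (B * Y)) :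
    A = B := by
  have h1 := hTN (A - B) (𝔩.sub_mem hA hB) fun Y hY => by rw [Matrix.sub_mul, Matrix.trace_sub, h Y hY, sub_self]
  exact sub_eq_zero.1 h1

include hP

theorem IsPr.id {X : Mn n F} (hX : X ∈ 𝔩) : P X = X := hTN.eq (hP.mem X) hX fun Y hY => hP.tr X Y hY

theorem IsPr.idem (X : Mn n F) : P (P X) = P X := hP.id hTN (hP.mem X)

omit hTN in
theorem IsPr.adj (X Y : Mn n F) : Matrix.trace (P X * Y) = Matrix.trace (X * P Y) := by
  have h1 := hP.tr Y (P X) (hP.mem X)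
  have h2 := hP.tr X (P Y) (hP.mem Y)
  rw [← h2, Matrix.trace_mul_comm, ← h1, Matrix.trace_mul_comm]

theorem IsPr.comm {Z : Mn n F} (hZ : ∀ Y ∈ 𝔩, Z * Y - Y * Z ∈ 𝔩) (X : Mn n F) :
    P (Z * X - X * Z) = Z * P X - P X * Z := by
  refine hTN.eq (hP.mem _) (hZ _ (hP.mem X)) fun Y hY => ?_
  rw [hP.tr _ Y hY]
  have h1 := hP.tr X _ (hZ Y hY)
  have h2 : ∀ A : Mn n F, Matrix.trace ((Z * A - A * Z) * Y) = -Matrix.trace (A * (Z * Y - Y * Z)) := by
    intro A
    rw [Matrix.sub_mul, Matrix.mul_sub, Matrix.trace_sub, Matrix.trace_sub, ← Matrix.mul_assoc A Y Z,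
      Matrix.trace_mul_comm (A * Y) Z, ← Matrix.mul_assoc Z A Y, ← Matrix.mul_assoc A Z Y]
    ring
  rw [h2, h2, h1]

end

/-! ### The invariant functions -/

/-- the operator `X ↦ β X β` -/
def th (β : Mn n F) : Mn n F →ₗ[F] Mn n F where
  toFun X := β * X * β
  map_add' X Y := by rw [Matrix.mul_add, Matrix.add_mul]
  map_smul' c X := by rw [Matrix.mul_smul, Matrix.smul_mul, RingHom.id_apply]

theorem th_apply (β X : Mn n F) : th β X = β * X * β := rfl

/-- the matrix of an operator -/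
noncomputable def mt (L : Mn n F →ₗ[F] Mn n F) : Matrix (Fin n × Fin n) (Fin n × Fin n) F :=
  LinearMap.toMatrix (Matrix.stdBasis F (Fin n) (Fin n)) (Matrix.stdBasis F (Fin n) (Fin n)) L

theorem mt_apply (L : Mn n F →ₗ[F] Mn n F) (p q : Fin n × Fin n) : mt L p q = L (Matrix.single q.1 q.2 1) p.1 p.2 := by
  unfold mt
  rw [LinearMap.toMatrix_apply]
  obtain ⟨i, j⟩ := p
  obtain ⟨k, l⟩ := q
  rw [Matrix.stdBasis_eq_single]
  rfl

theorem mt_mul (L L' : Mn n F →ₗ[F] Mn n F) : mt (L ∘ₗ L') = mt L * mt L' := LinearMap.toMatrix_comp _ _ _ _ _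

theorem mt_trace (L : Mn n F →ₗ[F] Mn n F) : Matrix.trace (mt L) = LinearMap.trace F _ L :=
  (LinearMap.trace_eq_matrix_trace F (Matrix.stdBasis F (Fin n) (Fin n)) L).symm

/-- the commutator -/
def adl (Z : Mn n F) : Mn n F →ₗ[F] Mn n F where
  toFun X := Z * X - X * Z
  map_add' X Y := by
    rw [Matrix.mul_add, Matrix.add_mul]
    abel
  map_smul' c X := by rw [Matrix.mul_smul, Matrix.smul_mul, RingHom.id_apply, smul_sub]

theorem mt_th (β : Mn n F) : mt (th β) = β ⊗ₖ βᵀ := by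
  ext ⟨i, j⟩ ⟨k, l⟩
  rw [mt_apply, th_apply, Matrix.kroneckerMap_apply, Matrix.transpose_apply]
  simp only [Matrix.mul_apply, Matrix.single_apply]
  rw [Finset.sum_eq_single l, Finset.sum_eq_single k]
  · simp
  · intro b _ hb
    rw [if_neg (fun h => hb h.1.symm), mul_zero]
  · simp
  · intro b _ hb
    rw [Finset.sum_eq_zero, zero_mul]
    intro c _
    rw [if_neg (fun h => hb h.2.symm), mul_zero]
  · simp

theorem mt_adl (Z : Mn n F) : mt (adl Z) = Z ⊗ₖ (1 : Mn n F) - (1 : Mn n F) ⊗ₖ Zᵀ := by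
  ext ⟨i, j⟩ ⟨k, l⟩
  rw [mt_apply]
  show (Z * Matrix.single k l 1 - Matrix.single k l 1 * Z : Mn n F) i j = _
  rw [Matrix.sub_apply, Matrix.sub_apply, Matrix.kroneckerMap_apply, Matrix.kroneckerMap_apply, Matrix.transpose_apply]
  simp only [Matrix.mul_apply, Matrix.single_apply, Matrix.one_apply]
  congr 1
  · rw [Finset.sum_eq_single k]
    · by_cases h : l = j
      · subst h
        simp
      · rw [if_neg (fun h' => h h'.2), if_neg (fun h' => h h'.symm)]
    · intro b _ hb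
      rw [if_neg (fun h => hb h.1.symm), mul_zero]
    · simp
  · rw [Finset.sum_eq_single l]
    · by_cases h : k = i
      · subst h
        simp
      · rw [if_neg (fun h' => h h'.1), if_neg (fun h' => h h'.symm)]
    · intro b _ hb
      rw [if_neg (fun h => hb h.2.symm), zero_mul]
    · simp

theorem mt_pow (L : Mn n F →ₗ[F] Mn n F) (k : ℕ) : mt (L ^ k) = mt L ^ k := by
  induction k with
  | zero =>
    rw [pow_zero, pow_zero]
    exact LinearMap.toMatrix_one _
  | succ k ih => rw [pow_succ, pow_succ, ← ih, ← mt_mul]; rfl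

/-- the operator `P θ_b` over the ring of polynomial functions -/
noncomputable def Mb (P : Mn n F →ₗ[F] Mn n F) : Matrix (Fin n × Fin n) (Fin n × Fin n) (Pf n F) :=
  (mt P).map C * (bm ⊗ₖ bmᵀ)

/-- the invariant function -/
noncomputable def Ps (P : Mn n F →ₗ[F] Mn n F) (k : ℕ) : Pf n F := Matrix.trace (Mb P ^ k)

theorem ev_Mb (P : Mn n F →ₗ[F] Mn n F) (β : Mn n F) : (Mb P).map (ev β) = mt (P ∘ₗ th β) := by
  have h0 : (Mb P).map (ev β) = ((mt P).map C).map (ev β) * ((bm ⊗ₖ bmᵀ).map (ev β)) :=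
    Matrix.map_mul (f := (ev β : Pf n F →+* F))
  rw [h0, mt_mul, mt_th]
  congr 1
  · ext p q : 1
    exact ev_C β _
  · ext p q : 1
    rw [Matrix.map_apply, Matrix.kroneckerMap_apply, Matrix.kroneckerMap_apply, map_mul]
    congr 1
    · exact ev_X β _ _
    · exact ev_X β _ _

theorem ev_trace {ι : Type} [Fintype ι] [DecidableEq ι] (M : Matrix ι ι (Pf n F)) (k : ℕ) (β : Mn n F) :
    ev β (Matrix.trace (M ^ k)) = Matrix.trace ((M.map (ev β)) ^ k) := by
  have h1 : (M ^ k).map (ev β) = (M.map (ev β)) ^ k :=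
    map_pow ((ev β : Pf n F →+* F).mapMatrix (m := ι)) M k
  rw [← h1]
  exact map_sum (ev β) _ _

theorem ev_Ps (P : Mn n F →ₗ[F] Mn n F) (k : ℕ) (β : Mn n F) :
    ev β (Ps P k) = LinearMap.trace F _ ((P ∘ₗ th β) ^ k) := by
  unfold Ps
  rw [ev_trace, ev_Mb, ← mt_pow, mt_trace]

theorem hom_Ps (P : Mn n F →ₗ[F] Mn n F) (k : ℕ) (β : Mn n F) (r : F) :
    ev (r • β) (Ps P k) = r ^ (2 * k) * ev β (Ps P k) := by
  rw [ev_Ps, ev_Ps]
  have h1 : P ∘ₗ th (r • β) = (r ^ 2) • (P ∘ₗ th β) := by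
    apply LinearMap.ext
    intro X
    show P ((r • β) * X * (r • β)) = r ^ 2 • P (β * X * β)
    rw [Matrix.smul_mul, Matrix.mul_smul, Matrix.smul_mul, smul_smul, ← pow_two, map_smul]
  rw [h1, smul_pow, map_smul, smul_eq_mul, pow_mul]

theorem tr_inv {ι : Type} [Fintype ι] [DecidableEq ι] {M A : Matrix ι ι (Pf n F)} (D : Derivation F (Pf n F) (Pf n F))
    (h : M.map D = A * M - M * A) (k : ℕ) : D (Matrix.trace (M ^ k)) = 0 := by
  have h1 : (M ^ k).map D = A * M ^ k - M ^ k * A := by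
    induction k with
    | zero =>
      rw [pow_zero, Matrix.mul_one, Matrix.one_mul, sub_self]
      ext i j : 1
      rw [Matrix.map_apply, Matrix.one_apply]
      split_ifs
      · exact D.map_one_eq_zero
      · exact map_zero D
    | succ k ih =>
      rw [pow_succ, dmap_mul, ih, h, Matrix.sub_mul, Matrix.mul_sub]
      simp only [Matrix.mul_assoc]
      abel
  have h2 : D (Matrix.trace (M ^ k)) = Matrix.trace ((M ^ k).map D) := map_sum D _ _
  rw [h2, h1, Matrix.trace_sub, Matrix.trace_mul_comm, sub_self]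

theorem kron_der (D : Derivation F (Pf n F) (Pf n F)) (A B : Matrix (Fin n) (Fin n) (Pf n F)) :
    (A ⊗ₖ B).map D = (A.map D) ⊗ₖ B + A ⊗ₖ (B.map D) := by
  ext p q : 1
  rw [Matrix.map_apply, Matrix.kroneckerMap_apply, Derivation.leibniz, Matrix.add_apply, Matrix.kroneckerMap_apply,
    Matrix.kroneckerMap_apply, smul_eq_mul, smul_eq_mul, Matrix.map_apply, Matrix.map_apply, add_comm]
  congr 1
  exact mul_comm _ _

theorem kron_C (A B : Mn n F) : (A ⊗ₖ B).map C = (cst A) ⊗ₖ (cst B) := by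
  ext p q : 1
  exact map_mul C _ _

theorem Ps_inv {𝔩 : Submodule F (Mn n F)} {P : Mn n F →ₗ[F] Mn n F} (hTN : TN 𝔩) (hP : IsPr 𝔩 P) {Z : Mn n F}
    (hZ : ∀ Y ∈ 𝔩, Z * Y - Y * Z ∈ 𝔩) (k : ℕ) : DX Z (Ps P k) = 0 := by
  have hPZ : P ∘ₗ adl Z = adl Z ∘ₗ P := LinearMap.ext fun X => hP.comm hTN hZ X
  have h1 : mt P * mt (adl Z) = mt (adl Z) * mt P := by rw [← mt_mul, ← mt_mul, hPZ]
  have h2 : (mt P).map C * (mt (adl Z)).map C = (mt (adl Z)).map C * (mt P).map (C : F →+* Pf n F) := by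
    rw [← Matrix.map_mul, ← Matrix.map_mul, h1]
  refine tr_inv (DX Z) (A := (mt (adl Z)).map C) ?_ k
  unfold Mb
  have h3 : ((mt P).map (C : F →+* Pf n F)).map (DX Z) = 0 := by
    ext p q : 1
    exact Derivation.map_algebraMap (DX Z) _
  have h4 : (mt (adl Z)).map (C : F →+* Pf n F) = cst Z ⊗ₖ (1 : Matrix (Fin n) (Fin n) (Pf n F)) -
      (1 : Matrix (Fin n) (Fin n) (Pf n F)) ⊗ₖ (cst Z)ᵀ := by
    rw [mt_adl]
    have e1 : cst (1 : Mn n F) = 1 := Matrix.map_one _ (map_zero C) (map_one C)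
    have e2 : cst Zᵀ = (cst Z)ᵀ := rfl
    rw [← e2, ← e1, ← kron_C, ← kron_C]
    ext p q : 1
    exact map_sub C _ _
  have h5 : (bmᵀ : Matrix (Fin n) (Fin n) (Pf n F)).map (DX Z) = (BX Z)ᵀ := by
    rw [Matrix.transpose_map, DX_bm]
  have h6 : (bm ⊗ₖ bmᵀ : Matrix (Fin n × Fin n) (Fin n × Fin n) (Pf n F)).map (DX Z) =
      (mt (adl Z)).map C * (bm ⊗ₖ bmᵀ) - (bm ⊗ₖ bmᵀ) * (mt (adl Z)).map C := by
    rw [kron_der, DX_bm, h5, h4, Matrix.sub_mul, Matrix.mul_sub, ← Matrix.mul_kronecker_mul, ← Matrix.mul_kronecker_mul,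
      ← Matrix.mul_kronecker_mul, ← Matrix.mul_kronecker_mul, Matrix.one_mul, Matrix.mul_one, Matrix.one_mul,
      Matrix.mul_one, ← Matrix.transpose_mul, ← Matrix.transpose_mul]
    unfold BX
    ext p q : 1
    simp only [Matrix.add_apply, Matrix.sub_apply, Matrix.kroneckerMap_apply, Matrix.transpose_apply]
    ring
  rw [dmap_mul, h3, Matrix.zero_mul, zero_add, h6, Matrix.mul_sub, ← Matrix.mul_assoc, h2]
  simp only [Matrix.mul_assoc]

end Pool.Agent.H936.SL
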