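import Pool.Agent.H936.SL.Lev

/-!
# The Lie algebra of a subtorsor through the periods of abelian varieties
-/

set_option autoImplicit false
set_option linter.unusedSectionVars false
set_option linter.unusedVariables false

open Matrix Module

namespace Pool.Agent.H936.SL

open Pool.Agent.Helper880_LF (spS mem_spS comm_mem)
open Pool.Agent.Helper880_R3 (Ix Tot)
open Pool.Agent.Y102 (AbVar QBar tau toC toC_eq)
open Pool.Agent.Y119.HY (cm cm_apply cm_mul cm_one cm_transpose)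
open Pool.Agent.W516.DR (X0 XX cmpE X0_mem IsDeRhamBettiEnd IsDeRhamBettiSubspace sub_of_stable)
open Pool.Agent.W516.KC (Semi IsSkew central_of_trace)
open Pool.Agent.R917 (PM QQ lamF lamF_apply exists_inv toC_cmpE X0_eq derQ)
open Pool.Agent.Y123.ST (fl um LL LL_def logder_mem fl_um um_fl)
open Pool.Agent.TH127.PT (IsSubtorsor)
open Pool.Agent.TH119.DR (DefOver deriv_alg)

variable {g n N r₀ : ℕ} {K : Subfield ℂ}

/-! ### linear maps of the complex numbers -/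

/-- the Lie algebra of a rational group is stable under linear maps of `ℂ` over `ℚ` -/
theorem Lm_map {B : Type} [Fintype B] [DecidableEq B] {T : Set (Matrix B B ℂ)} (hT : IsSubtorsor K T) (hr : RatGrp T)
    (f : ℂ →ₗ[QQ] ℂ) {w : Matrix B B ℂ} (hw : w ∈ Lm T) : w.map f ∈ Lm T := by
  have h1 : DefOver QQ (LL T) := Pool.Agent.TH119.MX.defOver_of_aut (LL T) fun σ _ w hw => LL_rat hT hr σ w hw
  exact h1.map f hw

theorem f_cast (f : ℂ →ₗ[QQ] ℂ) (q : ℚ) (x : ℂ) : f ((q : ℂ) * x) = (q : ℂ) * f x :=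
  Pool.Agent.TH119.DR.lin_mul f ⟨q, rfl⟩ x

theorem cm_map_mul (f : ℂ →ₗ[QQ] ℂ) (R : Matrix (Fin n) (Fin n) ℚ) (Y : Matrix (Fin n) (Fin n) ℂ) :
    (cm R * Y).map f = cm R * Y.map f := by
  ext i j
  rw [Matrix.map_apply, Matrix.mul_apply, Matrix.mul_apply, map_sum]
  refine Finset.sum_congr rfl fun k _ => ?_
  rw [cm_apply, f_cast, Matrix.map_apply]

theorem map_mul_cm (f : ℂ →ₗ[QQ] ℂ) (R : Matrix (Fin n) (Fin n) ℚ) (Y : Matrix (Fin n) (Fin n) ℂ) :
    (Y * cm R).map f = Y.map f * cm R := by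
  ext i j
  rw [Matrix.map_apply, Matrix.mul_apply, Matrix.mul_apply, map_sum]
  refine Finset.sum_congr rfl fun k _ => ?_
  rw [cm_apply, mul_comm, f_cast, Matrix.map_apply, mul_comm]

theorem map_addf (f : ℂ →ₗ[QQ] ℂ) (X Y : Matrix (Fin n) (Fin n) ℂ) : (X + Y).map f = X.map f + Y.map f := by
  ext i j
  simp

theorem map_smul_one (f : ℂ →ₗ[QQ] ℂ) (c : ℂ) : (c • (1 : Matrix (Fin n) (Fin n) ℂ)).map f = f c • 1 := by
  ext i j
  rw [Matrix.map_apply, Matrix.smul_apply, Matrix.smul_apply, Matrix.one_apply]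
  split_ifs with h
  · rw [smul_eq_mul, mul_one, smul_eq_mul, mul_one]
  · rw [smul_eq_mul, mul_zero, map_zero, smul_eq_mul, mul_zero]

theorem spS_map (f : ℂ →ₗ[QQ] ℂ) {J : Matrix (Fin n) (Fin n) ℚ} {X : Matrix (Fin n) (Fin n) ℂ} (hX : X ∈ spS (cm J)) :
    X.map f ∈ spS (cm J) := by
  rw [mem_spS] at hX ⊢
  rw [← transpose_map, ← map_mul_cm, ← cm_map_mul, ← map_addf, hX]
  ext i j
  exact map_zero f

theorem GS_map (f : ℂ →ₗ[QQ] ℂ) {J : Matrix (Fin n) (Fin n) ℚ} {X : Matrix (Fin n) (Fin n) ℂ} (hX : GS (cm J) X) :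
    GS (cm J) (X.map f) := by
  obtain ⟨c, hc⟩ := hX
  refine ⟨f c, ?_⟩
  have h := spS_map f hc
  rwa [map_addf, map_smul_one] at h

theorem Tot_map (f : ℂ → ℂ) (hf : f 0 = 0) (e : Matrix (Fin r₀) (Fin r₀) ℂ) (y : Fin N → Matrix (Fin n) (Fin n) ℂ) :
    (Tot e y).map f = Tot (e.map f) fun j => (y j).map f := by
  unfold Pool.Agent.Helper880_R3.Tot
  rw [fromBlocks_map, blockDiagonal_map _ _ hf]
  congr 1
  · ext a b
    exact hf
  · ext a b
    exact hf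

theorem Pj_map {S : Set (Matrix (Ix r₀ n N) (Ix r₀ n N) ℂ)} (hS : IsSubtorsor K S) (hr : RatGrp S) (f : ℂ →ₗ[QQ] ℂ)
    {J : Matrix (Fin n) (Fin n) ℚ} {j : Fin N} {X : Matrix (Fin n) (Fin n) ℂ} (hX : X ∈ Pj (cm J) (Lm S) j) :
    X.map f ∈ Pj (cm J) (Lm S) j := by
  obtain ⟨h0, e, y, c, h1, h2, h3⟩ := hX
  refine ⟨spS_map f h0, e.map f, fun i => (y i).map f, f c, ?_, fun i => GS_map f (h2 i), ?_⟩
  · rw [← Tot_map _ (map_zero f)]
    exact Lm_map hS hr f h1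
  · show (y j).map f = _
    rw [h3, map_addf, map_smul_one]

/-! ### the level -/

/-- the data of a level -/
structure Lev (K : Subfield ℂ) (A : Fin N → AbVar g) (H : Matrix (Fin (2 * g)) (Fin (2 * g)) ℚ)
    (C₀ : Matrix (Fin r₀) (Fin r₀) ℂ) (P : Fin N → Matrix (Fin (2 * g)) (Fin (2 * g)) ℂ)
    (R : Fin N → Matrix (Fin (2 * g)) (Fin (2 * g)) ℚ)
    (S : Set (Matrix (Ix r₀ (2 * g) N) (Ix r₀ (2 * g) N) ℂ)) : Prop where
  alg : ∀ x ∈ K, IsAlgebraic ℚ x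
  tor : IsSubtorsor K S
  rat : RatGrp S
  mem : Tot C₀ P ∈ S
  pres : ∀ j, Pres (A j) H (P j) (R j)
  det : IsUnit H.det

/-- the derivation over a field of algebraic numbers -/
noncomputable def dK (D : Derivation QBar ℂ ℂ) (K : Subfield ℂ) (hK : ∀ x ∈ K, IsAlgebraic ℚ x) : Derivation K ℂ ℂ :=
  Derivation.mk' (Pool.Agent.TH119.DR.derK (derQ D) K hK) fun a b => (derQ D).leibniz a b

theorem dK_apply (D : Derivation QBar ℂ ℂ) (K : Subfield ℂ) (hK : ∀ x ∈ K, IsAlgebraic ℚ x) (x : ℂ) :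
    dK D K hK x = D x := rfl

theorem D_alg (D : Derivation QBar ℂ ℂ) {x : ℂ} (hx : IsAlgebraic ℚ x) : D x = 0 := deriv_alg (derQ D) hx

theorem D_mul_alg (D : Derivation QBar ℂ ℂ) {t : ℂ} (ht : IsAlgebraic ℚ t) (x : ℂ) : D (x * t) = D x * t := by
  rw [Derivation.leibniz, D_alg D ht, smul_zero, zero_add, smul_eq_mul, mul_comm]

theorem mulT_map (D : Derivation QBar ℂ ℂ) {T : Matrix (Fin n) (Fin n) ℂ} (hT : ∀ i j, IsAlgebraic ℚ (T i j))
    (Y : Matrix (Fin n) (Fin n) ℂ) : (Y * T).map D = Y.map D * T := by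
  ext i j
  rw [Matrix.map_apply, Matrix.mul_apply, Matrix.mul_apply, map_sum]
  refine Finset.sum_congr rfl fun k _ => ?_
  rw [D_mul_alg D (hT k j), Matrix.map_apply]

theorem Tmul_map (D : Derivation QBar ℂ ℂ) {T : Matrix (Fin n) (Fin n) ℂ} (hT : ∀ i j, IsAlgebraic ℚ (T i j))
    (Y : Matrix (Fin n) (Fin n) ℂ) : (T * Y).map D = T * Y.map D := by
  ext i j
  rw [Matrix.map_apply, Matrix.mul_apply, Matrix.mul_apply, map_sum]
  refine Finset.sum_congr rfl fun k _ => ?_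
  rw [mul_comm, D_mul_alg D (hT i k), Matrix.map_apply, mul_comm]

theorem cm_alg (R : Matrix (Fin n) (Fin n) ℚ) (i j : Fin n) : IsAlgebraic ℚ (cm R i j) := by
  rw [cm_apply]
  exact isAlgebraic_algebraMap (A := ℂ) (R i j)

theorem cm_mul_inv {R : Matrix (Fin n) (Fin n) ℚ} (hR : IsUnit R.det) : cm R * (cm R)⁻¹ = 1 := by
  rw [cm_inv hR, ← cm_mul, Matrix.mul_nonsing_inv _ hR, cm_one]

theorem cm_inv_mul {R : Matrix (Fin n) (Fin n) ℚ} (hR : IsUnit R.det) : (cm R)⁻¹ * cm R = 1 := by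
  rw [cm_inv hR, ← cm_mul, Matrix.nonsing_inv_mul _ hR, cm_one]

/-- the logarithmic derivative of a period matrix -/
theorem Pres.der {A : AbVar g} {H R : Matrix (Fin (2 * g)) (Fin (2 * g)) ℚ} {P : Matrix (Fin (2 * g)) (Fin (2 * g)) ℂ}
    (h : Pres A H P R) (D : Derivation QBar ℂ ℂ) {P' : Matrix (Fin (2 * g)) (Fin (2 * g)) ℂ} (h1 : PM A * P' = 1) :
    P.map D * P⁻¹ = cm R * ((PM A).map D * P') * (cm R)⁻¹ := by
  obtain ⟨T, T', q, hR, hT, hTa, hq, hP, hE⟩ := h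
  have h2 : P⁻¹ = T' * P' * (cm R)⁻¹ := by
    refine Matrix.inv_eq_right_inv ?_
    rw [hP]
    calc cm R * PM A * T * (T' * P' * (cm R)⁻¹) = cm R * (PM A * (T * T') * P') * (cm R)⁻¹ := by
          simp only [Matrix.mul_assoc]
      _ = 1 := by rw [hT, Matrix.mul_one, h1, Matrix.mul_one, cm_mul_inv hR]
  have h3 : P.map D = cm R * (PM A).map D * T := by
    rw [hP, mulT_map D hTa, Tmul_map D (cm_alg R)]
  rw [h2, h3]
  calc cm R * (PM A).map D * T * (T' * P' * (cm R)⁻¹) = cm R * ((PM A).map D * (T * T') * P') * (cm R)⁻¹ := by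
        simp only [Matrix.mul_assoc]
    _ = _ := by rw [hT, Matrix.mul_one]

theorem Tot_inv {x : Matrix (Fin r₀) (Fin r₀) ℂ} {X : Fin N → Matrix (Fin n) (Fin n) ℂ} (h : IsUnit (Tot x X)) :
    (Tot x X)⁻¹ = Tot x⁻¹ fun j => (X j)⁻¹ := by
  obtain ⟨h1, h2⟩ := Pool.Agent.Helper880_R3.Tot_unit h
  refine Matrix.inv_eq_right_inv ?_
  rw [Tot_mul', Matrix.mul_nonsing_inv _ ((Matrix.isUnit_iff_isUnit_det _).1 h1)]
  have h3 : (fun j => X j * (X j)⁻¹) = fun _ => 1 :=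
    funext fun j => Matrix.mul_nonsing_inv _ ((Matrix.isUnit_iff_isUnit_det _).1 (h2 j))
  rw [h3, Tot_one']

section lev
variable {A : Fin N → AbVar g} {H : Matrix (Fin (2 * g)) (Fin (2 * g)) ℚ}
    {C₀ : Matrix (Fin r₀) (Fin r₀) ℂ} {P : Fin N → Matrix (Fin (2 * g)) (Fin (2 * g)) ℂ}
    {R : Fin N → Matrix (Fin (2 * g)) (Fin (2 * g)) ℚ}
    {S : Set (Matrix (Ix r₀ (2 * g) N) (Ix r₀ (2 * g) N) ℂ)}

/-- the components of the logarithmic derivatives -/
theorem Lev.cmp_mem (h : Lev K A H C₀ P R S) (D : Derivation QBar ℂ ℂ) (lam : ℂ →ₗ[ℚ] ℚ) :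
    ∃ e, Tot e (fun j => bt (R j) (cmpE lam (XX (A j).basis D))) ∈ Lm S := by
  have h1 : (Tot C₀ P).map (dK D K h.alg) * (Tot C₀ P)⁻¹ ∈ Lm S := logder_mem h.tor (dK D K h.alg) h.mem
  have hu := h.tor.isUnit _ h.mem
  rw [Tot_inv hu, Tot_map _ (map_zero (dK D K h.alg)), Tot_mul'] at h1
  have h2 := Lm_map h.tor h.rat (lamF lam) h1
  rw [Tot_map _ (map_zero (lamF lam))] at h2
  have h3 : (fun j => ((P j).map (dK D K h.alg) * (P j)⁻¹).map (lamF lam)) =
      fun j => bt (R j) (cmpE lam (XX (A j).basis D)) := by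
    funext j
    obtain ⟨P', e1, e2⟩ := exists_inv (A j)
    have e3 : (P j).map (dK D K h.alg) * (P j)⁻¹ = cm (R j) * ((PM (A j)).map D * P') * (cm (R j))⁻¹ :=
      (h.pres j).der D e1
    have hR : IsUnit (R j).det := by
      obtain ⟨T, T', q, hR, -⟩ := h.pres j
      exact hR
    rw [e3, cm_inv hR, map_mul_cm, cm_map_mul, ← toC_cmpE (A j) D e2 lam, bt_eq hR, cm_inv hR]
  rw [h3] at h2
  exact ⟨_, h2⟩

theorem Lev.R_unit (h : Lev K A H C₀ P R S) (j : Fin N) : IsUnit (R j).det := by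
  obtain ⟨T, T', q, hR, -⟩ := h.pres j
  exact hR

theorem X0_skew (A : AbVar g) (D : Derivation QBar ℂ ℂ) (lam : ℂ →ₗ[ℚ] ℚ) : IsSkew A.om (X0 A.basis tau D lam) :=
  A.LA_skew (by
    rw [AbVar.LA_eq]
    exact X0_mem A.basis AbVar.tau_ne D lam)

theorem Lev.X0_Pj (h : Lev K A H C₀ P R S) (D : Derivation QBar ℂ ℂ) (lam : ℂ →ₗ[ℚ] ℚ) (j : Fin N) :
    bt (R j) (X0 (A j).basis tau D lam) ∈ Pj (cm H⁻¹) (Lm S) j := by
  obtain ⟨e, he⟩ := h.cmp_mem D lam
  have h1 : ∀ i, bt (R i) (cmpE lam (XX (A i).basis D)) = bt (R i) (X0 (A i).basis tau D lam) +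
      ((lam (D tau / (2 * tau)) : ℚ) : ℂ) • (1 : Matrix (Fin (2 * g)) (Fin (2 * g)) ℂ) := by
    intro i
    rw [← X0_eq, bt_add, bt_smul, bt_one (h.R_unit i)]
  have h2 : ∀ i, bt (R i) (X0 (A i).basis tau D lam) ∈ spS (cm H⁻¹) := fun i =>
    (skew_bt h.det (h.pres i) _).1 (X0_skew (A i) D lam)
  refine ⟨h2 j, e, _, _, he, fun i => ?_, h1 j⟩
  refine ⟨-((lam (D tau / (2 * tau)) : ℚ) : ℂ), ?_⟩
  rw [h1, add_assoc, ← add_smul, add_neg_cancel, zero_smul, add_zero]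
  exact h2 i

/-- the rational Lie algebra -/
def hj (A : AbVar g) (R H : Matrix (Fin (2 * g)) (Fin (2 * g)) ℚ)
    (S : Set (Matrix (Ix r₀ (2 * g) N) (Ix r₀ (2 * g) N) ℂ)) (j : Fin N) : Submodule ℚ (Module.End ℚ A.H1) where
  carrier := {X | bt R X ∈ Pj (cm H⁻¹) (Lm S) j}
  zero_mem' := by
    show bt R 0 ∈ Pj (cm H⁻¹) (Lm S) j
    rw [bt_zero]
    exact Submodule.zero_mem _
  add_mem' := by
    intro a b ha hb
    show bt R (a + b) ∈ Pj (cm H⁻¹) (Lm S) j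
    rw [bt_add]
    exact Submodule.add_mem _ ha hb
  smul_mem' := by
    intro c a ha
    show bt R (c • a) ∈ Pj (cm H⁻¹) (Lm S) j
    rw [bt_smul]
    exact Submodule.smul_mem _ _ ha

theorem cm_skew {H : Matrix (Fin (2 * g)) (Fin (2 * g)) ℚ} (hH : Hᵀ = -H) : (cm H⁻¹)ᵀ = -cm H⁻¹ := by
  rw [← cm_transpose, Matrix.transpose_nonsing_inv, hH, ← Pool.Agent.Y119.HY.cm_neg]
  congr 1
  by_cases h : IsUnit H.det
  · refine Matrix.inv_eq_left_inv ?_
    rw [neg_mul_neg, Matrix.nonsing_inv_mul _ h]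
  · have h' : ¬ IsUnit (-H).det := by
      rw [Matrix.det_neg]
      intro h2
      exact h (isUnit_of_mul_isUnit_right h2)
    rw [Matrix.nonsing_inv_apply_not_isUnit _ h, Matrix.nonsing_inv_apply_not_isUnit _ h', neg_zero]

theorem hj_br (h : Lev K A H C₀ P R S) (hH : Hᵀ = -H) (j : Fin N) :
    ∀ X ∈ hj (A j) (R j) H S j, ∀ Y ∈ hj (A j) (R j) H S j, X * Y - Y * X ∈ hj (A j) (R j) H S j := by
  intro X hX Y hY
  show bt (R j) (X * Y - Y * X) ∈ Pj (cm H⁻¹) (Lm S) j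
  rw [bt_sub, bt_mul (h.R_unit j), bt_mul (h.R_unit j)]
  exact Pj_br (cm_skew hH) (fun x hx y hy => LL_br h.tor ⟨_, h.mem⟩ hx hy) _ hY _ hX

theorem hj_semi (h : Lev K A H C₀ P R S) (j : Fin N) : Semi (hj (A j) (R j) H S j) := by
  intro U hU
  have h1 : IsDeRhamBettiSubspace QBar (A j).dR U := by
    rw [← (A j).coe_basis]
    exact sub_of_stable (A j).basis (τ := tau) U fun D lam u hu => hU _ (h.X0_Pj D lam j) u hu
  refine ⟨_, fun X hX u hu => ?_, (A j).isCompl_of_sub h1⟩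
  intro v hv
  have hs : IsSkew (A j).om X := (skew_bt h.det (h.pres j) X).2 (Pj_le hX)
  have h2 := hs v u
  have h3 : (A j).om (X v) u = 0 := hu _ (hU X hX v hv)
  rw [h3, zero_add] at h2
  exact h2

/-- **the trace form of the rational Lie algebra** -/
theorem hj_trace (h : Lev K A H C₀ P R S) (hH : Hᵀ = -H) (j : Fin N) {X : Module.End ℚ (A j).H1}
    (hX : X ∈ hj (A j) (R j) H S j) (htr : ∀ Y ∈ hj (A j) (R j) H S j, LinearMap.trace ℚ (A j).H1 (X * Y) = 0) :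
    X = 0 := by
  have h1 := central_of_trace _ (hj_semi h j) (hj_br h hH j) hX htr
  have h2 : IsDeRhamBettiEnd QBar (A j).dR X :=
    (A j).end_of_central (𝔥 := hj (A j) (R j) H S j) (fun D lam => h.X0_Pj D lam j) h1
  obtain ⟨M, hM⟩ := (A j).hodge_end h2
  exact (A j).trace_sq hM ((skew_bt h.det (h.pres j) X).2 (Pj_le hX)) (htr X hX)

/-- **the trace form of the projection** -/
theorem Lev.TN (h : Lev K A H C₀ P R S) (hH : Hᵀ = -H) (j : Fin N) : TN (Pj (cm H⁻¹) (Lm S) j) := by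
  intro X hX htr
  have hR := h.R_unit j
  ext a b
  by_contra hne
  obtain ⟨lam, hlam⟩ : ∃ lam : ℂ →ₗ[ℚ] ℚ, lam (X a b) ≠ 0 := by
    by_contra hcon
    push Not at hcon
    exact hne (Pool.Agent.W516.DR.eq_zero_of_dual hcon)
  have h1 := Pj_map h.tor h.rat (lamF lam) hX
  obtain ⟨X', hX'⟩ := bt_surj hR (X.map lam)
  have h2 : bt (R j) X' = X.map (lamF lam) := by
    rw [hX']
    ext i k
    rfl
  have h3 : X' ∈ hj (A j) (R j) H S j := by
    show bt (R j) X' ∈ Pj (cm H⁻¹) (Lm S) j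
    rw [h2]
    exact h1
  have h4 : X' = 0 := by
    refine hj_trace h hH j h3 fun Y hY => ?_
    have h5 := htr _ hY
    have h6 : Matrix.trace (bt (R j) X' * bt (R j) Y) = lamF lam (Matrix.trace (X * bt (R j) Y)) := by
      unfold bt at h2 ⊢
      rw [h2, ← map_mul_cm]
      unfold Matrix.trace
      rw [map_sum]
      rfl
    rw [h5, map_zero, ← bt_mul hR, bt_trace hR] at h6
    rw [LinearMap.trace_mul_comm]
    exact_mod_cast h6
  rw [h4, bt_zero] at h2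
  have h5 := congrFun (congrFun h2 a) b
  rw [Matrix.map_apply, lamF_apply, Matrix.zero_apply] at h5
  exact hlam (by exact_mod_cast h5.symm)

/-- **the projection is not zero** -/
theorem Lev.ne (h : Lev K A H C₀ P R S) (hg : 0 < g) (j : Fin N) : Pj (cm H⁻¹) (Lm S) j ≠ ⊥ := by
  intro hbot
  have h0 : ∀ (D : Derivation QBar ℂ ℂ) (lam : ℂ →ₗ[ℚ] ℚ), X0 (A j).basis tau D lam ∈
      (⊥ : Submodule ℚ (Module.End ℚ (A j).H1)) := by
    intro D lam
    have h1 := h.X0_Pj D lam j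
    rw [hbot, Submodule.mem_bot] at h1
    rw [Submodule.mem_bot]
    exact bt_inj (h.R_unit j) h1
  have h1 : ∀ Q : Module.End ℚ (A j).H1, IsDeRhamBettiEnd QBar (A j).dR Q := by
    intro Q
    refine (A j).end_of_central h0 fun Y hY => ?_
    rw [Submodule.mem_bot] at hY
    rw [hY, zero_mul, mul_zero]
  set u : (A j).H1 := Pi.single ⟨0, by omega⟩ 1 with hu
  have hu0 : u ≠ 0 := by
    intro h2
    have h3 := congrFun h2 ⟨0, by omega⟩
    rw [hu, Pi.single_eq_same] at h3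
    exact one_ne_zero h3
  set Q : Module.End ℚ (A j).H1 := ((A j).om u).smulRight u with hQ
  have hQa : ∀ v, Q v = (A j).om u v • u := fun v => rfl
  have huu : (A j).om u u = 0 := by
    have := (A j).om_anti u u
    linarith
  have hsk : IsSkew (A j).om Q := by
    intro v w
    rw [hQa, hQa, map_smul, map_smul, LinearMap.smul_apply, smul_eq_mul, smul_eq_mul, (A j).om_anti v u]
    ring
  have hsq : Q * Q = 0 := by
    refine LinearMap.ext fun v => ?_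
    rw [Module.End.mul_apply, hQa (Q v), hQa v, map_smul, huu, smul_zero, zero_smul]
    rfl
  obtain ⟨M, hM⟩ := (A j).hodge_end (h1 Q)
  have hQ0 := (A j).trace_sq hM hsk (by rw [hsq, map_zero])
  apply hu0
  apply (A j).om_nondeg
  intro v
  have h2 := hQa v
  rw [hQ0, LinearMap.zero_apply] at h2
  exact (smul_eq_zero.1 h2.symm).resolve_right hu0

end lev

end Pool.Agent.H936.SL
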