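import Mathlib

/-!
# Few bilinear equations have a common zero
-/

set_option autoImplicit false
set_option linter.unusedSectionVars false
set_option linter.unusedVariables false

open MvPolynomial

namespace Pool.Agent.H936.SL

variable {F : Type} [Field F] [IsAlgClosed F]

/-- a common zero in an extension field gives a common zero -/
theorem descend {n : ℕ} {ι : Type} {κ : Type} [Field κ] [Algebra F κ] (B : ι → Fin n → Fin n → F)
    (p q : Fin n) (a b : Fin n → κ) (ha : a p = 1) (hb : b q = 1)
    (h : ∀ l, ∑ i, ∑ j, algebraMap F κ (B l i j) * (a i * b j) = 0) :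
    ∃ u v : Fin n → F, u ≠ 0 ∧ v ≠ 0 ∧ ∀ l, ∑ i, ∑ j, B l i j * (u i * v j) = 0 := by
  classical
  let P : ι → MvPolynomial (Fin n ⊕ Fin n) F := fun l =>
    ∑ i, ∑ j, C (B l i j) * (X (Sum.inl i) * X (Sum.inr j))
  let S : Set (MvPolynomial (Fin n ⊕ Fin n) F) :=
    Set.range P ∪ {X (Sum.inl p) - 1, X (Sum.inr q) - 1}
  let I : Ideal (MvPolynomial (Fin n ⊕ Fin n) F) := Ideal.span S
  have hI : I ≠ ⊤ := by
    intro htop
    let φ : MvPolynomial (Fin n ⊕ Fin n) F →ₐ[F] κ := aeval (Sum.elim a b)
    have hle : I ≤ RingHom.ker (φ : MvPolynomial (Fin n ⊕ Fin n) F →+* κ) := by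
      refine Ideal.span_le.2 ?_
      rintro f (⟨l, rfl⟩ | rfl | rfl)
      · show φ _ = 0
        simp only [P, φ, map_sum, map_mul, aeval_X, Sum.elim_inl, Sum.elim_inr]
        rw [← h l]
        refine Finset.sum_congr rfl fun i _ => Finset.sum_congr rfl fun j _ => ?_
        congr 1
        exact aeval_C _ _
      · show φ _ = 0
        simp [φ, ha]
      · show φ _ = 0
        simp [φ, hb]
    have h1 : (1 : MvPolynomial (Fin n ⊕ Fin n) F) ∈ I := by rw [htop]; exact Submodule.mem_top
    have h2 : φ 1 = 0 := hle h1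
    rw [map_one] at h2
    exact one_ne_zero h2
  have hz : ∃ w : Fin n ⊕ Fin n → F, ∀ f ∈ I, eval w f = 0 := by
    by_contra hcon
    push Not at hcon
    have h1 : (zeroLocus F I : Set (Fin n ⊕ Fin n → F)) = ∅ := by
      rw [Set.eq_empty_iff_forall_notMem]
      intro w hw
      obtain ⟨f, hf, hne⟩ := hcon w
      have h2 := hw f hf
      rw [aeval_eq_eval] at h2
      exact hne h2
    have h2 : I.radical = ⊤ := by
      rw [← vanishingIdeal_zeroLocus_eq_radical (K := F), h1]
      rw [Ideal.eq_top_iff_one, mem_vanishingIdeal_iff]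
      intro x hx
      exact absurd hx (Set.notMem_empty x)
    exact hI (Ideal.radical_eq_top.1 h2)
  obtain ⟨w, hw⟩ := hz
  refine ⟨fun i => w (Sum.inl i), fun j => w (Sum.inr j), ?_, ?_, fun l => ?_⟩
  · intro h0
    have h1 := hw (X (Sum.inl p) - 1) (Ideal.subset_span (Or.inr (Or.inl rfl)))
    rw [map_sub, eval_X, map_one] at h1
    have h2 : w (Sum.inl p) = 0 := congrFun h0 p
    rw [h2, zero_sub, neg_eq_zero] at h1
    exact one_ne_zero h1
  · intro h0
    have h1 := hw (X (Sum.inr q) - 1) (Ideal.subset_span (Or.inr (Or.inr rfl)))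
    rw [map_sub, eval_X, map_one] at h1
    have h2 : w (Sum.inr q) = 0 := congrFun h0 q
    rw [h2, zero_sub, neg_eq_zero] at h1
    exact one_ne_zero h1
  · have h1 := hw (P l) (Ideal.subset_span (Or.inl ⟨l, rfl⟩))
    simp only [P, map_sum, map_mul, eval_X, eval_C] at h1
    exact h1

/-- **Fewer than `2 n - 1` bilinear equations in `n + n` variables have a common zero `(u, v)`
with `u ≠ 0` and `v ≠ 0`.** -/
theorem exists_bilinear_zero {n : ℕ} (hn : 0 < n) {ι : Type} [Fintype ι] (B : ι → Fin n → Fin n → F)
    (hc : Fintype.card ι + 2 ≤ 2 * n) :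
    ∃ u v : Fin n → F, u ≠ 0 ∧ v ≠ 0 ∧ ∀ l, ∑ i, ∑ j, B l i j * (u i * v j) = 0 := by
  classical
  obtain ⟨m, rfl⟩ : ∃ m, n = m + 1 := ⟨n - 1, by omega⟩
  let A := MvPolynomial (Option (Fin m ⊕ Fin m)) F
  let L := FractionRing A
  let x : Option (Fin m ⊕ Fin m) → L := fun o => algebraMap A L (X o)
  have hinj : Function.Injective (algebraMap A L) := IsFractionRing.injective A L
  have hx : AlgebraicIndependent F x := by
    have h1 : AlgebraicIndependent F (X : Option (Fin m ⊕ Fin m) → A) := algebraicIndependent_X _ _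
    have h2 := h1.map' (f := IsScalarTower.toAlgHom F A L) hinj
    exact h2
  have hx0 : ∀ o, x o ≠ 0 := fun o => hx.ne_zero o
  let a : Fin (m + 1) → L := Fin.cons 1 fun i => x (some (Sum.inl i))
  let b : Fin (m + 1) → L := fun j => x none * (Fin.cons 1 (fun i => x (some (Sum.inr i))) : Fin (m + 1) → L) j
  let β : ι → L := fun l => ∑ i, ∑ j, algebraMap F L (B l i j) * (a i * b j)
  -- some product is not integral
  set s : Set L := Set.range (algebraMap F L) ∪ Set.range β with hs
  have key : ∃ (V : ValuationSubring L) (i j : Fin (m + 1)), s ⊆ V.toSubring ∧ a i * b j ∉ V := by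
    by_contra hcon
    push Not at hcon
    have hal : ∀ i j, IsAlgebraic (Algebra.adjoin F (Set.range β)) (a i * b j) := by
      intro i j
      have h1 : a i * b j ∈ (⨅ V : {V : ValuationSubring L // s ⊆ V.toSubring}, V.1.toSubring) := by
        rw [Subring.mem_iInf]
        intro V
        exact hcon V.1 i j V.2
      rw [iInf_valuationSubring_superset] at h1
      have h2 : IsIntegral (Subring.closure s) (a i * b j) := h1
      have h3 : (Algebra.adjoin F (Set.range β)).toSubring = Subring.closure s :=
        Algebra.adjoin_eq_ring_closure (Set.range β)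
      rw [← h3] at h2
      have h4 : IsIntegral (Algebra.adjoin F (Set.range β)) (a i * b j) := h2
      exact h4.isAlgebraic
    have h0 : IsAlgebraic (Algebra.adjoin F (Set.range β)) (x none) := by
      have := hal 0 0
      simpa [a, b] using this
    have h0' : IsAlgebraic (Algebra.adjoin F (Set.range β)) (x none)⁻¹ := h0.inv
    have h1 : ∀ o, IsAlgebraic (Algebra.adjoin F (Set.range β)) (x o) := by
      rintro (_ | i | i)
      · exact h0
      · have h2 := (hal i.succ 0).mul h0'
        have h3 : a i.succ * b 0 * (x none)⁻¹ = x (some (Sum.inl i)) := by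
          simp only [a, b, Fin.cons_succ, Fin.cons_zero, mul_one]
          rw [mul_assoc, mul_inv_cancel₀ (hx0 none), mul_one]
        rwa [h3] at h2
      · have h2 := (hal 0 i.succ).mul h0'
        have h3 : a 0 * b i.succ * (x none)⁻¹ = x (some (Sum.inr i)) := by
          simp only [a, b, Fin.cons_succ, Fin.cons_zero, one_mul]
          rw [mul_comm (x none), mul_assoc, mul_inv_cancel₀ (hx0 none), mul_one]
        rwa [h3] at h2
    have h2 : ∀ y : L, IsAlgebraic (Algebra.adjoin F (Set.range β)) y := by
      intro y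
      obtain ⟨p, q, hq, rfl⟩ := IsFractionRing.div_surjective (A := A) y
      have hp : ∀ p : A, IsAlgebraic (Algebra.adjoin F (Set.range β)) (algebraMap A L p) := by
        intro p
        induction p using MvPolynomial.induction_on with
        | C c =>
          have h3 : algebraMap A L (C c) = algebraMap (Algebra.adjoin F (Set.range β)) L (algebraMap F _ c) := by
            rw [← IsScalarTower.algebraMap_apply F (Algebra.adjoin F (Set.range β)) L,
              IsScalarTower.algebraMap_apply F A L]
            rfl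
          rw [h3]
          exact isAlgebraic_algebraMap _
        | add p q hp hq => rw [map_add]; exact hp.add hq
        | mul_X p o hp => rw [map_mul]; exact hp.mul (h1 o)
      rw [div_eq_mul_inv]
      exact (hp p).mul (hp q).inv
    have h3 : Algebra.IsAlgebraic (Algebra.adjoin F (Set.range β)) L := ⟨h2⟩
    have h4 := Algebra.IsAlgebraic.trdeg_le_cardinalMk F (A := L) (Set.range β)
    have h5 := hx.cardinalMk_le_trdeg
    have h6 : Cardinal.mk (Set.range β) ≤ Fintype.card ι := by
      exact (Cardinal.mk_range_le (f := β)).trans (by rw [Cardinal.mk_fintype])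
    have h7 := (h5.trans h4).trans h6
    rw [Cardinal.mk_fintype, Nat.cast_le, Fintype.card_option, Fintype.card_sum, Fintype.card_fin] at h7
    omega
  obtain ⟨V, i₀, j₀, hsV, hV⟩ := key
  have hFV : ∀ c : F, algebraMap F L c ∈ V := fun c => hsV (Or.inl ⟨c, rfl⟩)
  have hβV : ∀ l, β l ∈ V := fun l => hsV (Or.inr ⟨l, rfl⟩)
  -- the largest coordinates
  obtain ⟨p, hp⟩ := Finite.exists_max fun i => V.valuation (a i)
  obtain ⟨q, hq⟩ := Finite.exists_max fun j => V.valuation (b j)
  have ha0 : a 0 = 1 := rfl
  have hb0 : b 0 = x none := by simp [b]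
  have hap : a p ≠ 0 := by
    intro h0
    have h1 := hp 0
    rw [h0, map_zero, ha0, map_one] at h1
    exact not_lt_of_ge h1 zero_lt_one
  have hbq : b q ≠ 0 := by
    intro h0
    have h1 := hq 0
    rw [h0, map_zero, hb0] at h1
    have h2 := (Valuation.ne_zero_iff V.valuation).2 (hx0 none)
    exact h2 (le_antisymm h1 zero_le)
  have hpq : 1 < V.valuation (a p * b q) := by
    have h1 : 1 < V.valuation (a i₀ * b j₀) := by
      rw [← not_le, V.valuation_le_one_iff]
      exact hV
    refine h1.trans_le ?_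
    rw [map_mul, map_mul]
    exact mul_le_mul' (hp i₀) (hq j₀)
  have haV : ∀ i, a i / a p ∈ V := by
    intro i
    rw [← V.valuation_le_one_iff, map_div₀]
    exact div_le_one_of_le₀ (hp i) zero_le
  have hbV : ∀ j, b j / b q ∈ V := by
    intro j
    rw [← V.valuation_le_one_iff, map_div₀]
    exact div_le_one_of_le₀ (hq j) zero_le
  -- the residue field
  let κ := IsLocalRing.ResidueField V
  let ι₁ : F →+* V := (algebraMap F L).codRestrict V.toSubring hFV
  let ρ : V →+* κ := IsLocalRing.residue V
  let _ : Algebra F κ := (ρ.comp ι₁).toAlgebra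
  have hρ : ∀ c, algebraMap F κ c = ρ (ι₁ c) := fun c => rfl
  refine descend (κ := κ) B p q (fun i => ρ ⟨a i / a p, haV i⟩) (fun j => ρ ⟨b j / b q, hbV j⟩) ?_ ?_ fun l => ?_
  · have h1 : (⟨a p / a p, haV p⟩ : V) = 1 := Subtype.ext (div_self hap)
    rw [h1, map_one]
  · have h1 : (⟨b q / b q, hbV q⟩ : V) = 1 := Subtype.ext (div_self hbq)
    rw [h1, map_one]
  · simp only [hρ, ← map_mul, ← map_sum]
    rw [IsLocalRing.residue_eq_zero_iff, V.valuation_lt_one_iff]
    have h1 : ((∑ i, ∑ j, ι₁ (B l i j) * (⟨a i / a p, haV i⟩ * ⟨b j / b q, hbV j⟩) : V) : L) =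
        β l / (a p * b q) := by
      rw [AddSubmonoidClass.coe_finsetSum]
      simp only [β]
      rw [Finset.sum_div]
      refine Finset.sum_congr rfl fun i _ => ?_
      rw [AddSubmonoidClass.coe_finsetSum, Finset.sum_div]
      refine Finset.sum_congr rfl fun j _ => ?_
      show algebraMap F L (B l i j) * (a i / a p * (b j / b q)) = _
      rw [div_mul_div_comm, ← mul_div_assoc]
    rw [h1, map_div₀]
    have h2 : V.valuation (β l) ≤ 1 := (V.valuation_le_one_iff _).2 (hβV l)
    have h3 : V.valuation (a p * b q) ≠ 0 := fun h0 => by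
      rw [h0] at hpq
      exact not_lt_of_ge zero_le hpq
    rw [div_lt_one₀ (zero_lt_iff.2 h3)]
    exact h2.trans_lt hpq

end Pool.Agent.H936.SL
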