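import Pool.Agent.H936.SL.Cor2

/-!
# The Lie algebra of a subtorsor is closed under commutators; rational groups
-/

set_option autoImplicit false
set_option linter.unusedSectionVars false
set_option linter.unusedVariables false

open Matrix Module Filter MvPolynomial

namespace Pool.Agent.H936.SL

open Pool.Agent.TH119.DR Pool.Agent.TH119.MX Pool.Agent.TH127.PT Pool.Agent.Y123.ST
open Pool.Agent.Y123.GN (quot_LL)
open Pool.Agent.Helper880_R3 (exp_stab exp_HD exp_zero')

variable {B : Type} [Fintype B] [DecidableEq B] {K : Subfield ℂ} {T : Set (Matrix B B ℂ)}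

theorem exp_inv (X : Matrix B B ℂ) (s : ℂ) :
    NormedSpace.exp (s • X) * NormedSpace.exp ((-s) • X) = 1 := by
  rw [neg_smul, Matrix.exp_neg]
  exact Matrix.mul_nonsing_inv _ ((Matrix.isUnit_iff_isUnit_det _).1 (Matrix.isUnit_exp _))

theorem exp_inv' (X : Matrix B B ℂ) (s : ℂ) :
    NormedSpace.exp ((-s) • X) * NormedSpace.exp (s • X) = 1 := by
  have := exp_inv X (-s)
  rwa [neg_neg] at this

/-- **commutators** -/
theorem LL_br (hT : IsSubtorsor K T) (hne : T.Nonempty) {X w : Matrix B B ℂ} (hX : X ∈ Lm T) (hw : w ∈ Lm T) :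
    X * w - w * X ∈ Lm T := by
  obtain ⟨c, hc⟩ := hne
  have hcu := (Matrix.isUnit_iff_isUnit_det c).1 (hT.isUnit c hc)
  have h1 : ∀ s : ℂ, NormedSpace.exp (s • X) * w * NormedSpace.exp ((-s) • X) ∈ Lm T := by
    intro s
    have hsX : fl (s • X) ∈ LL T := by
      rw [fl_smul]
      exact (LL T).smul_mem s hX
    have h2 := exp_stab hT hsX hc
    have h3 := quot_LL hT hc h2 hw
    have h4 : NormedSpace.exp (s • X) * c * (c⁻¹ * w * c) * (NormedSpace.exp (s • X) * c)⁻¹ =
        NormedSpace.exp (s • X) * w * NormedSpace.exp ((-s) • X) := by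
      have h5 : (NormedSpace.exp (s • X) * c)⁻¹ = c⁻¹ * NormedSpace.exp ((-s) • X) := by
        refine Matrix.inv_eq_left_inv ?_
        calc c⁻¹ * NormedSpace.exp ((-s) • X) * (NormedSpace.exp (s • X) * c) =
            c⁻¹ * (NormedSpace.exp ((-s) • X) * NormedSpace.exp (s • X)) * c := by simp only [Matrix.mul_assoc]
          _ = 1 := by rw [exp_inv', Matrix.mul_one, Matrix.nonsing_inv_mul _ hcu]
      rw [h5]
      calc NormedSpace.exp (s • X) * c * (c⁻¹ * w * c) * (c⁻¹ * NormedSpace.exp ((-s) • X)) =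
          NormedSpace.exp (s • X) * (c * c⁻¹) * w * (c * c⁻¹) * NormedSpace.exp ((-s) • X) := by
            simp only [Matrix.mul_assoc]
        _ = _ := by rw [Matrix.mul_nonsing_inv _ hcu, Matrix.mul_one, Matrix.mul_one]
    rw [h4] at h3
    exact h3
  by_contra hcon
  obtain ⟨φ, hφ1, hφ2⟩ := Submodule.exists_le_ker_of_notMem hcon
  refine hφ1 ?_
  have hlin : ∀ Z : Matrix B B ℂ, φ Z = ∑ i, ∑ j, Z i j * φ (Matrix.single i j 1) := by
    intro Z
    conv_lhs => rw [Matrix.matrix_eq_sum_single Z]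
    rw [map_sum]
    refine Finset.sum_congr rfl fun i _ => ?_
    rw [map_sum]
    refine Finset.sum_congr rfl fun j _ => ?_
    have h1 : Matrix.single i j (Z i j) = Z i j • Matrix.single i j (1 : ℂ) := by
      rw [Matrix.smul_single, smul_eq_mul, mul_one]
    rw [h1, map_smul, smul_eq_mul]
  have hexp : ∀ i j, HasDerivAt (fun s : ℂ => NormedSpace.exp (s • X) i j) (X i j) 0 := by
    intro i j
    have h2 := exp_HD X 0 i j
    have h3 : (0 : ℂ) • X = 0 := zero_smul _ _
    rwa [h3, exp_zero', Matrix.mul_one] at h2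
  have hexp' : ∀ i j, HasDerivAt (fun s : ℂ => NormedSpace.exp ((-s) • X) i j) (-(X i j)) 0 := by
    intro i j
    have h2 : HasDerivAt (fun s : ℂ => NormedSpace.exp (s • X) i j) (X i j) (-0) := by
      rw [neg_zero]
      exact hexp i j
    have h3 := h2.scomp 0 (hasDerivAt_neg (0 : ℂ))
    have h4 : (-1 : ℂ) • X i j = -(X i j) := by rw [neg_smul, one_smul]
    rw [h4] at h3
    exact h3
  have hd : ∀ i j, HasDerivAt (fun s : ℂ => (NormedSpace.exp (s • X) * w * NormedSpace.exp ((-s) • X)) i j)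
      ((X * w - w * X) i j) 0 := by
    intro i j
    have h3 : (0 : ℂ) • X = 0 := zero_smul _ _
    have h3' : (-0 : ℂ) • X = 0 := by rw [neg_zero, zero_smul]
    have h4 : (fun s : ℂ => (NormedSpace.exp (s • X) * w * NormedSpace.exp ((-s) • X)) i j) =
        fun s => ∑ l, (∑ k, NormedSpace.exp (s • X) i k * w k l) * NormedSpace.exp ((-s) • X) l j := by
      funext s
      rw [Matrix.mul_apply]
      refine Finset.sum_congr rfl fun l _ => ?_
      rw [Matrix.mul_apply]
    have h5 : (X * w - w * X) i j = ∑ l, ((∑ k, X i k * w k l) * NormedSpace.exp ((-0 : ℂ) • X) l j +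
        (∑ k, NormedSpace.exp ((0 : ℂ) • X) i k * w k l) * (-(X l j))) := by
      rw [h3, h3', exp_zero', Finset.sum_add_distrib]
      have e1 : ∀ l, ∑ k, X i k * w k l = (X * w) i l := fun l => (Matrix.mul_apply).symm
      have e2 : ∀ l, ∑ k, (1 : Matrix B B ℂ) i k * w k l = w i l := by
        intro l
        rw [← Matrix.mul_apply, Matrix.one_mul]
      simp only [e1, e2]
      rw [← Matrix.mul_apply, Matrix.mul_one, Matrix.sub_apply, Matrix.mul_apply (M := w)]
      simp only [mul_neg, Finset.sum_neg_distrib]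
      ring
    rw [h4, h5]
    exact HasDerivAt.fun_sum fun l _ => (HasDerivAt.fun_sum fun k _ => (hexp i k).mul_const _).mul (hexp' l j)
  have h2 : HasDerivAt (fun s : ℂ => φ (NormedSpace.exp (s • X) * w * NormedSpace.exp ((-s) • X)))
      (φ (X * w - w * X)) 0 := by
    have h3 : (fun s : ℂ => φ (NormedSpace.exp (s • X) * w * NormedSpace.exp ((-s) • X))) =
        fun s => ∑ i, ∑ j, (NormedSpace.exp (s • X) * w * NormedSpace.exp ((-s) • X)) i j * φ (Matrix.single i j 1) :=
      funext fun s => hlin _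
    rw [h3, hlin]
    exact HasDerivAt.fun_sum fun i _ => HasDerivAt.fun_sum fun j _ => (hd i j).mul_const _
  have h3 : (fun s : ℂ => φ (NormedSpace.exp (s • X) * w * NormedSpace.exp ((-s) • X))) = fun _ => 0 :=
    funext fun s => hφ2 (h1 s)
  rw [h3] at h2
  exact h2.unique (hasDerivAt_const _ _)

/-- the group `T T⁻¹` is stable under all automorphisms of the field of complex numbers, that is, defined over `ℚ` -/
def RatGrp (T : Set (Matrix B B ℂ)) : Prop :=
  ∀ σ : ℂ ≃+* ℂ, ∀ x ∈ T, ∀ y ∈ T, ∃ x' ∈ T, ∃ y' ∈ T, (x * y⁻¹).map σ = x' * y'⁻¹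

theorem map_inv_aut (σ : ℂ ≃+* ℂ) (x y : Matrix B B ℂ) : (x * y).map σ = x.map σ * y.map σ :=
  Matrix.map_mul (f := (σ : ℂ →+* ℂ))

/-- the Lie algebra of a rational group -/
theorem LL_rat (hT : IsSubtorsor K T) (hr : RatGrp T) (σ : ℂ ≃+* ℂ) (w : B × B → ℂ) (hw : w ∈ LL T) :
    (fun i => σ (w i)) ∈ LL T := by
  intro P hP x hx
  set y := x.map σ.symm with hy
  have hxu : x⁻¹ * x = 1 := inv_mul' hT hx
  have hxu' : x * x⁻¹ = 1 := mul_inv' hT hx
  have h1 : Pool.Agent.Y123.ST.Van T (Pool.Agent.Y123.ST.cp (B := B × B) (Pool.Agent.Y123.ST.mr (N := B) (x⁻¹ * y)) (MvPolynomial.map (σ.symm : ℂ →+* ℂ) P)) := by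
    intro z hz
    rw [eval_cp, mr_fl]
    obtain ⟨x', hx', y', hy', he⟩ := hr σ z hz x hx
    have h2 : (z * x⁻¹).map σ * x ∈ T := by
      rw [he]
      exact hT.torsor x' hx' y' hy' x hx
    have h3 := hP _ h2
    have h4 := eval_aut' σ.symm P (fl ((z * x⁻¹).map σ * x))
    rw [h3, map_zero] at h4
    have h5 : (fun b => σ.symm (fl ((z * x⁻¹).map σ * x) b)) = fl (z * (x⁻¹ * y)) := by
      have h6 := fl_map_mul σ.symm ((z * x⁻¹).map σ) x
      have h7 : ((z * x⁻¹).map σ).map σ.symm = z * x⁻¹ := by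
        ext i j
        exact σ.symm_apply_apply _
      rw [h7, ← hy, Matrix.mul_assoc] at h6
      exact h6
    rw [h5] at h4
    exact h4.symm
  have h2 := hw _ h1 x hx
  rw [dd_cp, mr_fl, mr_fl, ← Matrix.mul_assoc, hxu', Matrix.one_mul, Matrix.mul_assoc, ← Matrix.mul_assoc x, hxu',
    Matrix.one_mul] at h2
  have h3 := dd_aut σ (P.map (σ.symm : ℂ →+* ℂ)) (fl y) (fl (um w * y))
  rw [h2, map_zero, MvPolynomial.map_map] at h3
  have h4 : (σ : ℂ →+* ℂ).comp (σ.symm : ℂ →+* ℂ) = RingHom.id ℂ := by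
    ext z
    simp
  rw [h4, MvPolynomial.map_id] at h3
  have h5 : (fun b => σ (fl y b)) = fl x := by
    funext b
    simp [fl, hy]
  have h6 : (fun b => σ (fl (um w * y) b)) = fl (um (fun i => σ (w i)) * x) := by
    have h7 := fl_map_mul σ (um w) y
    have h8 : y.map σ = x := by
      ext i j
      simp [hy]
    rw [h8] at h7
    exact h7
  rw [h5, h6] at h3
  exact h3.symm

end Pool.Agent.H936.SL
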