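import Pool.Agent.H936.SL.Fin2

/-!
# The constants
-/

set_option autoImplicit false
set_option linter.unusedSectionVars false
set_option linter.unusedVariables false
set_option maxHeartbeats 400000

open Matrix Module Filter

namespace Pool.Agent.H936.SL

open Pool.Agent.Helper880_LF (om om_add_left om_add_right om_smul_left om_smul_right pr spS mem_spS comm_mem pr_mem pr_mulVec)
open Pool.Agent.Helper880_LF.NB (gm gm_mul gm_add gm_sub gm_smul gm_zero gm_one gm_neg gm_unit gm_transpose gm_kt kt kt_apply dm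
  dm_mul dm_smul dm_transpose kerD mem_kerD ker_alg ker_adj gm_apply)
open Pool.Agent.Helper880_R3 (Ix ib Tot GU lieB mem_lieB Inf Few GU_cod cod_sp Cod)
open Pool.Agent.Y118.UL (mk U)
open Pool.Agent.Y119.HY (cm cm_apply cm_mul cm_one cm_transpose cm_zero cm_add cm_neg)
open Pool.Agent.Y102 (AbVar QBar tau toC toC_eq)
open Pool.Agent.W516.DR (IsDeRhamBettiEnd)
open Pool.Agent.W516.KC (IsSkew)
open Pool.Agent.R917 (PM PM_apply eqv)

variable {n N r₀ g : ℕ}

/-! ### constants of the derivations -/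

/-- derivations over `ℚ` vanish on algebraic constants -/
theorem dm_alg (δ : Derivation (U ℚ) (U ℂ) (U ℂ)) {M : Matrix (Fin n) (Fin n) ℂ} (h : ∀ i j, IsAlgebraic ℚ (M i j)) :
    dm δ (cu M) = 0 := by
  ext i j
  show δ (kt (M i j)) = 0
  refine ker_adj (Ω := U ℂ) kt (s := (∅ : Set ℂ)) (by simp) (x := M i j) ?_
  exact (h i j).tower_top (K := ℚ) (L := IntermediateField.adjoin ℚ (∅ : Set ℂ))

theorem dm_cm (δ : Derivation (U ℚ) (U ℂ) (U ℂ)) (M : Matrix (Fin n) (Fin n) ℚ) : dm δ (cu (cm M)) = 0 :=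
  dm_alg δ fun i j => cm_alg M i j

/-- **the commutation** -/
theorem Fd_comm {C α a : Matrix (Fin n) (Fin n) ℂ} (hC : IsUnit C.det) (h : α * C = C * a)
    (hα : ∀ i j, IsAlgebraic ℚ (α i j)) (ha : ∀ i j, IsAlgebraic ℚ (a i j)) (δ : Derivation (U ℚ) (U ℂ) (U ℂ)) :
    Fd δ C * cu α = cu α * Fd δ C := by
  have h1 : cu α * cu C = cu C * cu a := by
    rw [← gm_mul, ← gm_mul]
    congr 1
    funext _
    exact h
  have h2 := congrArg (dm δ) h1
  rw [dm_mul, dm_mul, dm_alg δ hα, dm_alg δ ha, Matrix.zero_mul, zero_add, Matrix.mul_zero, add_zero] at h2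
  have hCu := cu_unit hC
  have h3 : cu a * (cu C)⁻¹ = (cu C)⁻¹ * cu α := by
    calc cu a * (cu C)⁻¹ = (cu C)⁻¹ * (cu C * cu a) * (cu C)⁻¹ := by
          rw [← Matrix.mul_assoc, Matrix.nonsing_inv_mul _ hCu, Matrix.one_mul]
      _ = (cu C)⁻¹ * cu α * (cu C * (cu C)⁻¹) := by
          rw [← h1]
          simp only [Matrix.mul_assoc]
      _ = _ := by rw [Matrix.mul_nonsing_inv _ hCu, Matrix.mul_one]
  unfold Fd
  calc dm δ (cu C) * (cu C)⁻¹ * cu α = dm δ (cu C) * (cu a * (cu C)⁻¹) := by rw [h3, Matrix.mul_assoc]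
    _ = (dm δ (cu C) * cu a) * (cu C)⁻¹ := by rw [Matrix.mul_assoc]
    _ = _ := by rw [← h2, Matrix.mul_assoc]

/-- **the similitudes** -/
theorem Fd_gs {C B H : Matrix (Fin n) (Fin n) ℂ} (hC : IsUnit C.det) (hH : IsUnit H.det) {θ : ℂ} (hθ : θ ≠ 0)
    (hB : C * B * Cᵀ = θ • H) (hBa : ∀ i j, IsAlgebraic ℚ (B i j)) (hHa : ∀ i j, IsAlgebraic ℚ (H i j))
    (δ : Derivation (U ℚ) (U ℂ) (U ℂ)) : GS (cu H⁻¹) (Fd δ C) := by
  have hCu := cu_unit hC
  have hHu := cu_unit hH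
  have hθ' : kt θ ≠ 0 := (map_ne_zero kt).2 hθ
  set H' := cu H with hH'
  have h0 : cu C * cu B * (cu C)ᵀ = kt θ • H' := by
    rw [← gm_transpose, ← gm_mul, ← gm_mul]
    have : kt θ • H' = gm fun _ => θ • H := by rw [gm_smul]; rfl
    rw [this]
    congr 1
    funext _
    exact hB
  have h1 := congrArg (dm δ) h0
  rw [dm_mul, dm_mul, dm_alg δ hBa, Matrix.mul_zero, add_zero, dm_transpose, dm_smul, dm_alg δ hHa, smul_zero, add_zero] at h1
  have hCC : (cu C)⁻¹ * cu C = 1 := Matrix.nonsing_inv_mul _ hCu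
  have hCt : (cu C)ᵀ * ((cu C)⁻¹)ᵀ = 1 := by rw [← transpose_mul, hCC, transpose_one]
  have h2 : dm δ (cu C) = Fd δ C * cu C := by
    unfold Fd
    rw [Matrix.mul_assoc, hCC, Matrix.mul_one]
  have h3 : Fd δ C * H' + H' * (Fd δ C)ᵀ = (δ (kt θ) / kt θ) • H' := by
    have e1 : kt θ • (Fd δ C * H' + H' * (Fd δ C)ᵀ) = δ (kt θ) • H' := by
      rw [smul_add, ← Matrix.mul_smul, ← Matrix.smul_mul, ← h0, ← h1, h2, transpose_mul]
      simp only [Matrix.mul_assoc]
    rw [div_eq_inv_mul, mul_smul, ← e1, smul_smul, inv_mul_cancel₀ hθ', one_smul]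
  have hHH : H' * H'⁻¹ = 1 := Matrix.mul_nonsing_inv _ hHu
  have hHH' : H'⁻¹ * H' = 1 := Matrix.nonsing_inv_mul _ hHu
  set c := δ (kt θ) / kt θ with hc
  refine ⟨-(c / 2), ?_⟩
  rw [← cu_inv hH, mem_spS]
  set F := Fd δ C with hF
  have h4 : Fᵀ * H'⁻¹ + H'⁻¹ * F = c • H'⁻¹ := by
    calc Fᵀ * H'⁻¹ + H'⁻¹ * F = H'⁻¹ * (F * H' + H' * Fᵀ) * H'⁻¹ := by
          rw [Matrix.mul_add, Matrix.add_mul]
          have e1 : H'⁻¹ * (F * H') * H'⁻¹ = H'⁻¹ * F := by
            calc H'⁻¹ * (F * H') * H'⁻¹ = H'⁻¹ * F * (H' * H'⁻¹) := by simp only [Matrix.mul_assoc]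
              _ = _ := by rw [hHH, Matrix.mul_one]
          have e2 : H'⁻¹ * (H' * Fᵀ) * H'⁻¹ = Fᵀ * H'⁻¹ := by
            rw [← Matrix.mul_assoc, hHH', Matrix.one_mul]
          rw [e1, e2, add_comm]
      _ = c • H'⁻¹ := by
        rw [h3, Matrix.mul_smul, hHH', Matrix.smul_mul, Matrix.one_mul]
  have h5 : (F + -(c / 2) • (1 : Mn n (U ℂ)))ᵀ * H'⁻¹ + H'⁻¹ * (F + -(c / 2) • (1 : Mn n (U ℂ))) =
      (Fᵀ * H'⁻¹ + H'⁻¹ * F) - c • H'⁻¹ := by
    rw [transpose_add, transpose_smul, transpose_one, Matrix.add_mul, Matrix.mul_add, Matrix.smul_mul, Matrix.mul_smul,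
      Matrix.one_mul, Matrix.mul_one]
    module
  rw [h5, h4, sub_self]

/-! ### counting -/

/-- the dimension of the symplectic Lie algebra -/
theorem finrank_spS_ge {F : Type} [Field F] {J : Matrix (Fin n) (Fin n) F} (hJ : Jᵀ = -J) (hdet : IsUnit J.det) :
    (n + 1).choose 2 ≤ finrank F (spS J) := by
  let f : (Sym2 (Fin n) → F) →ₗ[F] Matrix (Fin n) (Fin n) F :=
    { toFun := fun φ => J⁻¹ * Matrix.of fun i j => φ s(i, j)
      map_add' := fun φ ψ => by
        rw [← Matrix.mul_add]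
        rfl
      map_smul' := fun c φ => by
        rw [RingHom.id_apply, ← Matrix.mul_smul]
        rfl }
  have hJt : (J⁻¹)ᵀ = -J⁻¹ := by
    rw [transpose_nonsing_inv, hJ]
    refine inv_eq_right_inv ?_
    rw [neg_mul_neg, mul_nonsing_inv _ hdet]
  have hmem : ∀ φ, f φ ∈ spS J := by
    intro φ
    rw [mem_spS]
    show (J⁻¹ * Matrix.of fun i j => φ s(i, j))ᵀ * J + J * (J⁻¹ * Matrix.of fun i j => φ s(i, j)) = 0
    have h1 : (Matrix.of fun i j => φ s(i, j) : Matrix (Fin n) (Fin n) F)ᵀ = Matrix.of fun i j => φ s(i, j) := by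
      ext i j
      show φ s(j, i) = φ s(i, j)
      rw [Sym2.eq_swap]
    rw [transpose_mul, h1, hJt, ← Matrix.mul_assoc, Matrix.mul_nonsing_inv _ hdet, Matrix.one_mul, Matrix.mul_neg,
      Matrix.neg_mul, Matrix.mul_assoc, Matrix.nonsing_inv_mul _ hdet, Matrix.mul_one, neg_add_cancel]
  have hinj : Function.Injective f := by
    intro φ ψ h
    have h1 : J * (J⁻¹ * Matrix.of fun i j => φ s(i, j)) = J * (J⁻¹ * Matrix.of fun i j => ψ s(i, j)) := congrArg (J * ·) h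
    rw [← Matrix.mul_assoc, ← Matrix.mul_assoc, Matrix.mul_nonsing_inv _ hdet, Matrix.one_mul, Matrix.one_mul] at h1
    funext p
    induction p using Sym2.ind with
    | _ i j => exact congrFun (congrFun h1 i) j
  have h1 := LinearMap.finrank_range_of_inj hinj
  have h2 : LinearMap.range f ≤ spS J := by
    rintro _ ⟨φ, rfl⟩
    exact hmem φ
  have h3 := Submodule.finrank_mono h2
  rw [h1, Module.finrank_fintype_fun_eq_card, Sym2.card, Fintype.card_fin] at h3
  exact h3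

/-- the commutant is not everything -/
theorem not_comm {F : Type} [Field F] [CharZero F] {J α : Matrix (Fin n) (Fin n) F} (hJ : Jᵀ = -J) (hdet : IsUnit J.det)
    (hn : 0 < n) (hα : Ty J α) : ∃ X ∈ spS J, X * α ≠ α * X := by
  by_contra hcon
  push Not at hcon
  have h1 : ∀ u, α *ᵥ u ∈ Submodule.span F {u} := by
    intro u
    by_cases hu : u = 0
    · rw [hu, mulVec_zero]
      exact Submodule.zero_mem _
    obtain ⟨w, hw⟩ := exists_nonorth hJ hdet hu
    have h2 := congrArg (fun X : Mn n F => X *ᵥ w) (hcon _ (pr_mem hJ u u))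
    simp only [← Matrix.mulVec_mulVec, pr_mulVec] at h2
    rw [Matrix.mulVec_add, Matrix.mulVec_smul] at h2
    have h3 : (2 * om J u w) • (α *ᵥ u) = (2 * om J u (α *ᵥ w)) • u := by
      rw [two_mul, two_mul, add_smul, add_smul]
      exact h2.symm
    have h4 : (2 * om J u w) ≠ 0 := mul_ne_zero two_ne_zero hw
    rw [Submodule.mem_span_singleton]
    refine ⟨(2 * om J u w)⁻¹ * (2 * om J u (α *ᵥ w)), ?_⟩
    rw [mul_smul, ← h3, smul_smul, inv_mul_cancel₀ h4, one_smul]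
  rcases hα with ⟨-, w, hw⟩ | ⟨h2, c, hc, h3⟩
  · exact hw (h1 w)
  · obtain ⟨ν, hν⟩ := scalar_of hJ hdet h1
    set u : Fin n → F := Pi.single ⟨0, hn⟩ 1 with hu
    have hu0 : u ≠ 0 := by
      intro h
      have h4 := congrFun h ⟨0, hn⟩
      rw [hu, Pi.single_eq_same] at h4
      exact one_ne_zero h4
    obtain ⟨w, hw⟩ := exists_nonorth hJ hdet hu0
    have h4 := h2 u w
    rw [hν, hν, om_smul_left, om_smul_right] at h4
    have h5 : 2 * ν * om J u w = 0 := by linear_combination h4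
    have h6 : ν = 0 := by
      have h7 := (mul_eq_zero.1 h5).resolve_right hw
      exact (mul_eq_zero.1 h7).resolve_left two_ne_zero
    have h7 := h3 u
    rw [hν u, h6, zero_smul, mulVec_zero] at h7
    exact hu0 ((smul_eq_zero.1 h7.symm).resolve_left hc)

end Pool.Agent.H936.SL
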