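import Pool.Agent.H936.SL.Pr

/-!
# Invariant functions vanish on the isotropic planes
-/

set_option autoImplicit false
set_option linter.unusedSectionVars false
set_option linter.unusedVariables false

open Matrix Module MvPolynomial

namespace Pool.Agent.H936.SL

open Pool.Agent.Helper880_LF

variable {F : Type} [Field F] {n : ℕ} {J : Matrix (Fin n) (Fin n) F}

/-- the operator `w ↦ (v, w) u - (u, w) v` -/
def wd (J : Matrix (Fin n) (Fin n) F) (u v : Fin n → F) : Mn n F := (vecMulVec u v - vecMulVec v u) * J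

theorem wd_mulVec (u v w : Fin n → F) : wd J u v *ᵥ w = om J v w • u - om J u w • v := by
  unfold wd om
  rw [← mulVec_mulVec, sub_mulVec]
  have h : ∀ a b c : Fin n → F, vecMulVec a b *ᵥ c = (b ⬝ᵥ c) • a := by
    intro a b c
    funext i
    simp only [mulVec, vecMulVec_apply, dotProduct, Pi.smul_apply, smul_eq_mul, Finset.sum_mul]
    exact Finset.sum_congr rfl fun j _ => by ring
  rw [h, h]

/-- the line through two matrices -/
noncomputable def ln (β γ : Mn n F) : Pf n F →ₐ[F] Polynomial F :=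
  aeval fun p => Polynomial.C (γ p.1 p.2) + Polynomial.X * Polynomial.C (β p.1 p.2)

theorem ln_eval (β γ : Mn n F) (z : F) (Θ : Pf n F) : Polynomial.eval z (ln β γ Θ) = ev (z • β + γ) Θ := by
  have h1 : (Polynomial.aeval z).comp (ln β γ) = ev (z • β + γ) := by
    apply MvPolynomial.algHom_ext
    intro p
    rw [AlgHom.comp_apply]
    unfold ln ev
    rw [aeval_X, aeval_X, Polynomial.coe_aeval_eq_eval]
    simp only [Polynomial.eval_add, Polynomial.eval_mul, Polynomial.eval_C, Polynomial.eval_X, Matrix.add_apply,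
      Matrix.smul_apply, smul_eq_mul]
    rw [add_comm]
  rw [← h1, AlgHom.comp_apply, Polynomial.coe_aeval_eq_eval]

/-- homogeneous functions -/
def Hm (d : ℕ) (Ψ : Pf n F) : Prop := ∀ (β : Mn n F) (r : F), ev (r • β) Ψ = r ^ d * ev β Ψ

theorem zero_of_line [CharZero F] {Ψ : Pf n F} {d : ℕ} (hd : 1 ≤ d) (hh : Hm d Ψ) {β γ : Mn n F} {c : F}
    (h : ∀ r : F, ev (β + r • γ) Ψ = c) : ev γ Ψ = 0 := by
  have : Infinite F := inferInstance
  have h1 : ∀ z : F, z ≠ 0 → Polynomial.eval z (ln β γ Ψ) = Polynomial.eval z (Polynomial.X ^ d * Polynomial.C c) := by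
    intro z hz
    rw [ln_eval]
    have h2 : z • β + γ = z • (β + z⁻¹ • γ) := by rw [smul_add, smul_smul, mul_inv_cancel₀ hz, one_smul]
    rw [h2, hh, h]
    simp only [Polynomial.eval_mul, Polynomial.eval_pow, Polynomial.eval_X, Polynomial.eval_C]
  have h2 : ln β γ Ψ = Polynomial.X ^ d * Polynomial.C c := by
    apply Polynomial.eq_of_infinite_eval_eq
    refine Set.Infinite.mono (s := {z | z ≠ 0}) h1 ?_
    exact Set.Finite.infinite_compl (Set.finite_singleton (0 : F))
  have h3 := ln_eval β γ 0 Ψ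
  rw [h2, zero_smul, zero_add] at h3
  rw [← h3]
  simp only [Polynomial.eval_mul, Polynomial.eval_pow, Polynomial.eval_X, Polynomial.eval_C]
  rw [zero_pow (by omega), zero_mul]

/-- symmetric operators -/
def Sy (J : Matrix (Fin n) (Fin n) F) (α : Mn n F) : Prop := ∀ u v, om J (α *ᵥ u) v = om J u (α *ᵥ v)

variable [CharZero F] (hJ : Jᵀ = -J) (hdet : IsUnit J.det)
include hJ

theorem Sy.conj {α : Mn n F} (hα : Sy J α) {g h : Mn n F} (hg : Gm J g h) : Sy J (g * α * h) := by
  intro u v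
  obtain ⟨e1, e2⟩ := hg.inv hJ
  have hu : u = g *ᵥ (h *ᵥ u) := by rw [mulVec_mulVec, e1, one_mulVec]
  have hv : v = g *ᵥ (h *ᵥ v) := by rw [mulVec_mulVec, e1, one_mulVec]
  have k1 : ∀ w, (g * α * h) *ᵥ w = g *ᵥ (α *ᵥ (h *ᵥ w)) := by
    intro w
    rw [← mulVec_mulVec, ← mulVec_mulVec]
  rw [k1, k1]
  conv_lhs => rw [hv]
  conv_rhs => rw [hu]
  rw [hg.om hJ, hg.om hJ, hα]

/-- an invertible product of transvections moves the point into any isotropic plane -/
theorem orbit_line {α : Mn n F} (hα : Sy J α) {g h : Mn n F} (hg : Gm J g h) {u v : Fin n → F}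
    (huv : om J u v = 0) (hv : (g * α * h) *ᵥ u = v) (r : F) :
    (1 + r • sq J u) * g * α * (h * (1 - r • sq J u)) = g * α * h + r • wd J u v := by
  set β := g * α * h with hβ
  have hs := hα.conj hJ hg
  rw [← hβ] at hs
  have h1 : (1 + r • sq J u) * g * α * (h * (1 - r • sq J u)) = (1 + r • sq J u) * β * (1 - r • sq J u) := by
    rw [hβ]
    simp only [Matrix.mul_assoc]
  rw [h1]
  apply mul_ext
  intro w
  have e1 : (1 - r • sq J u) *ᵥ w = w - (r * om J u w) • u := by
    rw [sub_mulVec, one_mulVec, smul_mulVec, sq_mulVec, smul_smul]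
  have e2 : β *ᵥ (w - (r * om J u w) • u) = β *ᵥ w - (r * om J u w) • v := by
    rw [mulVec_sub, mulVec_smul, hv]
  rw [← mulVec_mulVec, ← mulVec_mulVec, e1, e2, add_mulVec, one_mulVec, smul_mulVec, sq_mulVec, add_mulVec,
    smul_mulVec, wd_mulVec]
  have e3 : om J u (β *ᵥ w - (r * om J u w) • v) = om J v w := by
    rw [om_sub_right, om_smul_right, huv, mul_zero, sub_zero, ← hs, hv]
  rw [e3, smul_sub, smul_smul, smul_smul]
  module

include hdet

/-- **invariant functions vanish on the isotropic planes** -/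
theorem cor_S {α : Mn n F} (hα : Sy J α) (hns : ∃ w, α *ᵥ w ∉ Submodule.span F {w}) {Ψ : Pf n F} {d : ℕ} (hd : 1 ≤ d)
    (hh : Hm d Ψ) (hdec : Dec (spS J) Ψ α) {u v : Fin n → F} (huv : om J u v = 0) : ev (wd J u v) Ψ = 0 := by
  have hzero : wd J u v = 0 → ev (wd J u v) Ψ = 0 := by
    intro h0
    have h1 := hh (wd J u v) 0
    rw [h0, smul_zero, zero_pow (by omega), zero_mul] at h1
    rw [h0, h1]
  by_cases hu : u = 0
  · apply hzero
    rw [hu]
    unfold wd
    rw [zero_vecMulVec, vecMulVec_zero, sub_self, Matrix.zero_mul]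
  by_cases hv : v ∈ Submodule.span F {u}
  · apply hzero
    obtain ⟨c, rfl⟩ := Submodule.mem_span_singleton.1 hv
    unfold wd
    rw [vecMulVec_smul, smul_vecMulVec, sub_self, Matrix.zero_mul]
  obtain ⟨w₀, hw₀⟩ := hns
  have hw0 : w₀ ≠ 0 := by
    rintro rfl
    rw [mulVec_zero] at hw₀
    exact hw₀ (Submodule.zero_mem _)
  have hiso : om J w₀ (α *ᵥ w₀) = 0 := by
    have h1 := hα w₀ w₀
    rw [om_swap hJ] at h1
    have h2 : (2 : F) * om J w₀ (α *ᵥ w₀) = 0 := by linear_combination -h1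
    exact (mul_eq_zero.1 h2).resolve_left two_ne_zero
  obtain ⟨g, h, hg, e1, e2⟩ := trans3 hJ hdet hw0 hu hw₀ hv hiso huv
  have hβ : (g * α * h) *ᵥ u = v := by
    rw [← e1, mulVec_mulVec, Matrix.mul_assoc, (hg.inv hJ).2, Matrix.mul_one, ← mulVec_mulVec, e2]
  refine zero_of_line hd hh (β := g * α * h) (c := ev α Ψ) fun r => ?_
  rw [← orbit_line hJ hα hg huv hβ r]
  exact orbit hJ (hg.step u r) hdec

end Pool.Agent.H936.SL
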