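import Pool.Agent.H936.SL.Pj

/-!
# The core theorem in the ultrapower
-/

set_option autoImplicit false
set_option linter.unusedSectionVars false
set_option linter.unusedVariables false

open Matrix Module Filter

namespace Pool.Agent.H936.SL

open Pool.Agent.Helper880_LF (om om_add_left om_add_right om_smul_left om_smul_right om_zero_left om_zero_right pr spS
  mem_spS comm_mem)
open Pool.Agent.Helper880_LF.NB (gm gm_mul gm_add gm_sub gm_smul gm_zero gm_one gm_ev gm_eq gm_surj gm_neg gm_unit gm_apply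
  gm_transpose gm_kt kt kt_apply dm dm_mul dm_smul Lst mem_Lst normL rank_le)
open Pool.Agent.Helper880_R3 (Ix ib ib_apply ib_inj ib_mul Tot GU mem_GU finrank_GU gm_fb gm_ib dm_fb)
open Pool.Agent.Y118.UL (mk mk_eq mk_eq_zero mk_ne_zero mk_surj ev_ge U)
open Pool.Agent.TH119.DR Pool.Agent.TH119.MX Pool.Agent.TH127.PT Pool.Agent.Y123.ST Pool.Agent.Y123.GN

variable {n N r₀ : ℕ}

/-- the left Lie algebra, as a space of matrices -/
def Lm {B : Type} [Fintype B] [DecidableEq B] (T : Set (Matrix B B ℂ)) : Submodule ℂ (Matrix B B ℂ) where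
  carrier := {w | fl w ∈ LL T}
  zero_mem' := by
    show fl 0 ∈ LL T
    rw [fl_zero]
    exact (LL T).zero_mem
  add_mem' := by
    intro a b ha hb
    show fl (a + b) ∈ LL T
    rw [fl_add]
    exact (LL T).add_mem ha hb
  smul_mem' := by
    intro c a ha
    show fl (c • a) ∈ LL T
    rw [fl_smul]
    exact (LL T).smul_mem c ha

theorem mem_Lm {B : Type} [Fintype B] [DecidableEq B] {T : Set (Matrix B B ℂ)} {w : Matrix B B ℂ} :
    w ∈ Lm T ↔ fl w ∈ LL T := Iff.rfl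

/-- constants -/
noncomputable abbrev cu (X : Matrix (Fin n) (Fin n) ℂ) : Matrix (Fin n) (Fin n) (U ℂ) := gm fun _ => X

theorem gm_Tot (e : ℕ → Matrix (Fin r₀) (Fin r₀) ℂ) (y : ℕ → Fin N → Matrix (Fin n) (Fin n) ℂ) :
    gm (fun k => Tot (e k) (y k)) = Tot (gm e) fun j => gm fun k => y k j := gm_fb e y

theorem gm_spS {J : Matrix (Fin n) (Fin n) ℂ} {F : ℕ → Matrix (Fin n) (Fin n) ℂ} :
    gm F ∈ spS (cu J) ↔ ∀ᶠ k in (hyperfilter ℕ : Filter ℕ), F k ∈ spS J := by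
  rw [mem_spS]
  have h1 : (gm F)ᵀ * cu J + cu J * gm F = gm fun k => (F k)ᵀ * J + J * F k := by
    rw [gm_add, gm_mul, gm_mul, gm_transpose]
  rw [h1, ← gm_zero, gm_ev]
  rfl

theorem GU_spS {J : Matrix (Fin n) (Fin n) ℂ} : GU (spS J) = spS (cu J) := by
  ext Y
  obtain ⟨F, rfl⟩ := gm_surj Y
  rw [mem_GU, gm_spS]

theorem gm_GS {J : Matrix (Fin n) (Fin n) ℂ} {F : ℕ → Matrix (Fin n) (Fin n) ℂ} :
    GS (cu J) (gm F) ↔ ∀ᶠ k in (hyperfilter ℕ : Filter ℕ), GS J (F k) := by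
  classical
  constructor
  · rintro ⟨c, hc⟩
    obtain ⟨c, rfl⟩ := mk_surj c
    rw [← gm_one, ← gm_smul, ← gm_add, gm_spS] at hc
    filter_upwards [hc] with k hk
    exact ⟨_, hk⟩
  · intro h
    have h1 : ∀ k, ∃ c : ℂ, GS J (F k) → F k + c • (1 : Mn n ℂ) ∈ spS J := by
      intro k
      by_cases hk : GS J (F k)
      · obtain ⟨c, hc⟩ := hk
        exact ⟨c, fun _ => hc⟩
      · exact ⟨0, fun h => absurd h hk⟩
    choose c hc using h1
    refine ⟨mk ℂ c, ?_⟩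
    rw [← gm_one, ← gm_smul, ← gm_add, gm_spS]
    filter_upwards [h] with k hk
    exact hc k hk

/-- the projections in the ultrapower -/
theorem gm_Pj {J : Matrix (Fin n) (Fin n) ℂ} {T : ℕ → Set (Matrix (Ix r₀ n N) (Ix r₀ n N) ℂ)} {j : Fin N}
    {X : ℕ → Matrix (Fin n) (Fin n) ℂ} : gm X ∈ Pj (cu J) (Lst fun k => LL (T k)) j ↔
      ∀ᶠ k in (hyperfilter ℕ : Filter ℕ), X k ∈ Pj J (Lm (T k)) j := by
  classical
  constructor
  · rintro ⟨h0, e, y, c, h1, h2, h3⟩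
    obtain ⟨e, rfl⟩ := gm_surj e
    obtain ⟨c, rfl⟩ := mk_surj c
    choose y' hy' using fun i => gm_surj (y i)
    have hy : y = fun i => gm fun k => y' i k := funext fun i => (hy' i).symm
    subst hy
    have e1 : gm (fun k => Tot (e k) fun i => y' i k) = Tot (gm e) fun i => gm fun k => y' i k :=
      gm_Tot e fun k i => y' i k
    rw [← e1, mem_Lst] at h1
    have e2 : ∀ᶠ k in (hyperfilter ℕ : Filter ℕ), ∀ i, GS J (y' i k) := Filter.eventually_all.2 fun i => gm_GS.1 (h2 i)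
    have e3 : gm (fun k => y' j k) = gm fun k => X k + c k • (1 : Mn n ℂ) := by
      rw [gm_add, gm_smul, gm_one]
      exact h3
    filter_upwards [gm_spS.1 h0, h1, e2, gm_eq e3] with k k0 k1 k2 k3
    exact ⟨k0, e k, fun i => y' i k, c k, k1, k2, k3⟩
  · intro h
    have h1 : ∀ k, ∃ (e : Matrix (Fin r₀) (Fin r₀) ℂ) (y : Fin N → Mn n ℂ) (c : ℂ), X k ∈ Pj J (Lm (T k)) j →
        (Tot e y ∈ Lm (T k) ∧ (∀ i, GS J (y i)) ∧ y j = X k + c • (1 : Mn n ℂ)) := by
      intro k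
      by_cases hk : X k ∈ Pj J (Lm (T k)) j
      · obtain ⟨-, e, y, c, k1, k2, k3⟩ := hk
        exact ⟨e, y, c, fun _ => ⟨k1, k2, k3⟩⟩
      · exact ⟨0, fun _ => 0, 0, fun h => absurd h hk⟩
    choose e y c hh using h1
    refine ⟨gm_spS.2 (h.mono fun k hk => hk.1), gm e, fun i => gm fun k => y k i, mk ℂ c, ?_, fun i => ?_, ?_⟩
    · rw [← gm_Tot, mem_Lst]
      exact h.mono fun k hk => (hh k hk).1
    · exact gm_GS.2 (h.mono fun k hk => (hh k hk).2.1 i)
    · rw [← gm_one, ← gm_smul, ← gm_add, gm_ev]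
      exact h.mono fun k hk => (hh k hk).2.2

/-! ### types of operators in the ultrapower -/

theorem om_gm {J : Matrix (Fin n) (Fin n) ℂ} (u v : Fin n → ℕ → ℂ) :
    om (cu J) (fun i => mk ℂ (u i)) (fun i => mk ℂ (v i)) = mk ℂ fun k => om J (fun i => u i k) (fun i => v i k) := by
  have hsum : ∀ (f : Fin n → ℕ → ℂ), (∑ i, mk ℂ (f i)) = mk ℂ fun k => ∑ i, f i k := by
    intro f
    rw [← map_sum]
    congr 1
    funext k
    exact Finset.sum_apply _ _ _
  unfold Pool.Agent.Helper880_LF.om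
  simp only [dotProduct, mulVec]
  have h1 : ∀ i, (∑ l, gm (fun _ : ℕ => J) i l * mk ℂ (v l)) = mk ℂ fun k => ∑ l, J i l * v l k := by
    intro i
    rw [← hsum fun l k => J i l * v l k]
    exact Finset.sum_congr rfl fun l _ => (map_mul (mk ℂ) _ _).symm
  simp only [h1]
  rw [← hsum fun i k => u i k * ∑ l, J i l * v l k]
  exact Finset.sum_congr rfl fun l _ => (map_mul (mk ℂ) _ _).symm

theorem mulVec_gm (A : ℕ → Matrix (Fin n) (Fin n) ℂ) (v : Fin n → ℕ → ℂ) :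
    (gm A) *ᵥ (fun i => mk ℂ (v i)) = fun i => mk ℂ fun k => (A k *ᵥ fun l => v l k) i := by
  funext i
  simp only [dotProduct, mulVec]
  have hsum : ∀ (f : Fin n → ℕ → ℂ), (∑ i, mk ℂ (f i)) = mk ℂ fun k => ∑ i, f i k := by
    intro f
    rw [← map_sum]
    congr 1
    funext k
    exact Finset.sum_apply _ _ _
  rw [← hsum fun l k => A k i l * v l k]
  exact Finset.sum_congr rfl fun l _ => (map_mul (mk ℂ) _ _).symm

theorem exists_vec (u : Fin n → U ℂ) : ∃ u' : Fin n → ℕ → ℂ, u = fun i => mk ℂ (u' i) := by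
  choose u' hu' using fun i => mk_surj (u i)
  exact ⟨u', funext fun i => (hu' i).symm⟩

theorem Ty_cu {J α : Matrix (Fin n) (Fin n) ℂ} (h : Ty J α) : Ty (cu J) (cu α) := by
  rcases h with ⟨h1, w, hw⟩ | ⟨h1, c, hc, h2⟩
  · refine Or.inl ⟨fun u v => ?_, fun i => mk ℂ fun _ => w i, ?_⟩
    · obtain ⟨u, rfl⟩ := exists_vec u
      obtain ⟨v, rfl⟩ := exists_vec v
      rw [mulVec_gm, mulVec_gm, om_gm, om_gm]
      congr 1
      funext k
      exact h1 _ _
    · intro hcon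
      obtain ⟨c, hc⟩ := Submodule.mem_span_singleton.1 hcon
      obtain ⟨c, rfl⟩ := mk_surj c
      rw [mulVec_gm] at hc
      have h2 : ∀ i, ∀ᶠ k in (hyperfilter ℕ : Filter ℕ), c k * w i = (α *ᵥ w) i := by
        intro i
        have h3 := congrFun hc i
        rw [Pi.smul_apply, smul_eq_mul, ← map_mul, mk_eq] at h3
        exact h3
      obtain ⟨k, hk⟩ := (Filter.eventually_all.2 h2).exists
      exact hw (Submodule.mem_span_singleton.2 ⟨c k, funext hk⟩)
  · refine Or.inr ⟨fun u v => ?_, mk ℂ fun _ => c, mk_ne_zero.2 (Filter.Eventually.of_forall fun _ => hc), fun v => ?_⟩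
    · obtain ⟨u, rfl⟩ := exists_vec u
      obtain ⟨v, rfl⟩ := exists_vec v
      rw [mulVec_gm, mulVec_gm, om_gm, om_gm, ← map_neg]
      congr 1
      funext k
      exact h1 _ _
    · obtain ⟨v, rfl⟩ := exists_vec v
      rw [mulVec_gm, mulVec_gm]
      funext i
      rw [Pi.smul_apply, smul_eq_mul, ← map_mul]
      congr 1
      funext k
      exact congrFun (h2 _) i

theorem tr_gm (A : ℕ → Matrix (Fin n) (Fin n) ℂ) : Matrix.trace (gm A) = mk ℂ fun k => Matrix.trace (A k) := by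
  unfold Matrix.trace
  have h : (mk ℂ fun k => ∑ i, (A k).diag i) = mk ℂ (∑ i, fun k => A k i i) := by
    congr 1
    funext k
    rw [Finset.sum_apply]
    rfl
  rw [h, map_sum]
  rfl

/-- nondegenerate trace forms -/
theorem TN_gm {J : Matrix (Fin n) (Fin n) ℂ} {T : ℕ → Set (Matrix (Ix r₀ n N) (Ix r₀ n N) ℂ)} {j : Fin N}
    (h : ∀ k, TN (Pj J (Lm (T k)) j)) : TN (Pj (cu J) (Lst fun k => LL (T k)) j) := by
  classical
  intro X hX htr
  obtain ⟨X, rfl⟩ := gm_surj X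
  by_contra hne
  have h0 : ∀ᶠ k in (hyperfilter ℕ : Filter ℕ), X k ≠ 0 := by
    by_contra hcon
    rw [← Ultrafilter.eventually_not] at hcon
    apply hne
    rw [← gm_zero, gm_ev]
    exact hcon.mono fun k hk => not_not.1 hk
  have h1 := gm_Pj.1 hX
  have h2 : ∀ k, ∃ Y, (X k ≠ 0 ∧ X k ∈ Pj J (Lm (T k)) j) → (Y ∈ Pj J (Lm (T k)) j ∧ Matrix.trace (X k * Y) ≠ 0) := by
    intro k
    by_cases hk : X k ≠ 0 ∧ X k ∈ Pj J (Lm (T k)) j
    · have h3 := h k (X k) hk.2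
      by_contra hcon
      push Not at hcon
      refine hk.1 (h3 fun Y hY => ?_)
      exact (hcon Y).2 hY
    · exact ⟨0, fun h => absurd h hk⟩
  choose Y hY using h2
  have h3 := htr (gm Y) (gm_Pj.2 ((h0.and h1).mono fun k hk => (hY k hk).1))
  rw [← gm_mul, tr_gm, mk_eq_zero] at h3
  obtain ⟨k, hk1, hk2⟩ := ((h0.and h1).and h3).exists
  exact (hY k hk1).2 hk2

theorem ne_gm {J : Matrix (Fin n) (Fin n) ℂ} {T : ℕ → Set (Matrix (Ix r₀ n N) (Ix r₀ n N) ℂ)} {j : Fin N}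
    (h : ∀ k, Pj J (Lm (T k)) j ≠ ⊥) : Pj (cu J) (Lst fun k => LL (T k)) j ≠ ⊥ := by
  choose X hX hX0 using fun k => Submodule.exists_mem_ne_zero_of_ne_bot (h k)
  intro hcon
  have h1 : gm X ∈ Pj (cu J) (Lst fun k => LL (T k)) j := gm_Pj.2 (Filter.Eventually.of_forall hX)
  rw [hcon, Submodule.mem_bot, ← gm_zero] at h1
  obtain ⟨k, hk⟩ := (gm_eq h1).exists
  exact hX0 k hk

end Pool.Agent.H936.SL
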