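import Pool.Agent.H936.SL.SF

/-!
# The symmetric part of the quartic form
-/

set_option autoImplicit false
set_option linter.unusedSectionVars false
set_option linter.unusedVariables false

open Matrix Module

namespace Pool.Agent.H936.SL

open Pool.Agent.Helper880_LF

variable {F : Type} [Field F] {n : ℕ} {J : Matrix (Fin n) (Fin n) F} [CharZero F]

/-- the products of two independent vectors are independent -/
theorem indep3 (hJ : Jᵀ = -J) (hdet : IsUnit J.det) {v x : Fin n → F} (hv : v ≠ 0) (hx : x ∉ Submodule.span F {v})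
    {A B C : F} (h : A • pr J v v + B • pr J v x + C • pr J x x = 0) : A = 0 ∧ B = 0 ∧ C = 0 := by
  obtain ⟨y, h1, h2⟩ := exists_sep hJ hdet hx
  have h3 := congrArg (fun X : Mn n F => X *ᵥ y) h
  simp only [add_mulVec, smul_mulVec, pr_mulVec, zero_mulVec] at h3
  have e1 : om J v y = 0 := by rw [om_swap hJ, h2, neg_zero]
  have e2 : om J x y = -1 := by rw [om_swap hJ, h1]
  rw [e1, e2] at h3
  have h4 : (-B) • v = (2 * C) • x := by
    have : (-B) • v - (2 * C) • x = 0 := by
      rw [← h3]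
      module
    exact sub_eq_zero.1 this
  have hC : C = 0 := by
    by_contra hC
    apply hx
    refine Submodule.mem_span_singleton.2 ⟨(2 * C)⁻¹ * (-B), ?_⟩
    rw [mul_smul, h4, smul_smul, inv_mul_cancel₀ (mul_ne_zero two_ne_zero hC), one_smul]
  rw [hC, mul_zero, zero_smul] at h4
  have hB : B = 0 := neg_eq_zero.1 ((smul_eq_zero.1 h4).resolve_right hv)
  rw [hC, hB, zero_smul, zero_smul, add_zero, add_zero] at h
  refine ⟨?_, hB, hC⟩
  obtain ⟨z, hz⟩ := exists_nonorth hJ hdet hv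
  have h5 := congrArg (fun X : Mn n F => X *ᵥ z) h
  simp only [smul_mulVec, pr_mulVec, zero_mulVec] at h5
  have h6 : (A * (2 * om J v z)) • v = 0 := by
    rw [← h5]
    module
  exact (mul_eq_zero.1 ((smul_eq_zero.1 h6).resolve_right hv)).resolve_right (mul_ne_zero two_ne_zero hz)

/-- the assumptions of the last step -/
structure EG (J : Matrix (Fin n) (Fin n) F) (𝔩 : Submodule F (Mn n F)) (P : Mn n F →ₗ[F] Mn n F)
    (f : (Fin n → F) → (Fin n → F) → (Fin n → F) → (Fin n → F) → F) (lam : F) : Prop where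
  hJ : Jᵀ = -J
  hdet : IsUnit J.det
  hTN : TN 𝔩
  hP : IsPr 𝔩 P
  le : 𝔩 ≤ spS J
  sf : SF f
  hf : ∀ a b c d, Q J P a b c d = f a b c d + lam * br J a b c d
  cube : ∀ u v, om J u v = 0 → ∀ X ∈ Submodule.span F {pr J u u, pr J u v, pr J v v},
    (th (wd J u v) ∘ₗ P) ((th (wd J u v) ∘ₗ P) ((th (wd J u v) ∘ₗ P) X)) = 0

section
variable {𝔩 : Submodule F (Mn n F)} {P : Mn n F →ₗ[F] Mn n F}
  {f : (Fin n → F) → (Fin n → F) → (Fin n → F) → (Fin n → F) → F} {lam : F} (E : EG J 𝔩 P f lam)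
include E

theorem EG.N {v x : Fin n → F} (hvx : om J v x = 0) {a b : Fin n → F} (ha : om J a v = 0 ∧ om J a x = 0)
    (hb : om J b v = 0 ∧ om J b x = 0) : (th (wd J v x) ∘ₗ P) (pr J a b) =
    (f a b v x / 2) • pr J v x - (f a b v v / 4) • pr J x x - (f a b x x / 4) • pr J v v := by
  rw [N_pr E.hJ E.hP E.le, E.hf, E.hf, E.hf, br_val E.hJ, br_val E.hJ, br_val E.hJ]
  have e1 : om J v b = 0 := by rw [om_swap E.hJ, hb.1, neg_zero]
  have e2 : om J x b = 0 := by rw [om_swap E.hJ, hb.2, neg_zero]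
  rw [e1, e2]
  simp only [zero_mul, mul_zero, add_zero]

theorem EG.ne {v : Fin n → F} (hv : f v v v v ≠ 0) : v ≠ 0 := by
  rintro rfl
  apply hv
  have := E.sf.smul 0 0 (0 : Fin n → F) 0 0
  rwa [zero_smul, zero_mul] at this

theorem EG.notMem {v x : Fin n → F} (hv : f v v v v ≠ 0) (hx : f v v v x = 0) (hx0 : x ≠ 0) :
    x ∉ Submodule.span F {v} := by
  intro h
  obtain ⟨c, rfl⟩ := Submodule.mem_span_singleton.1 h
  rw [E.sf.smul4] at hx
  have hc := (mul_eq_zero.1 hx).resolve_right hv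
  rw [hc, zero_smul] at hx0
  exact hx0 rfl

/-- the two relations -/
theorem EG.rel {v x : Fin n → F} (hv : f v v v v ≠ 0) (hvx : om J v x = 0) (hx : f v v v x = 0) :
    f v v v v * f x x x x = -3 * f v v x x ^ 2 ∧ f v v v v * f v x x x ^ 2 = -4 * f v v x x ^ 3 := by
  have hJ := E.hJ
  by_cases hx0 : x = 0
  · have h0 : ∀ a b c, f a b c 0 = 0 := by
      intro a b c
      have := E.sf.smul4 0 a b c (0 : Fin n → F)
      rwa [zero_smul, zero_mul] at this
    rw [hx0, h0, h0, h0]
    constructor <;> ring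
  have hv0 := E.ne hv
  have hxs := E.notMem hv hx hx0
  have hxv : om J x v = 0 := by rw [om_swap hJ, hvx, neg_zero]
  have hvv := om_self hJ v
  have hxx := om_self hJ x
  have h1 := E.N hvx (a := v) (b := v) ⟨hvv, hvx⟩ ⟨hvv, hvx⟩
  have h2 := E.N hvx (a := v) (b := x) ⟨hvv, hvx⟩ ⟨hxv, hxx⟩
  have h3 := E.N hvx (a := x) (b := x) ⟨hxv, hxx⟩ ⟨hxv, hxx⟩
  have s1 : f v x v x = f v v x x := by rw [E.sf.s23]
  have s2 : f v x v v = 0 := by rw [E.sf.s23, E.sf.s34, hx]
  have s3 : f x x v x = f v x x x := by rw [E.sf.s23, E.sf.s12]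
  have s4 : f x x v v = f v v x x := by rw [E.sf.s23, E.sf.s12, E.sf.s34, E.sf.s23]
  rw [hx] at h1
  rw [s1, s2] at h2
  rw [s3, s4] at h3
  have h4 := E.cube v x hvx (pr J v v) (Submodule.subset_span (by simp))
  set φ := f v v v v with hφ
  set q := f v v x x with hq
  set c' := f v x x x with hc
  set e := f x x x x with he
  set T := th (wd J v x) ∘ₗ P with hT
  have h5 : ((-q ^ 3 - 3 * φ * q * e + 2 * φ * c' ^ 2) / 64) • pr J v v + (0 : F) • pr J v x +
      ((-φ * (3 * q ^ 2 + φ * e)) / 64) • pr J x x = 0 := by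
    rw [← h4]
    simp only [h1, h2, h3, map_sub, map_smul]
    module
  obtain ⟨e1, -, e3⟩ := indep3 hJ E.hdet hv0 hxs h5
  have e4 : φ * (φ * e + 3 * q ^ 2) = 0 := by linear_combination -64 * e3
  have e5 := (mul_eq_zero.1 e4).resolve_left hv
  refine ⟨by linear_combination e5, ?_⟩
  linear_combination 32 * e1 + (3 / 2) * q * e5

/-- the vanishing of the form in the directions of an isotropic vector -/
theorem EG.van {v x y : Fin n → F} (hv : f v v v v ≠ 0) (hvx : om J v x = 0) (hx : f v v v x = 0)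
    (hvy : om J v y = 0) (hy : f v v v y = 0) (hq : f v v x x = 0) :
    f v v x y = 0 ∧ f v x x y = 0 ∧ f v x y y = 0 ∧ f x x y y = 0 := by
  have hf := E.sf
  obtain ⟨r1, r2⟩ := E.rel hv hvx hx
  rw [hq] at r1 r2
  have e0 : f x x x x = 0 := by
    have : f v v v v * f x x x x = 0 := by rw [r1]; ring
    exact (mul_eq_zero.1 this).resolve_left hv
  have c0 : f v x x x = 0 := by
    have : f v v v v * f v x x x ^ 2 = 0 := by rw [r2]; ring
    exact pow_eq_zero_iff two_ne_zero |>.1 ((mul_eq_zero.1 this).resolve_left hv)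
  have hxy : ∀ t : F, om J v (x + t • y) = 0 ∧ f v v v (x + t • y) = 0 := by
    intro t
    rw [om_add_right, om_smul_right, hvx, hvy, hf.add4, hf.smul4, hx, hy, mul_zero, add_zero]
    exact ⟨rfl, rfl⟩
  have R1 : ∀ t : F, f v v v v * (f x x x x + 4 * t * f x x x y + 6 * t ^ 2 * f x x y y +
      4 * t ^ 3 * f x y y y + t ^ 4 * f y y y y) = -3 * (f v v x x + 2 * t * f v v x y + t ^ 2 * f v v y y) ^ 2 := by
    intro t
    have h1 := (E.rel hv (hxy t).1 (hxy t).2).1
    rwa [hf.pow4, hf.pow2] at h1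
  have R2 : ∀ t : F, f v v v v * (f v x x x + 3 * t * f v x x y + 3 * t ^ 2 * f v x y y + t ^ 3 * f v y y y) ^ 2 =
      -4 * (f v v x x + 2 * t * f v v x y + t ^ 2 * f v v y y) ^ 3 := by
    intro t
    have h1 := (E.rel hv (hxy t).1 (hxy t).2).2
    rwa [hf.pow3, hf.pow2] at h1
  rw [e0, hq] at R1
  rw [c0, hq] at R2
  set φ := f v v v v with hφ
  set q1 := f v v x y with hq1
  set q2 := f v v y y with hq2
  set a := f v x x y with ha
  set b := f v x y y with hb
  set c := f v y y y with hc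
  have P2 := poly6 (c0 := 0) (c1 := 0) (c2 := 9 * φ * a ^ 2) (c3 := 18 * φ * a * b + 32 * q1 ^ 3)
    (c4 := φ * (9 * b ^ 2 + 6 * a * c) + 48 * q1 ^ 2 * q2) (c5 := 6 * φ * b * c + 24 * q1 * q2 ^ 2)
    (c6 := φ * c ^ 2 + 4 * q2 ^ 3) fun t => by
      linear_combination R2 t
  obtain ⟨-, -, p2, p3, p4, p5, p6⟩ := P2
  have ha0 : a = 0 := by
    have : φ * a ^ 2 = 0 := by linear_combination (1 / 9) * p2
    exact pow_eq_zero_iff two_ne_zero |>.1 ((mul_eq_zero.1 this).resolve_left hv)
  have hq10 : q1 = 0 := by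
    have : q1 ^ 3 = 0 := by
      rw [ha0] at p3
      linear_combination (1 / 32) * p3
    exact pow_eq_zero_iff three_ne_zero |>.1 this
  have hb0 : b = 0 := by
    have : φ * b ^ 2 = 0 := by
      rw [ha0, hq10] at p4
      linear_combination (1 / 9) * p4
    exact pow_eq_zero_iff two_ne_zero |>.1 ((mul_eq_zero.1 this).resolve_left hv)
  refine ⟨hq10, ha0, hb0, ?_⟩
  rw [hq10] at R1
  have P1 := poly6 (c0 := 0) (c1 := 4 * φ * f x x x y) (c2 := 6 * φ * f x x y y) (c3 := 4 * φ * f x y y y)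
    (c4 := φ * f y y y y + 3 * q2 ^ 2) (c5 := 0) (c6 := 0) fun t => by
      linear_combination R1 t
  have : φ * f x x y y = 0 := by linear_combination (1 / 6) * P1.2.2.1
  exact (mul_eq_zero.1 this).resolve_left hv

/-- the form is nondegenerate on the space of the vectors orthogonal to `v` -/
theorem EG.dual {v u : Fin n → F} (hv : f v v v v ≠ 0) (hvu : om J v u = 0) (hu : f v v v u = 0) (hu0 : u ≠ 0) :
    ∃ y, om J u y = 1 ∧ om J v y = 0 ∧ f v v v y = 0 := by
  obtain ⟨y, h1, h2⟩ := exists_sep E.hJ E.hdet (E.notMem hv hu hu0)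
  have huv : om J u v = 0 := by rw [om_swap E.hJ, hvu, neg_zero]
  refine ⟨(-1 : F) • y + (f v v v y / f v v v v) • v, ?_, ?_, ?_⟩
  · rw [om_add_right, om_smul_right, om_smul_right, huv, om_swap E.hJ, h1]
    ring
  · rw [om_add_right, om_smul_right, om_smul_right, om_swap E.hJ v y, h2, om_self E.hJ]
    ring
  · rw [E.sf.add4, E.sf.smul4, E.sf.smul4]
    field_simp
    ring

/-- an isotropic vector -/
theorem EG.iso [IsAlgClosed F] (hn : 3 ≤ n) {v : Fin n → F} (hv : f v v v v ≠ 0) :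
    ∃ u, u ≠ 0 ∧ om J v u = 0 ∧ f v v v u = 0 ∧ f v v u u = 0 := by
  obtain ⟨x, hx0, hvx, hx⟩ : ∃ x, x ≠ 0 ∧ om J v x = 0 ∧ f v v v x = 0 := by
    let L : (Fin n → F) →ₗ[F] (Fin 2 → F) :=
      { toFun := fun x => ![om J v x, f v v v x]
        map_add' := fun x y => by
          rw [om_add_right, E.sf.add4]
          ext i
          fin_cases i <;> rfl
        map_smul' := fun c x => by
          rw [om_smul_right, E.sf.smul4]
          ext i
          fin_cases i <;> rfl }
    have h1 : LinearMap.ker L ≠ ⊥ := LinearMap.ker_ne_bot_of_finrank_lt (by simp; omega)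
    obtain ⟨x, hx, hx0⟩ := Submodule.exists_mem_ne_zero_of_ne_bot h1
    have h2 : ![om J v x, f v v v x] = 0 := hx
    exact ⟨x, hx0, congrFun h2 0, congrFun h2 1⟩
  obtain ⟨y, hxy, hvy, hy⟩ := E.dual hv hvx hx hx0
  by_cases hq : f v v y y = 0
  · refine ⟨y, ?_, hvy, hy, hq⟩
    rintro rfl
    rw [om_zero_right] at hxy
    exact zero_ne_one hxy
  · obtain ⟨t, ht⟩ := exists_quadratic_eq_zero (a := f v v y y) (b := 2 * f v v x y) (c := f v v x x) hq
      (by
        obtain ⟨z, hz⟩ := IsAlgClosed.exists_pow_nat_eq (discrim (f v v y y) (2 * f v v x y) (f v v x x)) (n := 2) (by norm_num)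
        exact ⟨z, by rw [← hz, pow_two]⟩)
    refine ⟨x + t • y, ?_, ?_, ?_, ?_⟩
    · intro h0
      have h1 : om J (x + t • y) y = 1 := by rw [om_add_left, om_smul_left, om_self E.hJ, hxy]; ring
      rw [h0, om_zero_left] at h1
      exact zero_ne_one h1
    · rw [om_add_right, om_smul_right, hvx, hvy]
      ring
    · rw [E.sf.add4, E.sf.smul4, hx, hy]
      ring
    · rw [E.sf.pow2]
      linear_combination ht

/-- **the scalar is `0` or `1`** -/
theorem EG.lam01 [IsAlgClosed F] (hn : 3 ≤ n) {v : Fin n → F} (hv : f v v v v ≠ 0) : lam * (1 - lam) = 0 := by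
  have hJ := E.hJ
  have hf := E.sf
  obtain ⟨u, hu0, hvu, hu, hq⟩ := E.iso hn hv
  have hv0 := E.ne hv
  have hvv := om_self hJ v
  have huu := om_self hJ u
  have huv : om J u v = 0 := by rw [om_swap hJ, hvu, neg_zero]
  -- the vanishing on the hyperplane
  have hU : ∀ c d, (om J v c = 0 ∧ f v v v c = 0) → (om J v d = 0 ∧ f v v v d = 0) → f u u c d = 0 := by
    intro c d hc hd
    have h1 := (E.van hv hvu hu hc.1 hc.2 hq).2.2.2
    have h2 := (E.van hv hvu hu hd.1 hd.2 hq).2.2.2
    have h3 := (E.van hv hvu hu (y := c + d) (by rw [om_add_right, hc.1, hd.1, add_zero])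
      (by rw [hf.add4, hc.2, hd.2, add_zero]) hq).2.2.2
    rw [hf.add3, hf.add4, hf.add4, h1, h2, hf.s34 u u d c] at h3
    have h4 : (2 : F) * f u u c d = 0 := by linear_combination h3
    exact (mul_eq_zero.1 h4).resolve_left two_ne_zero
  have hH : ∀ c d, om J v c = 0 → om J v d = 0 → f u u c d = 0 := by
    intro c d hc hd
    have hdec : ∀ c, om J v c = 0 → ∃ (c' : Fin n → F) (s : F), c = c' + s • v ∧ om J v c' = 0 ∧ f v v v c' = 0 := by
      intro c hc
      refine ⟨c - (f v v v c / f v v v v) • v, f v v v c / f v v v v, by abel, ?_, ?_⟩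
      · rw [om_sub_right, om_smul_right, hc, hvv]
        ring
      · rw [sub_eq_add_neg, ← neg_smul, hf.add4, hf.smul4]
        field_simp
        ring
    obtain ⟨c', s, rfl, hc1, hc2⟩ := hdec c hc
    obtain ⟨d', t, rfl, hd1, hd2⟩ := hdec d hd
    rw [hf.add3, hf.add4, hf.add4, hf.smul3, hf.smul4, hf.smul3, hf.smul4, hU c' d' ⟨hc1, hc2⟩ ⟨hd1, hd2⟩]
    have e1 := (E.van hv hvu hu hc1 hc2 hq).2.1
    have e2 := (E.van hv hvu hu hd1 hd2 hq).2.1
    have e3 : f u u c' v = f v u u c' := by rw [hf.s34, hf.s23, hf.s12]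
    have e4 : f u u v d' = f v u u d' := by rw [hf.s23, hf.s12]
    have e5 : f u u v v = f v v u u := by rw [hf.s23, hf.s12, hf.s34, hf.s23]
    rw [e3, e4, e5, e1, e2, hq]
    ring
  -- the operator
  set A := P (pr J u u) - lam • pr J u u with hA
  have hAsp : A ∈ spS J := (spS J).sub_mem (E.le (E.hP.mem _)) ((spS J).smul_mem _ (pr_mem hJ u u))
  have hAf : ∀ c d, 2 * om J c (A *ᵥ d) = f u u c d := by
    intro c d
    rw [← tr_pr' hJ hAsp, hA, Matrix.sub_mul, Matrix.trace_sub, Matrix.smul_mul, Matrix.trace_smul, smul_eq_mul]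
    have := E.hf u u c d
    unfold Q br at this
    rw [this]
    ring
  obtain ⟨y', hy'⟩ := exists_nonorth hJ E.hdet hv0
  obtain ⟨y, hy⟩ : ∃ y, om J v y = 1 := ⟨(om J v y')⁻¹ • y', by rw [om_smul_right, inv_mul_cancel₀ hy']⟩
  obtain ⟨m, hm⟩ : ∃ m, A = pr J v m := by
    refine ⟨A *ᵥ y + (-(om J (A *ᵥ y) y) / 2) • v, ?_⟩
    have hw : ∀ w, om J v w = 0 → A *ᵥ w = om J (A *ᵥ y) w • v := by
      intro w hw
      have h1 : A *ᵥ w ∈ Submodule.span F {v} := by
        by_contra hcon
        obtain ⟨z, h2, h3⟩ := exists_sep hJ E.hdet hcon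
        have h4 := hAf z w
        rw [h2, hH z w (by rw [om_swap hJ, h3, neg_zero]) hw] at h4
        norm_num at h4
      obtain ⟨c, hc⟩ := Submodule.mem_span_singleton.1 h1
      have h2 : c = om J (A *ᵥ w) y := by rw [← hc, om_smul_left, hy, mul_one]
      rw [← hc, h2, skew hAsp, om_swap hJ w, neg_neg]
    apply mul_ext
    intro w
    have hw1 : w = (w + (-om J v w) • y) + om J v w • y := by module
    have hw2 : om J v (w + (-om J v w) • y) = 0 := by rw [om_add_right, om_smul_right, hy]; ring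
    set w' := w + (-om J v w) • y with hw'
    set t := om J v w with ht
    rw [hw1, mulVec_add, mulVec_smul, hw w' hw2, pr_mulVec]
    simp only [om_add_left, om_add_right, om_smul_left, om_smul_right, hw2, hy, hvv]
    module
  have hPuu : P (pr J u u) = lam • pr J u u + pr J v m := by rw [← hm, hA]; abel
  have hPvm : P (pr J v m) = ((1 - lam) * lam) • pr J u u + (1 - lam) • pr J v m := by
    have h1 := E.hP.idem E.hTN (pr J u u)
    rw [hPuu, map_add, map_smul, hPuu] at h1
    have h2 : P (pr J v m) = (lam • pr J u u + pr J v m) - lam • (lam • pr J u u + pr J v m) := by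
      rw [eq_sub_iff_add_eq, add_comm]
      exact h1
    rw [h2]
    module
  have huucd : ∀ c d, f u u c d = br J v m c d := by
    intro c d
    rw [← hAf, ← tr_pr' hJ hAsp, hm]
    rfl
  have hvmcd : ∀ c d, f v m c d = (1 - lam) * lam * br J u u c d + (1 - 2 * lam) * br J v m c d := by
    intro c d
    have h1 := E.hf v m c d
    have h2 : Q J P v m c d = (1 - lam) * lam * br J u u c d + (1 - lam) * br J v m c d := by
      unfold Q br
      rw [hPvm, Matrix.add_mul, Matrix.trace_add, Matrix.smul_mul, Matrix.smul_mul, Matrix.trace_smul,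
        Matrix.trace_smul, smul_eq_mul, smul_eq_mul]
    rw [h2] at h1
    linear_combination -h1
  have hmm := om_self hJ m
  -- (1)
  have s1 : om J v m = 0 := by
    have h1 := huucd v m
    have h2 := hvmcd u u
    have h3 : f v m u u = f u u v m := by rw [hf.s23, hf.s12, hf.s34, hf.s23]
    rw [h3, h1, br_val hJ, br_val hJ, br_val hJ, hmm, hvv, huu, hvu] at h2
    have h4 : om J v m * om J v m = 0 := by linear_combination (1 / 2) * h2
    exact mul_self_eq_zero.1 h4
  have smv : om J m v = 0 := by rw [om_swap hJ, s1, neg_zero]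
  -- (3)
  have s3 : f v v v m = 0 := by
    have h1 := hvmcd v v
    rw [br_val hJ, br_val hJ, hvv, huv, s1] at h1
    have h2 : f v m v v = f v v v m := by rw [hf.s23, hf.s34]
    rw [← h2, h1]
    ring
  -- (5)
  have s5 : f v v m m = 0 := by
    have h1 := hvmcd v m
    rw [br_val hJ, br_val hJ, hvv, huv, hvu, s1, hmm] at h1
    have h2 : f v m v m = f v v m m := by rw [hf.s23]
    rw [← h2, h1]
    ring
  obtain ⟨z, hz1, hz2, hz3⟩ := E.dual hv hvu hu hu0
  have h1 := (E.van hv s1 s3 hz2 hz3 s5).2.2.1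
  rw [hvmcd, br_val hJ, br_val hJ, hz1, hz2, om_swap hJ z u, hz1] at h1
  linear_combination (-1 / 4) * h1

end

end Pool.Agent.H936.SL
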