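import Pool.Agent.H936.SL.Cor3
import Pool.Agent.H936.SL.Lev2
import Pool.Graph.R_pool_sql_team_seeded_620a6dc7.Helper880_R3.Res

/-!
# The general theorem
-/

set_option autoImplicit false
set_option linter.unusedSectionVars false
set_option linter.unusedVariables false
set_option maxHeartbeats 400000

open Matrix Module Filter PowerSeries

namespace Pool.Agent.H936.SL

open Pool.Agent.Y113 (ev Cv GSys ps)
open Pool.Agent.Y120.GH (QU0)
open Pool.Agent.Y118.HV (Hv hh)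
open Pool.Agent.Helper880_LF (spS mem_spS comm_mem)
open Pool.Agent.Helper880_LF.NB (gm dm)
open Pool.Agent.Helper880_R3 (Ix ib Tot GU lieB Inf rel_all hder_seq)
open Pool.Agent.Y118.UL (mk U ev_ge)
open Pool.Agent.Y123.ST (fl um LL fl_um um_fl)
open Pool.Agent.TH127.PT (IsSubtorsor)
open Pool.Agent.Y119.HY (cm cm_pow cm_apply)
open Pool.Agent.Y119.HY renaming E → Ex
open Pool.Agent.Y102 (AbVar)

variable {n N r₀ g : ℕ}

theorem Ex_M0 (hn : 0 < n) (s : ℂ) : Ex (cm (0 : Matrix (Fin n) (Fin n) ℚ)) s = 1 := by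
  unfold Pool.Agent.Y119.HY.E
  rw [Pool.Agent.Y119.HY.cm_zero, Finset.sum_eq_single 0]
  · simp
  · intro b _ hb
    rw [zero_pow hb, smul_zero]
  · intro h
    exact absurd (Finset.mem_range.2 hn) h

theorem spS_trace {J X : Matrix (Fin n) (Fin n) ℂ} (hJ : IsUnit J.det) (hX : X ∈ spS J) : X.trace = 0 := by
  rw [mem_spS] at hX
  have h1 : Xᵀ = -(J * X * J⁻¹) := by
    calc Xᵀ = (Xᵀ * J) * J⁻¹ := by rw [Matrix.mul_assoc, Matrix.mul_nonsing_inv _ hJ, Matrix.mul_one]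
      _ = -(J * X) * J⁻¹ := by rw [eq_neg_of_add_eq_zero_left hX]
      _ = _ := by rw [Matrix.neg_mul]
  have h2 := congrArg Matrix.trace h1
  rw [Matrix.trace_transpose, Matrix.trace_neg, Matrix.mul_assoc, Matrix.trace_mul_comm, Matrix.mul_assoc,
    Matrix.nonsing_inv_mul _ hJ, Matrix.mul_one] at h2
  have h3 : (2 : ℂ) * X.trace = 0 := by linear_combination h2
  exact (mul_eq_zero.1 h3).resolve_left two_ne_zero

/-- from the symplectic Lie algebra on the Betti side to the de Rham side -/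
theorem conj_lieB {H : Matrix (Fin n) (Fin n) ℚ} (hH : IsUnit H.det) {B C : Matrix (Fin n) (Fin n) ℂ} (hC : IsUnit C.det)
    {θ : ℂ} (hB : C * B * Cᵀ = θ • cm H) {X : Matrix (Fin n) (Fin n) ℂ} (hX : X ∈ spS (cm H⁻¹)) :
    C⁻¹ * X * C ∈ lieB B := by
  have hHH : cm H * cm H⁻¹ = 1 := by rw [← Pool.Agent.Y119.HY.cm_mul, Matrix.mul_nonsing_inv _ hH, Pool.Agent.Y119.HY.cm_one]
  have hHH' : cm H⁻¹ * cm H = 1 := by rw [← Pool.Agent.Y119.HY.cm_mul, Matrix.nonsing_inv_mul _ hH, Pool.Agent.Y119.HY.cm_one]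
  have hJ : IsUnit (cm H⁻¹).det := by
    have h1 := congrArg Matrix.det hHH
    rw [Matrix.det_mul, Matrix.det_one] at h1
    exact IsUnit.of_mul_eq_one _ (by rw [mul_comm]; exact h1)
  have hCC : C⁻¹ * C = 1 := Matrix.nonsing_inv_mul _ hC
  have hCC' : C * C⁻¹ = 1 := Matrix.mul_nonsing_inv _ hC
  have hCt : Cᵀ * (C⁻¹)ᵀ = 1 := by rw [← transpose_mul, hCC, transpose_one]
  refine ⟨?_, ?_⟩
  · rw [Matrix.trace_mul_comm, ← Matrix.mul_assoc, hCC', Matrix.one_mul]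
    exact spS_trace hJ hX
  · rw [mem_spS] at hX
    have h1 : X * cm H + cm H * Xᵀ = 0 := by
      calc X * cm H + cm H * Xᵀ = cm H * (Xᵀ * cm H⁻¹ + cm H⁻¹ * X) * cm H := by
            rw [Matrix.mul_add, Matrix.add_mul]
            have e1 : cm H * (Xᵀ * cm H⁻¹) * cm H = cm H * Xᵀ := by
              calc cm H * (Xᵀ * cm H⁻¹) * cm H = cm H * Xᵀ * (cm H⁻¹ * cm H) := by simp only [Matrix.mul_assoc]
                _ = _ := by rw [hHH', Matrix.mul_one]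
            have e2 : cm H * (cm H⁻¹ * X) * cm H = X * cm H := by
              rw [← Matrix.mul_assoc, hHH, Matrix.one_mul]
            rw [e1, e2, add_comm]
        _ = 0 := by rw [hX, Matrix.mul_zero, Matrix.zero_mul]
    have h2 : C⁻¹ * X * C * B + B * (C⁻¹ * X * C)ᵀ = θ • (C⁻¹ * (X * cm H + cm H * Xᵀ) * (C⁻¹)ᵀ) := by
      have e1 : C⁻¹ * X * C * B = θ • (C⁻¹ * (X * cm H) * (C⁻¹)ᵀ) := by
        calc C⁻¹ * X * C * B = C⁻¹ * X * (C * B * (Cᵀ * (C⁻¹)ᵀ)) := by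
              rw [hCt, Matrix.mul_one]
              simp only [Matrix.mul_assoc]
          _ = C⁻¹ * X * (C * B * Cᵀ) * (C⁻¹)ᵀ := by simp only [Matrix.mul_assoc]
          _ = _ := by
            rw [hB]
            simp only [Matrix.mul_smul, Matrix.smul_mul, Matrix.mul_assoc]
      have e2 : B * (C⁻¹ * X * C)ᵀ = θ • (C⁻¹ * (cm H * Xᵀ) * (C⁻¹)ᵀ) := by
        rw [transpose_mul, transpose_mul]
        calc B * (Cᵀ * (Xᵀ * (C⁻¹)ᵀ)) = (C⁻¹ * C) * B * (Cᵀ * (Xᵀ * (C⁻¹)ᵀ)) := by rw [hCC, Matrix.one_mul]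
          _ = C⁻¹ * (C * B * Cᵀ) * (Xᵀ * (C⁻¹)ᵀ) := by simp only [Matrix.mul_assoc]
          _ = _ := by
            rw [hB]
            simp only [Matrix.mul_smul, Matrix.smul_mul, Matrix.mul_assoc]
      rw [e1, e2, ← smul_add, ← Matrix.add_mul, ← Matrix.mul_add]
    rw [h2, h1, Matrix.mul_zero, Matrix.zero_mul, smul_zero]

/-- **the general theorem** -/
theorem final2 (hg : 2 ≤ g) {Z : Matrix (Fin (2 * g)) (Fin (2 * g)) ℚ⟦X⟧} {T : Polynomial ℤ}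
    {A : Fin (2 * g * (2 * g)) → Fin (2 * g * (2 * g)) → Polynomial ℤ}
    (hT : T ≠ 0) (hode : ∀ i, ps T * d⁄dX ℚ (hh Z i) = ∑ j, ps (A i j) * hh Z j)
    {q' : ℕ} {C' : ℝ} (hG' : GSys q' C' T (hh Z)) (hqu : QU0 T A) :
    ∃ G0 : ℕ, ∀ G : ℕ, G0 ≤ G → ∀ (B : Matrix (Fin (2 * g)) (Fin (2 * g)) ℂ), (∀ X ∈ lieB B, Inf Z X) →
      ∀ (H : Matrix (Fin (2 * g)) (Fin (2 * g)) ℚ), Hᵀ = -H → IsUnit H.det →
      ∀ (N D r₀ : ℕ) (C₀ : Matrix (Fin r₀) (Fin r₀) ℂ) (C α : Matrix (Fin (2 * g)) (Fin (2 * g)) ℂ)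
      (θ : ℂ), C * B * Cᵀ = θ • cm H → Cst (cm H⁻¹) C α C₀ → IsUnit C.det → IsUnit C₀.det →
      ∃ E : ℕ, ∀ H' t : ℕ, (H' + 2) ^ E ≤ t → (∀ u ≤ H', G * u < t) ∧
      ∀ u : Fin N → ℕ, Function.Injective u → (∀ j, 1 ≤ u j ∧ u j ≤ H') →
      ∀ K : Subfield ℂ, FiniteDimensional ℚ K → finrank ℚ K ≤ D → ∀ S : Set (Matrix (Ix r₀ (2 * g) N) (Ix r₀ (2 * g) N) ℂ),
      IsSubtorsor K S → RatGrp S → Tot C₀ (fun j => C * Hv Z (t - G * u j)) ∈ S →
      (∀ j, ∃ (A : AbVar g) (R : Matrix (Fin (2 * g)) (Fin (2 * g)) ℚ), Pres A H (C * Hv Z (t - G * u j)) R) →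
      ∀ i, ∀ X ∈ spS (cm H⁻¹), ib (r₀ := r₀) i X ∈ Lm S := by
  classical
  obtain ⟨G0, hrel⟩ := rel_all hT hode hG' hqu
  refine ⟨G0, fun G hG B hI H hH hHd N D r₀ C₀ C α θ hB hc hC hC0 => ?_⟩
  obtain ⟨E0, hE0⟩ := hrel G hG N 0
  by_contra hcon
  simp only [not_exists, not_forall] at hcon
  have h1 : ∀ k : ℕ, ∃ (t : ℕ) (u : Fin N → ℕ) (K : Subfield ℂ) (S : Set (Matrix (Ix r₀ (2 * g) N) (Ix r₀ (2 * g) N) ℂ)),
      (∃ H' : ℕ, (H' + 2) ^ (E0 + k) ≤ t ∧ Function.Injective u ∧ (∀ j, 1 ≤ u j ∧ u j ≤ H')) ∧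
      (FiniteDimensional ℚ K ∧ finrank ℚ K ≤ D) ∧ IsSubtorsor K S ∧ RatGrp S ∧ Tot C₀ (fun j => C * Hv Z (t - G * u j)) ∈ S ∧
      (∀ j, ∃ (A : AbVar g) (R : Matrix (Fin (2 * g)) (Fin (2 * g)) ℚ), Pres A H (C * Hv Z (t - G * u j)) R) ∧
      ¬ ∀ i, ∀ X ∈ spS (cm H⁻¹), ib (r₀ := r₀) i X ∈ Lm S := by
    intro k
    by_contra hk
    obtain ⟨H', t, ht, hbad⟩ := hcon (E0 + k)
    refine hbad ⟨(hE0 H' t ((Nat.pow_le_pow_right (by omega) (by omega)).trans ht)).1, ?_⟩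
    intro u hu hu1 K hK hKD S hS hSr hmem hpres
    by_contra hcontra
    exact hk ⟨t, u, K, S, ⟨H', ht, hu, hu1⟩, ⟨hK, hKD⟩, hS, hSr, hmem, hpres, hcontra⟩
  choose t u K S hH' hK hS hSr hmem hpres hbad using h1
  choose H' hH1 hH2 hH3 using hH'
  choose Av Rv hAR using hpres
  set z : ℕ → Fin N → Matrix (Fin (2 * g)) (Fin (2 * g)) ℂ := fun k j => Hv Z (t k - G * u k j) with hz
  set μ : ℕ → Fin N → ℂ := fun k j => ((Real.log (1 - ((G * u k j : ℕ) : ℝ) / t k) : ℝ) : ℂ) with hμ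
  have hlt : ∀ k, ∀ v ≤ H' k, G * v < t k := fun k =>
    (hE0 (H' k) (t k) ((Nat.pow_le_pow_right (by omega) (by omega)).trans (hH1 k))).1
  have hM0 : (0 : Matrix (Fin (2 * g)) (Fin (2 * g)) ℚ) ^ (2 * g) = 0 := zero_pow (by omega)
  -- the derivations
  have hder : ∀ i, ∀ A ∈ GU (lieB B), ∃ δ : Derivation (U ℚ) (U ℂ) (U ℂ),
      dm δ (gm fun k => z k i) = A * (gm fun k => z k i) ∧ ∀ j, j ≠ i → dm δ (gm fun k => z k j) = 0 := by
    intro i A hA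
    have h2 := hder_seq (M := 0) (z := z) (μ := μ) hM0 (𝔤 := lieB B) (fun A _ => by
      rw [Pool.Agent.Y119.HY.cm_zero, Matrix.zero_mul, Matrix.mul_zero, sub_zero]
      exact (lieB B).zero_mem) (fun d => by
        obtain ⟨E, hE⟩ := hrel G hG N d
        filter_upwards [ev_ge E] with k hk Y hY P hPd hP s
        exact ((hE (H' k) (t k) ((Nat.pow_le_pow_right (by omega) (by omega)).trans (hH1 k))).2 (u k) (hH2 k) (hH3 k)).2 Y
          (fun j => hI _ (hY j)) P hPd hP s) i hA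
    have h3 : ∀ j, (fun k => Ex (cm (0 : Matrix (Fin (2 * g)) (Fin (2 * g)) ℚ)) (-(μ k j)) * z k j) = fun k => z k j := by
      intro j
      funext k
      rw [Ex_M0 (by omega), Matrix.one_mul]
    simp only [h3] at h2
    exact h2
  have hlev : ∀ k, Lev (K k) (Av k) H C₀ (fun j => C * z k j) (Rv k) (S k) := fun k =>
    { alg := by
        intro x hx
        have := (hK k).1
        have : NumberField (K k) := { to_charZero := inferInstance, to_finiteDimensional := (hK k).1 }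
        have h6 : IsAlgebraic ℚ (⟨x, hx⟩ : K k) := Algebra.IsAlgebraic.isAlgebraic _
        exact h6.algebraMap (A := ℂ)
      tor := hS k
      rat := hSr k
      mem := hmem k
      pres := hAR k
      det := hHd }
  have hz0 : ∀ k j, (z k j).det ≠ 0 := by
    intro k j
    have h1 := (Pool.Agent.Helper880_R3.Tot_unit ((hS k).isUnit _ (hmem k))).2 j
    have h2 := (Matrix.isUnit_iff_isUnit_det _).1 h1
    rw [Matrix.det_mul] at h2
    exact (isUnit_of_mul_isUnit_right h2).ne_zero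
  have hmain := core2 (by omega) hc hC hC0 (fun X hX => conj_lieB hHd hC hB hX) hz0 hder (fun k => (hK k).1) (fun k => (hK k).2)
    hS hmem (fun k j => (hlev k).TN hH j) (fun k j => (hlev k).ne (by omega) j)
  obtain ⟨k, hk⟩ := hmain.exists
  exact hbad k hk

end Pool.Agent.H936.SL
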