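import Pool.Agent.H936.SL.Tr

/-!
# The theorem for the skew operators whose square is scalar
-/

set_option autoImplicit false
set_option linter.unusedSectionVars false
set_option linter.unusedVariables false

open Matrix Module

namespace Pool.Agent.H936.SL

open Pool.Agent.Helper880_LF

variable {F : Type} [Field F] {n : ℕ} {J : Matrix (Fin n) (Fin n) F} [CharZero F]

/-- skew operators -/
def Sk (J : Matrix (Fin n) (Fin n) F) (α : Mn n F) : Prop := ∀ u v, om J (α *ᵥ u) v = -om J u (α *ᵥ v)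

variable (hJ : Jᵀ = -J) (hdet : IsUnit J.det)
include hJ

theorem Sk.conj {α : Mn n F} (hα : Sk J α) {g h : Mn n F} (hg : Gm J g h) : Sk J (g * α * h) := by
  intro u v
  obtain ⟨e1, e2⟩ := hg.inv hJ
  have hu : u = g *ᵥ (h *ᵥ u) := by rw [mulVec_mulVec, e1, one_mulVec]
  have hv : v = g *ᵥ (h *ᵥ v) := by rw [mulVec_mulVec, e1, one_mulVec]
  have k1 : ∀ w, (g * α * h) *ᵥ w = g *ᵥ (α *ᵥ (h *ᵥ w)) := by
    intro w
    rw [← mulVec_mulVec, ← mulVec_mulVec]
  rw [k1, k1]
  conv_lhs => rw [hv]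
  conv_rhs => rw [hu]
  rw [hg.om hJ, hg.om hJ, hα]

theorem orbit_line_K {α : Mn n F} (hα : Sk J α) {g h : Mn n F} (hg : Gm J g h) {u v : Fin n → F}
    (huv : om J u v = 0) (hv : (g * α * h) *ᵥ u = v) (r : F) :
    (1 + r • sq J u) * g * α * (h * (1 - r • sq J u)) = g * α * h + (-r) • pr J u v := by
  set β := g * α * h with hβ
  have hs := hα.conj hJ hg
  rw [← hβ] at hs
  have h1 : (1 + r • sq J u) * g * α * (h * (1 - r • sq J u)) = (1 + r • sq J u) * β * (1 - r • sq J u) := by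
    rw [hβ]
    simp only [Matrix.mul_assoc]
  rw [h1]
  apply mul_ext
  intro w
  have e1 : (1 - r • sq J u) *ᵥ w = w - (r * om J u w) • u := by
    rw [sub_mulVec, one_mulVec, smul_mulVec, sq_mulVec, smul_smul]
  have e2 : β *ᵥ (w - (r * om J u w) • u) = β *ᵥ w - (r * om J u w) • v := by
    rw [mulVec_sub, mulVec_smul, hv]
  rw [← mulVec_mulVec, ← mulVec_mulVec, e1, e2, add_mulVec, one_mulVec, smul_mulVec, sq_mulVec, add_mulVec,
    smul_mulVec, pr_mulVec]
  have e3 : om J u (β *ᵥ w - (r * om J u w) • v) = -om J v w := by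
    rw [om_sub_right, om_smul_right, huv, mul_zero, sub_zero, ← hv, hs, neg_neg]
  rw [e3]
  module

include hdet

/-- **invariant functions vanish on the products of isotropic pairs** -/
theorem cor_K {α : Mn n F} (hα : Sk J α) (hns : ∃ w, α *ᵥ w ∉ Submodule.span F {w} ∧ om J w (α *ᵥ w) = 0)
    {Ψ : Pf n F} {d : ℕ} (hd : 1 ≤ d) (hh : Hm d Ψ) (hdec : Dec (spS J) Ψ α) {u v : Fin n → F} (hu : u ≠ 0)
    (hv : v ∉ Submodule.span F {u}) (huv : om J u v = 0) : ev (pr J u v) Ψ = 0 := by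
  obtain ⟨w₀, hw₀, hiso⟩ := hns
  have hw0 : w₀ ≠ 0 := by
    rintro rfl
    rw [mulVec_zero] at hw₀
    exact hw₀ (Submodule.zero_mem _)
  obtain ⟨g, h, hg, e1, e2⟩ := trans3 hJ hdet hw0 hu hw₀ hv hiso huv
  have hβ : (g * α * h) *ᵥ u = v := by
    rw [← e1, mulVec_mulVec, Matrix.mul_assoc, (hg.inv hJ).2, Matrix.mul_one, ← mulVec_mulVec, e2]
  refine zero_of_line hd hh (β := g * α * h) (c := ev α Ψ) fun r => ?_
  have h1 := orbit_line_K hJ hα hg huv hβ (-r)
  rw [neg_neg] at h1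
  rw [← h1]
  exact orbit hJ (hg.step u (-r)) hdec

omit hdet in
theorem th_pr {X : Mn n F} (hX : X ∈ spS J) (u v : Fin n → F) : th (pr J u v) X =
    om J u (X *ᵥ v) • pr J u v + (om J u (X *ᵥ u) / 2) • pr J v v + (om J v (X *ᵥ v) / 2) • pr J u u := by
  apply mul_ext
  intro w
  have h1 : om J v (X *ᵥ u) = om J u (X *ᵥ v) := by rw [om_swap hJ v, skew hX, neg_neg]
  rw [th_apply, ← mulVec_mulVec, ← mulVec_mulVec, pr_mulVec, pr_mulVec, mulVec_add, mulVec_smul, mulVec_smul,
    add_mulVec, add_mulVec, smul_mulVec, smul_mulVec, smul_mulVec, pr_mulVec, pr_mulVec, pr_mulVec, om_add_right,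
    om_add_right, om_smul_right, om_smul_right, om_smul_right, om_smul_right, h1]
  module

omit hdet in
theorem Np_tr {𝔩 : Submodule F (Mn n F)} {P : Mn n F →ₗ[F] Mn n F} (hP : IsPr 𝔩 P) (hle : 𝔩 ≤ spS J)
    (u v : Fin n → F) : LinearMap.trace F _ (th (pr J u v) ∘ₗ P) = (Q J P u v u v + Q J P u u v v) / 2 := by
  let φ : (Fin n → F) → (Fin n → F) → (Mn n F →ₗ[F] F) := fun a b =>
    { toFun := fun X => Matrix.trace (P X * pr J a b)
      map_add' := fun X Y => by rw [map_add, Matrix.add_mul, Matrix.trace_add]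
      map_smul' := fun c X => by rw [map_smul, Matrix.smul_mul, Matrix.trace_smul]; rfl }
  have h1 : th (pr J u v) ∘ₗ P = (φ u v).smulRight ((1 / 2 : F) • pr J u v) + (φ u u).smulRight ((1 / 4 : F) • pr J v v) +
      (φ v v).smulRight ((1 / 4 : F) • pr J u u) := by
    apply LinearMap.ext
    intro X
    rw [LinearMap.comp_apply, th_pr hJ (hle (hP.mem _))]
    show _ = (Matrix.trace (P X * pr J u v)) • ((1 / 2 : F) • pr J u v) +
      (Matrix.trace (P X * pr J u u)) • ((1 / 4 : F) • pr J v v) +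
      (Matrix.trace (P X * pr J v v)) • ((1 / 4 : F) • pr J u u)
    rw [tr_pr' hJ (hle (hP.mem _)), tr_pr' hJ (hle (hP.mem _)), tr_pr' hJ (hle (hP.mem _)), smul_smul, smul_smul, smul_smul]
    module
  rw [h1, map_add, map_add, LinearMap.trace_smulRight, LinearMap.trace_smulRight, LinearMap.trace_smulRight, map_smul,
    map_smul, map_smul]
  show (1 / 2 : F) * Matrix.trace (P (pr J u v) * pr J u v) + (1 / 4 : F) * Matrix.trace (P (pr J v v) * pr J u u) +
    (1 / 4 : F) * Matrix.trace (P (pr J u u) * pr J v v) = _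
  have h2 : Matrix.trace (P (pr J v v) * pr J u u) = Matrix.trace (P (pr J u u) * pr J v v) := Q_swap hJ hP v v u u
  rw [h2]
  unfold Q
  ring

/-- operators all of whose vectors are eigenvectors -/
theorem scalar_of {m : Mn n F} (h2 : ∀ u, m *ᵥ u ∈ Submodule.span F {u}) : ∃ ν : F, ∀ u, m *ᵥ u = ν • u := by
  choose c hc using fun u => Submodule.mem_span_singleton.1 (h2 u)
  by_cases hn : ∀ u : Fin n → F, u = 0
  · exact ⟨0, fun u => by rw [hn u, mulVec_zero, smul_zero]⟩
  push Not at hn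
  obtain ⟨u₀, hu₀⟩ := hn
  refine ⟨c u₀, fun u => ?_⟩
  by_cases hu : u ∈ Submodule.span F {u₀}
  · obtain ⟨r, rfl⟩ := Submodule.mem_span_singleton.1 hu
    rw [mulVec_smul, ← hc u₀, smul_comm]
  · have e1 : c (u + u₀) • (u + u₀) = c u • u + c u₀ • u₀ := by rw [hc, hc, hc, mulVec_add]
    have e2 : (c (u + u₀) - c u) • u = (c u₀ - c (u + u₀)) • u₀ := by
      rw [sub_smul, sub_smul, sub_eq_sub_iff_add_eq_add, ← smul_add, e1]
      abel
    have e3 : c (u + u₀) - c u = 0 := by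
      by_contra h0
      apply hu
      refine Submodule.mem_span_singleton.2 ⟨(c (u + u₀) - c u)⁻¹ * (c u₀ - c (u + u₀)), ?_⟩
      rw [mul_smul, ← e2, smul_smul, inv_mul_cancel₀ h0, one_smul]
    rw [e3, zero_smul] at e2
    have e4 : c u₀ - c (u + u₀) = 0 := (smul_eq_zero.1 e2.symm).resolve_right hu₀
    rw [← hc u, sub_eq_zero.1 e4, ← sub_eq_zero.1 e3]

/-- an isotropic vector which is not an eigenvector -/
theorem exists_w [IsAlgClosed F] (hn : 3 ≤ n) {D : Mn n F} (hD : Sk J D) {c : F} (hc : c ≠ 0)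
    (hDD : ∀ v, D *ᵥ (D *ᵥ v) = c • v) : ∃ w, D *ᵥ w ∉ Submodule.span F {w} ∧ om J w (D *ᵥ w) = 0 := by
  obtain ⟨μ, hμ⟩ := IsAlgClosed.exists_pow_nat_eq c (n := 2) (by norm_num)
  have hμ0 : μ ≠ 0 := by
    rintro rfl
    exact hc (by rw [← hμ]; ring)
  -- it is enough to find orthogonal eigenvectors
  have hkey : ∀ a b : Fin n → F, a ≠ 0 → b ≠ 0 → D *ᵥ a = μ • a → D *ᵥ b = (-μ) • b → om J a b = 0 →
      ∃ w, D *ᵥ w ∉ Submodule.span F {w} ∧ om J w (D *ᵥ w) = 0 := by
    intro a b ha hb hDa hDb hab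
    refine ⟨a + b, fun hcon => ?_, ?_⟩
    · obtain ⟨s, hs⟩ := Submodule.mem_span_singleton.1 hcon
      rw [mulVec_add, hDa, hDb] at hs
      have h1 : (μ - s) • a = (μ + s) • b := by
        have : (μ - s) • a - (μ + s) • b = (μ • a + (-μ) • b) - s • (a + b) := by module
        rw [← sub_eq_zero, this, hs, sub_self]
      have h2 := congrArg (fun v => D *ᵥ v) h1
      simp only [mulVec_smul, hDa, hDb] at h2
      have h3 : (2 * μ * (μ - s)) • a = 0 := by
        have e1 : (2 * μ * (μ - s)) • a = (μ - s) • μ • a + μ • ((μ - s) • a) := by module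
        rw [e1, h2, h1]
        module
      have h4 := (mul_eq_zero.1 ((smul_eq_zero.1 h3).resolve_right ha)).resolve_left (mul_ne_zero two_ne_zero hμ0)
      rw [h4, zero_smul] at h1
      have h5 := (smul_eq_zero.1 h1.symm).resolve_right hb
      have h6 : 2 * μ = 0 := by linear_combination h4 + h5
      exact mul_ne_zero two_ne_zero hμ0 h6
    · rw [mulVec_add, hDa, hDb, om_add_left, om_add_right, om_add_right, om_smul_right, om_smul_right, om_smul_right,
        om_smul_right, om_self hJ, om_self hJ, hab, om_swap hJ b a, hab]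
      ring
  by_contra hcon
  have hno : ∀ a b : Fin n → F, a ≠ 0 → b ≠ 0 → D *ᵥ a = μ • a → D *ᵥ b = (-μ) • b → om J a b ≠ 0 :=
    fun a b ha hb hDa hDb hab => hcon (hkey a b ha hb hDa hDb hab)
  have hp : ∀ w, D *ᵥ (w + μ⁻¹ • (D *ᵥ w)) = μ • (w + μ⁻¹ • (D *ᵥ w)) := by
    intro w
    rw [mulVec_add, mulVec_smul, hDD, ← hμ, smul_add, smul_smul, smul_smul, mul_inv_cancel₀ hμ0, one_smul, pow_two,
      ← mul_assoc, inv_mul_cancel₀ hμ0, one_mul, add_comm]
  have hm : ∀ w, D *ᵥ (w - μ⁻¹ • (D *ᵥ w)) = (-μ) • (w - μ⁻¹ • (D *ᵥ w)) := by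
    intro w
    rw [mulVec_sub, mulVec_smul, hDD, ← hμ, smul_sub, smul_smul, smul_smul, neg_mul, mul_inv_cancel₀ hμ0, neg_smul,
      neg_smul, one_smul, pow_two, ← mul_assoc, inv_mul_cancel₀ hμ0, one_mul]
    abel
  have hsk : ∀ ε : F, ε ≠ 0 → ¬ ∀ w, D *ᵥ w = ε • w := by
    intro ε hε h
    have h0 : 0 < n := by omega
    have hu0 : (ei ⟨0, h0⟩ : Fin n → F) ≠ 0 := by
      intro h
      have := congrFun h ⟨0, h0⟩
      unfold ei at this
      simp at this
    obtain ⟨y, hy⟩ := exists_nonorth hJ hdet hu0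
    have h1 := hD (ei ⟨0, h0⟩) y
    rw [h, h, om_smul_left, om_smul_right] at h1
    have h2 : 2 * ε * om J (ei ⟨0, h0⟩) y = 0 := by linear_combination h1
    exact mul_ne_zero (mul_ne_zero two_ne_zero hε) hy h2
  obtain ⟨a₁, ha₁, hDa₁⟩ : ∃ a, a ≠ 0 ∧ D *ᵥ a = μ • a := by
    by_contra hcon
    push Not at hcon
    refine hsk (-μ) (neg_ne_zero.2 hμ0) fun w => ?_
    have h1 : w + μ⁻¹ • (D *ᵥ w) = 0 := by
      by_contra h0
      exact hcon _ h0 (hp w)
    have h2 : μ • (w + μ⁻¹ • (D *ᵥ w)) = 0 := by rw [h1, smul_zero]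
    rw [smul_add, smul_smul, mul_inv_cancel₀ hμ0, one_smul] at h2
    rw [neg_smul, eq_neg_iff_add_eq_zero, add_comm]
    exact h2
  obtain ⟨b₁, hb₁, hDb₁⟩ : ∃ b, b ≠ 0 ∧ D *ᵥ b = (-μ) • b := by
    by_contra hcon
    push Not at hcon
    refine hsk μ hμ0 fun w => ?_
    have h1 : w - μ⁻¹ • (D *ᵥ w) = 0 := by
      by_contra h0
      exact hcon _ h0 (hm w)
    have h2 : μ • (w - μ⁻¹ • (D *ᵥ w)) = 0 := by rw [h1, smul_zero]
    rw [smul_sub, smul_smul, mul_inv_cancel₀ hμ0, one_smul] at h2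
    exact (sub_eq_zero.1 h2).symm
  have h1 := hno a₁ b₁ ha₁ hb₁ hDa₁ hDb₁
  have hall : ∀ w : Fin n → F, w ∈ Submodule.span F ({a₁, b₁} : Set (Fin n → F)) := by
    intro w
    have hA : ∀ a, D *ᵥ a = μ • a → a ∈ Submodule.span F ({a₁, b₁} : Set (Fin n → F)) := by
      intro a hDa
      have h2 : om J a₁ b₁ • a - om J a b₁ • a₁ = 0 := by
        by_contra h0
        refine hno _ b₁ h0 hb₁ ?_ hDb₁ ?_
        · rw [mulVec_sub, mulVec_smul, mulVec_smul, hDa, hDa₁]
          module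
        · rw [om_sub_left, om_smul_left, om_smul_left]
          ring
      have h3 : a = ((om J a₁ b₁)⁻¹ * om J a b₁) • a₁ := by
        rw [mul_smul, ← sub_eq_zero.1 h2, smul_smul, inv_mul_cancel₀ h1, one_smul]
      rw [h3]
      exact Submodule.smul_mem _ _ (Submodule.subset_span (by simp))
    have hB : ∀ b, D *ᵥ b = (-μ) • b → b ∈ Submodule.span F ({a₁, b₁} : Set (Fin n → F)) := by
      intro b hDb
      have h2 : om J a₁ b₁ • b - om J a₁ b • b₁ = 0 := by
        by_contra h0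
        refine hno a₁ _ ha₁ h0 hDa₁ ?_ ?_
        · rw [mulVec_sub, mulVec_smul, mulVec_smul, hDb, hDb₁]
          module
        · rw [om_sub_right, om_smul_right, om_smul_right]
          ring
      have h3 : b = ((om J a₁ b₁)⁻¹ * om J a₁ b) • b₁ := by
        rw [mul_smul, ← sub_eq_zero.1 h2, smul_smul, inv_mul_cancel₀ h1, one_smul]
      rw [h3]
      exact Submodule.smul_mem _ _ (Submodule.subset_span (by simp))
    have h2 := Submodule.add_mem _ (hA _ (hp w)) (hB _ (hm w))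
    have h3 : w + μ⁻¹ • (D *ᵥ w) + (w - μ⁻¹ • (D *ᵥ w)) = (2 : F) • w := by module
    rw [h3] at h2
    exact (Submodule.smul_mem_iff _ two_ne_zero).1 h2
  classical
  have h2 : (⊤ : Submodule F (Fin n → F)) = Submodule.span F ({a₁, b₁} : Set (Fin n → F)) :=
    (eq_top_iff.2 fun w _ => hall w).symm
  have h3 : finrank F (Submodule.span F (({a₁, b₁} : Finset (Fin n → F)) : Set (Fin n → F))) ≤
      ({a₁, b₁} : Finset (Fin n → F)).card := finrank_span_finset_le_card _
  have h4 : (({a₁, b₁} : Finset (Fin n → F)) : Set (Fin n → F)) = {a₁, b₁} := by simp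
  rw [h4, ← h2, finrank_top, Module.finrank_fin_fun] at h3
  have h5 : ({a₁, b₁} : Finset (Fin n → F)).card ≤ 2 := Finset.card_le_two
  omega

/-- **the theorem for the skew operators with scalar square** -/
theorem thm_K [IsAlgClosed F] (hn : 3 ≤ n) {𝔩 : Submodule F (Mn n F)} (hTN : TN 𝔩)
    (hle : 𝔩 ≤ spS J) {D : Mn n F} (hD : Sk J D) {c : F} (hc : c ≠ 0) (hDD : ∀ v, D *ᵥ (D *ᵥ v) = c • v)
    (hdec : ∀ X ∈ spS J, ∃ Z B, X = Z + B ∧ Z ∈ spS J ∧ (∀ Y ∈ 𝔩, Z * Y - Y * Z ∈ 𝔩) ∧ B * D = D * B) :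
    𝔩 = ⊥ ∨ 𝔩 = spS J := by
  obtain ⟨P, hP⟩ := exists_proj hTN
  have H : Fac J 𝔩 P D := ⟨hTN, hP, hle, hdec⟩
  have hw := exists_w hJ hdet hn hD hc hDD
  -- the first relation
  have h1 : ∀ u v, u ≠ 0 → v ∉ Submodule.span F {u} → om J u v = 0 → Q J P u v u v + Q J P u u v v = 0 := by
    intro u v hu hv huv
    have h2 := cor_K hJ hdet hD hw (Ψ := Ps P 1) (d := 2) (by norm_num) (fun β r => hom_Ps P 1 β r) (H.decPs 1) hu hv huv
    rw [ev_Ps, pow_one, LinearMap.trace_comp_comm', Np_tr hJ hP hle] at h2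
    linear_combination 2 * h2
  have hQ4 : ∀ u, Q J P u u u u = 0 := by
    intro u
    by_cases hu : u = 0
    · rw [hu]
      have := Q_smul1 (J := J) P 0 0 (0 : Fin n → F) 0 0
      rwa [zero_smul, zero_mul] at this
    -- an independent isotropic partner
    obtain ⟨v, huv, hv⟩ : ∃ v, om J u v = 0 ∧ v ∉ Submodule.span F {u} := by
      by_contra hcon
      push Not at hcon
      let L : (Fin n → F) →ₗ[F] F :=
        { toFun := fun v => om J u v
          map_add' := fun v w => om_add_right _ _ _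
          map_smul' := fun c v => om_smul_right _ _ _ }
      have h2 : LinearMap.ker L ≤ Submodule.span F {u} := fun v hv => hcon v hv
      have h3 := Submodule.finrank_mono h2
      have h4 := finrank_span_le_card (R := F) ({u} : Set (Fin n → F))
      have h5 := LinearMap.finrank_range_add_finrank_ker L
      have h6 : finrank F (LinearMap.range L) ≤ 1 := by
        have := Submodule.finrank_le (LinearMap.range L)
        simpa using this
      rw [Module.finrank_fin_fun] at h5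
      simp at h4
      omega
    have h2 : ∀ t : F, t ≠ 0 → Q J P u (u + t • v) u (u + t • v) + Q J P u u (u + t • v) (u + t • v) = 0 := by
      intro t ht
      refine h1 u (u + t • v) hu ?_ (by rw [om_add_right, om_smul_right, huv, om_self hJ]; ring)
      intro h3
      apply hv
      have h4 := Submodule.sub_mem _ h3 (Submodule.mem_span_singleton_self u)
      rw [add_sub_cancel_left] at h4
      exact (Submodule.smul_mem_iff _ ht).1 h4
    simp only [Q_add2, Q_add3, Q_add4, Q_smul2, Q_smul3, Q_smul4] at h2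
    have e1 := h2 1 one_ne_zero
    have e2 := h2 (-1) (by norm_num)
    have e3 := h2 2 two_ne_zero
    linear_combination (1 / 2) * e1 + (1 / 6) * e2 - (1 / 6) * e3
  have hQ2 : ∀ u v, Q J P u v u v = -(1 / 2) * Q J P u u v v := by
    intro u v
    have e1 := hQ4 (u + v)
    have e2 := hQ4 (u + (-1 : F) • v)
    have e3 := hQ4 u
    have e4 := hQ4 v
    simp only [Q_add1, Q_add2, Q_add3, Q_add4, Q_smul1, Q_smul2, Q_smul3, Q_smul4] at e1 e2
    have s1 : Q J P u v v u = Q J P u v u v := by rw [Q_s34]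
    have s2 : Q J P v u u v = Q J P u v u v := by rw [Q_s12]
    have s3 : Q J P v u v u = Q J P u v u v := by rw [Q_s12, Q_s34]
    have s4 : Q J P v v u u = Q J P u u v v := by rw [Q_swap hJ hP]
    rw [s1, s2, s3, s4] at e1 e2
    linear_combination (1 / 8) * e1 + (1 / 8) * e2 - (1 / 4) * e3 - (1 / 4) * e4
  have hK : ∀ u v, om J u v = 0 → Kf J P u v = 0 := by
    intro u v huv
    unfold Kf
    rw [hQ2]
    by_cases hu : u = 0
    · rw [hu]
      have e1 : Q J P 0 0 v v = 0 := by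
        have := Q_smul1 (J := J) P 0 0 (0 : Fin n → F) v v
        rwa [zero_smul, zero_mul] at this
      rw [e1]
      ring
    by_cases hv : v ∈ Submodule.span F {u}
    · obtain ⟨r, rfl⟩ := Submodule.mem_span_singleton.1 hv
      rw [Q_smul3, Q_smul4, hQ4]
      ring
    · have h2 := h1 u v hu hv huv
      rw [hQ2] at h2
      linear_combination 3 * h2
  obtain ⟨m, hm, hmS⟩ := division hJ hP hdet hK
  have hQ3 : ∀ u v, Q J P u u v v = (2 / 3) * (om J u v * om J (m *ᵥ u) v) := by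
    intro u v
    have h2 := hm u v
    unfold Kf at h2
    rw [hQ2] at h2
    linear_combination (2 / 3) * h2
  set m₁ : Mn n F := (-(1 / 6) : F) • m with hm₁
  have hm₁v : ∀ u, m₁ *ᵥ u = (-(1 / 6) : F) • (m *ᵥ u) := fun u => smul_mulVec _ _ _
  have hPuu : ∀ u, P (pr J u u) = pr J u (m₁ *ᵥ u) := by
    intro u
    have h2 : ∀ v, Matrix.trace (P (pr J u u) * pr J v v) = Matrix.trace (pr J u (m₁ *ᵥ u) * pr J v v) := by
      intro v
      have e1 := hQ3 u v
      have e2 := br_val hJ u (m₁ *ᵥ u) v v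
      unfold br at e2
      unfold Q at e1
      rw [e1, e2, hm₁v, om_smul_right, om_swap hJ v]
      ring
    refine spS_ext hJ hdet (hle (hP.mem _)) (pr_mem hJ _ _) fun c d => ?_
    have e1 := h2 (c + d)
    rw [pr_add_left, pr_add_right, pr_add_right, pr_symm d c] at e1
    simp only [Matrix.mul_add, Matrix.trace_add] at e1
    rw [h2 c, h2 d] at e1
    have e2 : (2 : F) * (Matrix.trace (P (pr J u u) * pr J c d) - Matrix.trace (pr J u (m₁ *ᵥ u) * pr J c d)) = 0 := by
      linear_combination e1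
    exact sub_eq_zero.1 ((mul_eq_zero.1 e2).resolve_left two_ne_zero)
  have hPuv : ∀ u v, (2 : F) • P (pr J u v) = pr J u (m₁ *ᵥ v) + pr J v (m₁ *ᵥ u) := by
    intro u v
    have e1 := hPuu (u + v)
    rw [pr_add_left, pr_add_right, pr_add_right, pr_symm v u, map_add, map_add, map_add, hPuu, hPuu, mulVec_add,
      pr_add_left, pr_add_right, pr_add_right] at e1
    have e2 : (2 : F) • P (pr J u v) = (pr J u (m₁ *ᵥ u) + P (pr J u v) + (P (pr J u v) + pr J v (m₁ *ᵥ v))) -
        pr J u (m₁ *ᵥ u) - pr J v (m₁ *ᵥ v) := by module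
    rw [e2, e1]
    abel
  have hmem : ∀ u, m₁ *ᵥ u ∈ Submodule.span F {u} := by
    intro u
    by_contra hcon
    obtain ⟨w, hw1, hw2⟩ := exists_sep hJ hdet hcon
    have e1 := hP.idem hTN (pr J u u)
    rw [hPuu] at e1
    have e2 := hPuv u (m₁ *ᵥ u)
    rw [e1] at e2
    have e3 := congrArg (fun X : Mn n F => X *ᵥ w) e2
    have w1 : om J (m₁ *ᵥ u) w = -1 := by rw [om_swap hJ, hw1]
    have w2 : om J u w = 0 := by rw [om_swap hJ, hw2, neg_zero]
    simp only [add_mulVec, smul_mulVec, pr_mulVec, w1, w2] at e3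
    apply hcon
    refine Submodule.mem_span_singleton.2 ⟨(1 / 2) * (om J (m₁ *ᵥ (m₁ *ᵥ u)) w + 2), ?_⟩
    set y := m₁ *ᵥ u with hy
    set s := om J (m₁ *ᵥ y) w with hs
    have e4 : ((1 / 2) * (s + 2)) • u = y := by
      have e5 : ((1 / 2) * (s + 2)) • u - y = (1 / 2 : F) • ((s • u + (0 : F) • m₁ *ᵥ y + ((-1 : F) • y + (-1 : F) • y)) -
          (2 : F) • ((-1 : F) • u + (0 : F) • y)) := by module
      rw [← sub_eq_zero, e5, e3, sub_self, smul_zero]
    exact e4
  obtain ⟨κ, hκ⟩ := scalar_of hJ hdet hmem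
  have hQbr : ∀ a b c d, Q J P a b c d = κ * br J a b c d := by
    intro a b c d
    have e1 := hPuv a b
    rw [hκ, hκ, pr_smul_right, pr_smul_right, pr_symm b a, ← smul_add, ← two_smul F (pr J a b), smul_smul] at e1
    have e2 : P (pr J a b) = κ • pr J a b := by
      have e3 := congrArg (fun X : Mn n F => (2 : F)⁻¹ • X) e1
      simp only [smul_smul] at e3
      rw [inv_mul_cancel₀ two_ne_zero, one_smul, mul_comm κ 2, ← mul_assoc, inv_mul_cancel₀ two_ne_zero, one_mul] at e3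
      exact e3
    unfold Q br
    rw [e2, Matrix.smul_mul, Matrix.trace_smul, smul_eq_mul]
  refine dim_eq hJ hdet hTN hP hle (f := fun _ _ _ _ => 0) (lam := κ) ⟨?_, ?_, ?_, ?_, ?_⟩ ?_ ?_
  · intros; ring
  · intros; ring
  · intros; rfl
  · intros; rfl
  · intros; rfl
  · intro a b c d
    rw [hQbr, zero_add]
  · exact lam_of_zero hJ hdet (by omega) hTN hP hle hQbr

end Pool.Agent.H936.SL
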