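import Pool.Agent.H936.SL.Brk
import Pool.Graph.R_seed8.R917.GrpLie

/-!
# The Lie algebra of a subtorsor through the periods of abelian varieties
-/

set_option autoImplicit false
set_option linter.unusedSectionVars false
set_option linter.unusedVariables false

open Matrix Module

namespace Pool.Agent.H936.SL

open Pool.Agent.Helper880_LF (spS mem_spS comm_mem)
open Pool.Agent.Helper880_R3 (Ix Tot)
open Pool.Agent.Y102 (AbVar QBar tau toC toC_eq)
open Pool.Agent.Y119.HY (cm cm_apply cm_mul cm_one cm_transpose)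
open Pool.Agent.W516.DR (X0 XX cmpE X0_mem IsDeRhamBettiEnd IsDeRhamBettiSubspace sub_of_stable)
open Pool.Agent.W516.KC (Semi IsSkew central_of_trace)
open Pool.Agent.R917 (PM QQ lamF lamF_apply exists_inv toC_cmpE X0_eq derQ)
open Pool.Agent.Y123.ST (fl um LL LL_def logder_mem fl_um um_fl)
open Pool.Agent.TH127.PT (IsSubtorsor)
open Pool.Agent.TH119.DR (DefOver deriv_alg)

section bt
variable {n : ℕ}

theorem cm_inv {R : Matrix (Fin n) (Fin n) ℚ} (hR : IsUnit R.det) : (cm R)⁻¹ = cm R⁻¹ := by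
  refine Matrix.inv_eq_right_inv ?_
  rw [← cm_mul, Matrix.mul_nonsing_inv _ hR, cm_one]

theorem cm_inj {X Y : Matrix (Fin n) (Fin n) ℚ} (h : cm X = cm Y) : X = Y := by
  ext i j
  have h1 := congrFun (congrFun h i) j
  rw [cm_apply, cm_apply] at h1
  exact_mod_cast h1

/-- the action on the cohomology, in the basis given by `R` -/
noncomputable def bt (R : Matrix (Fin n) (Fin n) ℚ) (X : Module.End ℚ (Fin n → ℚ)) : Matrix (Fin n) (Fin n) ℂ :=
  cm (R * (LinearMap.toMatrix' X)ᵀ * R⁻¹)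

theorem bt_eq {R : Matrix (Fin n) (Fin n) ℚ} (hR : IsUnit R.det) (X : Module.End ℚ (Fin n → ℚ)) :
    bt R X = cm R * (toC X)ᵀ * (cm R)⁻¹ := by
  unfold bt
  rw [cm_mul, cm_mul, cm_inv hR, toC_eq]
  rfl

theorem bt_add (R : Matrix (Fin n) (Fin n) ℚ) (X Y : Module.End ℚ (Fin n → ℚ)) : bt R (X + Y) = bt R X + bt R Y := by
  unfold bt
  rw [map_add, transpose_add, Matrix.mul_add, Matrix.add_mul]
  exact map_add _ _ _

theorem bt_sub (R : Matrix (Fin n) (Fin n) ℚ) (X Y : Module.End ℚ (Fin n → ℚ)) : bt R (X - Y) = bt R X - bt R Y := by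
  unfold bt
  rw [map_sub, transpose_sub, Matrix.mul_sub, Matrix.sub_mul]
  exact map_sub _ _ _

theorem bt_zero (R : Matrix (Fin n) (Fin n) ℚ) : bt R 0 = 0 := by
  unfold bt
  rw [map_zero, transpose_zero, Matrix.mul_zero, Matrix.zero_mul]
  exact map_zero _

theorem bt_smul (R : Matrix (Fin n) (Fin n) ℚ) (c : ℚ) (X : Module.End ℚ (Fin n → ℚ)) :
    bt R (c • X) = (c : ℂ) • bt R X := by
  unfold bt
  rw [map_smul, transpose_smul, Matrix.mul_smul, Matrix.smul_mul]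
  ext i j
  rw [cm_apply, Matrix.smul_apply, Matrix.smul_apply, cm_apply]
  simp

theorem bt_mul {R : Matrix (Fin n) (Fin n) ℚ} (hR : IsUnit R.det) (X Y : Module.End ℚ (Fin n → ℚ)) :
    bt R (X * Y) = bt R Y * bt R X := by
  unfold bt
  rw [← cm_mul, LinearMap.toMatrix'_mul, transpose_mul]
  congr 1
  calc R * ((LinearMap.toMatrix' Y)ᵀ * (LinearMap.toMatrix' X)ᵀ) * R⁻¹ =
      R * (LinearMap.toMatrix' Y)ᵀ * (R⁻¹ * R) * (LinearMap.toMatrix' X)ᵀ * R⁻¹ := by
        rw [Matrix.nonsing_inv_mul _ hR, Matrix.mul_one]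
        simp only [Matrix.mul_assoc]
    _ = _ := by simp only [Matrix.mul_assoc]

theorem bt_one {R : Matrix (Fin n) (Fin n) ℚ} (hR : IsUnit R.det) : bt R 1 = 1 := by
  unfold bt
  rw [LinearMap.toMatrix'_one, transpose_one, Matrix.mul_one, Matrix.mul_nonsing_inv _ hR, cm_one]

theorem bt_trace {R : Matrix (Fin n) (Fin n) ℚ} (hR : IsUnit R.det) (X : Module.End ℚ (Fin n → ℚ)) :
    Matrix.trace (bt R X) = ((LinearMap.trace ℚ _ X : ℚ) : ℂ) := by
  have h1 : Matrix.trace (R * (LinearMap.toMatrix' X)ᵀ * R⁻¹) = LinearMap.trace ℚ _ X := by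
    rw [Matrix.trace_mul_comm, ← Matrix.mul_assoc, Matrix.nonsing_inv_mul _ hR, Matrix.one_mul, Matrix.trace_transpose,
      LinearMap.trace_eq_matrix_trace ℚ (Pi.basisFun ℚ (Fin n)), LinearMap.toMatrix_eq_toMatrix']
  rw [← h1]
  unfold bt Matrix.trace
  rw [Rat.cast_sum]
  rfl

theorem bt_surj {R : Matrix (Fin n) (Fin n) ℚ} (hR : IsUnit R.det) (Y : Matrix (Fin n) (Fin n) ℚ) :
    ∃ X : Module.End ℚ (Fin n → ℚ), bt R X = cm Y := by
  refine ⟨Matrix.toLin' (R⁻¹ * Y * R)ᵀ, ?_⟩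
  unfold bt
  rw [LinearMap.toMatrix'_toLin', transpose_transpose]
  congr 1
  calc R * (R⁻¹ * Y * R) * R⁻¹ = (R * R⁻¹) * Y * (R * R⁻¹) := by simp only [Matrix.mul_assoc]
    _ = Y := by rw [Matrix.mul_nonsing_inv _ hR, Matrix.one_mul, Matrix.mul_one]

theorem bt_inj {R : Matrix (Fin n) (Fin n) ℚ} (hR : IsUnit R.det) {X : Module.End ℚ (Fin n → ℚ)} (h : bt R X = 0) :
    X = 0 := by
  have h1 : R * (LinearMap.toMatrix' X)ᵀ * R⁻¹ = 0 := by
    apply cm_inj
    rw [Pool.Agent.Y119.HY.cm_zero]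
    exact h
  have h2 : (LinearMap.toMatrix' X)ᵀ = 0 := by
    calc (LinearMap.toMatrix' X)ᵀ = (R⁻¹ * R) * (LinearMap.toMatrix' X)ᵀ * (R⁻¹ * R) := by
          rw [Matrix.nonsing_inv_mul _ hR, Matrix.one_mul, Matrix.mul_one]
      _ = R⁻¹ * (R * (LinearMap.toMatrix' X)ᵀ * R⁻¹) * R := by simp only [Matrix.mul_assoc]
      _ = 0 := by rw [h1, Matrix.mul_zero, Matrix.zero_mul]
  have h3 : LinearMap.toMatrix' X = 0 := by
    rw [← transpose_transpose (LinearMap.toMatrix' X), h2, transpose_zero]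
  exact (LinearMap.toMatrix' (R := ℚ) (n := Fin n) (m := Fin n)).map_eq_zero_iff.1 h3

end bt

variable {g N r₀ : ℕ}

/-- the matrix of the Riemann form -/
noncomputable def EM (A : AbVar g) : Matrix (Fin (2 * g)) (Fin (2 * g)) ℚ :=
  Matrix.of fun a b => A.om (Pi.single a 1) (Pi.single b 1)

theorem om_EM (A : AbVar g) (u v : A.H1) : A.om u v = u ⬝ᵥ (EM A *ᵥ v) := by
  have hu : u = ∑ a, u a • (Pi.single a 1 : A.H1) := by
    conv_lhs => rw [pi_eq_sum_univ u]
    refine Finset.sum_congr rfl fun a _ => ?_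
    congr 1
    funext b
    rw [Pi.single_apply]
    by_cases h : a = b
    · rw [if_pos h, if_pos h.symm]
    · rw [if_neg h, if_neg (Ne.symm h)]
  have hv : v = ∑ a, v a • (Pi.single a 1 : A.H1) := by
    conv_lhs => rw [pi_eq_sum_univ v]
    refine Finset.sum_congr rfl fun a _ => ?_
    congr 1
    funext b
    rw [Pi.single_apply]
    by_cases h : a = b
    · rw [if_pos h, if_pos h.symm]
    · rw [if_neg h, if_neg (Ne.symm h)]
  have h1 : A.om u v = ∑ a, u a * A.om (Pi.single a 1) v := by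
    conv_lhs => rw [hu]
    rw [map_sum, LinearMap.sum_apply]
    refine Finset.sum_congr rfl fun a _ => ?_
    rw [map_smul, LinearMap.smul_apply, smul_eq_mul]
  have h2 : ∀ a, A.om (Pi.single a 1) v = ∑ b, EM A a b * v b := by
    intro a
    conv_lhs => rw [hv]
    rw [map_sum]
    refine Finset.sum_congr rfl fun b _ => ?_
    rw [map_smul, smul_eq_mul, mul_comm]
    rfl
  rw [h1]
  refine Finset.sum_congr rfl fun a _ => ?_
  rw [h2]
  rfl

theorem skew_EM (A : AbVar g) (X : Module.End ℚ A.H1) :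
    IsSkew A.om X ↔ (LinearMap.toMatrix' X)ᵀ * EM A + EM A * LinearMap.toMatrix' X = 0 := by
  have hX : ∀ u, X u = LinearMap.toMatrix' X *ᵥ u := by
    intro u
    rw [← Matrix.toLin'_apply, Matrix.toLin'_toMatrix']
  have h1 : ∀ u v : A.H1, A.om (X u) v + A.om u (X v) =
      u ⬝ᵥ (((LinearMap.toMatrix' X)ᵀ * EM A + EM A * LinearMap.toMatrix' X) *ᵥ v) := by
    intro u v
    rw [om_EM, om_EM, hX, hX, Matrix.add_mulVec, dotProduct_add, ← Matrix.mulVec_mulVec, ← Matrix.mulVec_mulVec]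
    congr 1
    rw [Matrix.dotProduct_mulVec u, Matrix.vecMul_transpose]
  constructor
  · intro h
    ext a b
    have h2 := h (Pi.single a 1) (Pi.single b 1)
    rw [h1] at h2
    rw [Matrix.mulVec_single_one, single_one_dotProduct] at h2
    exact h2
  · intro h u v
    rw [h1, h, Matrix.zero_mulVec, dotProduct_zero]

/-- `P` is a matrix of the periods of `A`: for some basis of the rational cohomology, in which the Riemann form has the
matrix `H` up to a factor, and some basis of the de Rham cohomology. -/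
def Pres (A : AbVar g) (H : Matrix (Fin (2 * g)) (Fin (2 * g)) ℚ) (P : Matrix (Fin (2 * g)) (Fin (2 * g)) ℂ)
    (R : Matrix (Fin (2 * g)) (Fin (2 * g)) ℚ) : Prop :=
  ∃ (T T' : Matrix (Fin (2 * g)) (Fin (2 * g)) ℂ) (q : ℚ), IsUnit R.det ∧ T * T' = 1 ∧
    (∀ i j, IsAlgebraic ℚ (T i j)) ∧ q ≠ 0 ∧ P = cm R * PM A * T ∧ R * EM A * Rᵀ = q • H

/-- skew operators -/
theorem skew_bt {A : AbVar g} {H R : Matrix (Fin (2 * g)) (Fin (2 * g)) ℚ} {P : Matrix (Fin (2 * g)) (Fin (2 * g)) ℂ}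
    (hH : IsUnit H.det) (h : Pres A H P R) (X : Module.End ℚ A.H1) : IsSkew A.om X ↔ bt R X ∈ spS (cm H⁻¹) := by
  obtain ⟨T, T', q, hR, -, -, hq, -, hE⟩ := h
  set M := (LinearMap.toMatrix' X)ᵀ with hM
  have hMt : LinearMap.toMatrix' X = Mᵀ := (transpose_transpose _).symm
  have hHH : H * H⁻¹ = 1 := Matrix.mul_nonsing_inv _ hH
  have hHH' : H⁻¹ * H = 1 := Matrix.nonsing_inv_mul _ hH
  have hRR : R⁻¹ * R = 1 := Matrix.nonsing_inv_mul _ hR
  have hRR' : R * R⁻¹ = 1 := Matrix.mul_nonsing_inv _ hR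
  have hRt : Rᵀ * (R⁻¹)ᵀ = 1 := by rw [← transpose_mul, hRR, transpose_one]
  have hRt' : (R⁻¹)ᵀ * Rᵀ = 1 := by rw [← transpose_mul, hRR', transpose_one]
  set Y := R * M * R⁻¹ with hY
  have h1 : q • (Y * H + H * Yᵀ) = R * (M * EM A + EM A * Mᵀ) * Rᵀ := by
    have e1 : q • (Y * H) = R * (M * EM A) * Rᵀ := by
      rw [← Matrix.mul_smul, ← hE, hY]
      calc R * M * R⁻¹ * (R * EM A * Rᵀ) = R * M * (R⁻¹ * R) * EM A * Rᵀ := by simp only [Matrix.mul_assoc]
        _ = _ := by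
          rw [hRR, Matrix.mul_one]
          simp only [Matrix.mul_assoc]
    have e2 : q • (H * Yᵀ) = R * (EM A * Mᵀ) * Rᵀ := by
      rw [← Matrix.smul_mul, ← hE, hY, transpose_mul, transpose_mul]
      calc R * EM A * Rᵀ * ((R⁻¹)ᵀ * (Mᵀ * Rᵀ)) = R * EM A * (Rᵀ * (R⁻¹)ᵀ) * Mᵀ * Rᵀ := by
            simp only [Matrix.mul_assoc]
        _ = _ := by
          rw [hRt, Matrix.mul_one]
          simp only [Matrix.mul_assoc]
    rw [smul_add, e1, e2, Matrix.mul_add, Matrix.add_mul]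
  have h2 : M * EM A + EM A * Mᵀ = 0 ↔ Y * H + H * Yᵀ = 0 := by
    constructor
    · intro h
      rw [h, Matrix.mul_zero, Matrix.zero_mul] at h1
      exact (smul_eq_zero.1 h1).resolve_left hq
    · intro h
      rw [h, smul_zero] at h1
      calc M * EM A + EM A * Mᵀ = (R⁻¹ * R) * (M * EM A + EM A * Mᵀ) * (Rᵀ * (R⁻¹)ᵀ) := by
            rw [hRR, hRt, Matrix.one_mul, Matrix.mul_one]
        _ = R⁻¹ * (R * (M * EM A + EM A * Mᵀ) * Rᵀ) * (R⁻¹)ᵀ := by simp only [Matrix.mul_assoc]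
        _ = 0 := by rw [← h1, Matrix.mul_zero, Matrix.zero_mul]
  have h3 : Y * H + H * Yᵀ = 0 ↔ Yᵀ * H⁻¹ + H⁻¹ * Y = 0 := by
    constructor
    · intro h
      calc Yᵀ * H⁻¹ + H⁻¹ * Y = H⁻¹ * (Y * H + H * Yᵀ) * H⁻¹ := by
            rw [Matrix.mul_add, Matrix.add_mul]
            have e1 : H⁻¹ * (Y * H) * H⁻¹ = H⁻¹ * Y := by
              calc H⁻¹ * (Y * H) * H⁻¹ = H⁻¹ * Y * (H * H⁻¹) := by simp only [Matrix.mul_assoc]
                _ = _ := by rw [hHH, Matrix.mul_one]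
            have e2 : H⁻¹ * (H * Yᵀ) * H⁻¹ = Yᵀ * H⁻¹ := by
              rw [← Matrix.mul_assoc, hHH', Matrix.one_mul]
            rw [e1, e2, add_comm]
        _ = 0 := by rw [h, Matrix.mul_zero, Matrix.zero_mul]
    · intro h
      calc Y * H + H * Yᵀ = H * (Yᵀ * H⁻¹ + H⁻¹ * Y) * H := by
            rw [Matrix.mul_add, Matrix.add_mul]
            have e1 : H * (Yᵀ * H⁻¹) * H = H * Yᵀ := by
              calc H * (Yᵀ * H⁻¹) * H = H * Yᵀ * (H⁻¹ * H) := by simp only [Matrix.mul_assoc]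
                _ = _ := by rw [hHH', Matrix.mul_one]
            have e2 : H * (H⁻¹ * Y) * H = Y * H := by
              rw [← Matrix.mul_assoc, hHH, Matrix.one_mul]
            rw [e1, e2, add_comm]
        _ = 0 := by rw [h, Matrix.mul_zero, Matrix.zero_mul]
  rw [skew_EM, ← hM, hMt, h2, h3, mem_spS]
  have h4 : (bt R X)ᵀ * cm H⁻¹ + cm H⁻¹ * bt R X = cm (Yᵀ * H⁻¹ + H⁻¹ * Y) := by
    rw [Pool.Agent.Y119.HY.cm_add, cm_mul, cm_mul, cm_transpose]
    rfl
  rw [h4]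
  constructor
  · intro h
    rw [h, Pool.Agent.Y119.HY.cm_zero]
  · intro h
    apply cm_inj
    rw [h, Pool.Agent.Y119.HY.cm_zero]

end Pool.Agent.H936.SL
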