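import Pool.Agent.H936.SL.QF

/-!
# Nilpotency on the isotropic planes
-/

set_option autoImplicit false
set_option linter.unusedSectionVars false
set_option linter.unusedVariables false

open Matrix Module MvPolynomial

namespace Pool.Agent.H936.SL

open Pool.Agent.Helper880_LF

variable {F : Type} [Field F] {n : ℕ} {J : Matrix (Fin n) (Fin n) F} [CharZero F]

/-- an operator all of whose powers have trace zero is nilpotent -/
theorem nil_of_tr {W : Type} [AddCommGroup W] [Module F W] [FiniteDimensional F W] (T : W →ₗ[F] W)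
    (h : ∀ k, LinearMap.trace F W (T ^ (k + 1)) = 0) : IsNilpotent T := by
  refine Pool.Agent.W516.KC.isNilpotent_of_trace T fun p => ?_
  induction p using Polynomial.induction_on' with
  | add p q hp hq => rw [map_add, add_mul, map_add, hp, hq, add_zero]
  | monomial k a =>
    rw [Polynomial.aeval_monomial]
    have h1 : (algebraMap F (Module.End F W)) a * T ^ k * T = a • T ^ (k + 1) := by
      rw [pow_succ, mul_assoc, ← Algebra.smul_def]
    rw [h1, map_smul, h, smul_zero]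

/-- nilpotent operators which map a space of dimension at most three to itself -/
theorem cube {W : Type} [AddCommGroup W] [Module F W] [FiniteDimensional F W] (T : W →ₗ[F] W) (hT : IsNilpotent T)
    (S : Submodule F W) (hS : finrank F S ≤ 3) (hTS : ∀ x, T x ∈ S) (x : W) (hx : x ∈ S) : T (T (T x)) = 0 := by
  let T' : S →ₗ[F] S := T.restrict fun y _ => hTS y
  have h1 : IsNilpotent T' := by
    obtain ⟨k, hk⟩ := hT
    refine ⟨k, ?_⟩
    apply LinearMap.ext
    intro y
    apply Subtype.ext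
    have h2 : ∀ j, ((T' ^ j) y : W) = (T ^ j) (y : W) := by
      intro j
      induction j with
      | zero => rfl
      | succ j ih =>
        rw [pow_succ', pow_succ', Module.End.mul_apply, Module.End.mul_apply, ← ih]
        rfl
    rw [h2, hk]
    rfl
  have h2 : T' ^ finrank F S = 0 := by
    have h3 := (LinearMap.charpoly_eq_X_pow_iff T').2 fun m => by
      obtain ⟨k, hk⟩ := h1
      exact ⟨k, by rw [hk]; rfl⟩
    have h4 := LinearMap.aeval_self_charpoly T'
    rwa [h3, map_pow, Polynomial.aeval_X] at h4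
  have h3 : T' ^ 3 = 0 := by
    obtain ⟨d, hd⟩ := Nat.exists_eq_add_of_le hS
    rw [hd, pow_add, h2, zero_mul]
  have h4 : ((T' ^ 3) ⟨x, hx⟩ : W) = T (T (T x)) := rfl
  rw [← h4, h3]
  rfl

/-- the standing assumptions -/
structure Fac (J : Matrix (Fin n) (Fin n) F) (𝔩 : Submodule F (Mn n F)) (P : Mn n F →ₗ[F] Mn n F) (α : Mn n F) : Prop where
  hTN : TN 𝔩
  hP : IsPr 𝔩 P
  le : 𝔩 ≤ spS J
  dec : ∀ X ∈ spS J, ∃ Z B, X = Z + B ∧ Z ∈ spS J ∧ (∀ Y ∈ 𝔩, Z * Y - Y * Z ∈ 𝔩) ∧ B * α = α * B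

section
variable {𝔩 : Submodule F (Mn n F)} {P : Mn n F →ₗ[F] Mn n F} {α : Mn n F} (H : Fac J 𝔩 P α)
include H

theorem Fac.Dec' {Ψ : Pf n F} (h : ∀ Z ∈ spS J, (∀ Y ∈ 𝔩, Z * Y - Y * Z ∈ 𝔩) → DX Z Ψ = 0) : Dec (spS J) Ψ α := by
  intro X hX
  obtain ⟨Z, B, e, hZ, hZl, hB⟩ := H.dec X hX
  exact ⟨Z, B, e, hZ, h Z hZ hZl, hB⟩

theorem Fac.decPs (k : ℕ) : Dec (spS J) (Ps P k) α := H.Dec' fun Z _ hZl => Ps_inv H.hTN H.hP hZl k

end

/-! ### The operator of an isotropic plane -/

section iso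

variable (hJ : Jᵀ = -J) (hdet : IsUnit J.det)
include hJ

theorem th_wd {X : Mn n F} (hX : X ∈ spS J) (u v : Fin n → F) : th (wd J u v) X =
    om J u (X *ᵥ v) • pr J u v - (om J u (X *ᵥ u) / 2) • pr J v v - (om J v (X *ᵥ v) / 2) • pr J u u := by
  apply mul_ext
  intro w
  have h1 : om J v (X *ᵥ u) = om J u (X *ᵥ v) := by rw [om_swap hJ v, skew hX, neg_neg]
  rw [th_apply, ← mulVec_mulVec, ← mulVec_mulVec, wd_mulVec, wd_mulVec, sub_mulVec, sub_mulVec, smul_mulVec, smul_mulVec,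
    smul_mulVec, pr_mulVec, pr_mulVec, pr_mulVec, mulVec_sub, mulVec_smul, mulVec_smul, om_sub_right, om_sub_right,
    om_smul_right, om_smul_right, om_smul_right, om_smul_right, h1]
  funext i
  simp only [Pi.sub_apply, Pi.smul_apply, Pi.add_apply, smul_eq_mul]
  ring

/-- the operator of an isotropic plane, on the products -/
theorem N_pr {𝔩 : Submodule F (Mn n F)} {P : Mn n F →ₗ[F] Mn n F} (hP : IsPr 𝔩 P) (hle : 𝔩 ≤ spS J)
    (u v a b : Fin n → F) : (th (wd J u v) ∘ₗ P) (pr J a b) =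
    (Q J P a b u v / 2) • pr J u v - (Q J P a b u u / 4) • pr J v v - (Q J P a b v v / 4) • pr J u u := by
  rw [LinearMap.comp_apply, th_wd hJ (hle (hP.mem _))]
  unfold Q
  rw [tr_pr' hJ (hle (hP.mem _)), tr_pr' hJ (hle (hP.mem _)), tr_pr' hJ (hle (hP.mem _))]
  module

/-- the trace of the operator -/
theorem N_tr {𝔩 : Submodule F (Mn n F)} {P : Mn n F →ₗ[F] Mn n F} (hP : IsPr 𝔩 P) (hle : 𝔩 ≤ spS J)
    (u v : Fin n → F) : LinearMap.trace F _ (th (wd J u v) ∘ₗ P) = (Q J P u v u v - Q J P u u v v) / 2 := by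
  let φ : (Fin n → F) → (Fin n → F) → (Mn n F →ₗ[F] F) := fun a b =>
    { toFun := fun X => Matrix.trace (P X * pr J a b)
      map_add' := fun X Y => by rw [map_add, Matrix.add_mul, Matrix.trace_add]
      map_smul' := fun c X => by rw [map_smul, Matrix.smul_mul, Matrix.trace_smul]; rfl }
  have h1 : th (wd J u v) ∘ₗ P = (φ u v).smulRight ((1 / 2 : F) • pr J u v) - (φ u u).smulRight ((1 / 4 : F) • pr J v v) -
      (φ v v).smulRight ((1 / 4 : F) • pr J u u) := by
    apply LinearMap.ext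
    intro X
    rw [LinearMap.comp_apply, th_wd hJ (hle (hP.mem _))]
    show _ = (Matrix.trace (P X * pr J u v)) • ((1 / 2 : F) • pr J u v) -
      (Matrix.trace (P X * pr J u u)) • ((1 / 4 : F) • pr J v v) -
      (Matrix.trace (P X * pr J v v)) • ((1 / 4 : F) • pr J u u)
    rw [tr_pr' hJ (hle (hP.mem _)), tr_pr' hJ (hle (hP.mem _)), tr_pr' hJ (hle (hP.mem _)), smul_smul, smul_smul, smul_smul]
    module
  rw [h1, map_sub, map_sub, LinearMap.trace_smulRight, LinearMap.trace_smulRight, LinearMap.trace_smulRight, map_smul,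
    map_smul, map_smul]
  show (1 / 2 : F) * Matrix.trace (P (pr J u v) * pr J u v) - (1 / 4 : F) * Matrix.trace (P (pr J v v) * pr J u u) -
    (1 / 4 : F) * Matrix.trace (P (pr J u u) * pr J v v) = _
  have h2 : Matrix.trace (P (pr J v v) * pr J u u) = Matrix.trace (P (pr J u u) * pr J v v) := Q_swap hJ hP v v u u
  rw [h2]
  unfold Q
  ring

include hdet

variable {𝔩 : Submodule F (Mn n F)} {P : Mn n F →ₗ[F] Mn n F} {α : Mn n F} (H : Fac J 𝔩 P α) (hα : Sy J α)
  (hns : ∃ w, α *ᵥ w ∉ Submodule.span F {w})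
include H hα hns

theorem tr0 {u v : Fin n → F} (huv : om J u v = 0) (k : ℕ) :
    LinearMap.trace F _ ((P ∘ₗ th (wd J u v)) ^ (k + 1)) = 0 := by
  rw [← ev_Ps]
  exact cor_S hJ hdet hα hns (d := 2 * (k + 1)) (by omega) (fun β r => hom_Ps P (k + 1) β r) (H.decPs _) huv

theorem N_nil {u v : Fin n → F} (huv : om J u v = 0) : IsNilpotent (th (wd J u v) ∘ₗ P) := by
  obtain ⟨k, hk⟩ := nil_of_tr (P ∘ₗ th (wd J u v)) fun k => tr0 hJ hdet H hα hns huv k
  refine ⟨k + 1, ?_⟩
  have h1 : (th (wd J u v) ∘ₗ P) ^ (k + 1) = th (wd J u v) ∘ₗ ((P ∘ₗ th (wd J u v)) ^ k) ∘ₗ P := by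
    clear hk
    induction k with
    | zero => rfl
    | succ k ih =>
      rw [pow_succ, ih, pow_succ (P ∘ₗ th (wd J u v)) k]
      rfl
  rw [h1, hk, LinearMap.zero_comp, LinearMap.comp_zero]

/-- the defect vanishes on the isotropic planes -/
theorem K_iso {u v : Fin n → F} (huv : om J u v = 0) : Kf J P u v = 0 := by
  have h1 := tr0 hJ hdet H hα hns huv 0
  rw [zero_add, pow_one, LinearMap.trace_comp_comm', N_tr hJ H.hP H.le] at h1
  unfold Kf
  linear_combination -2 * h1

theorem N_cube {u v : Fin n → F} (huv : om J u v = 0) {X : Mn n F}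
    (hX : X ∈ Submodule.span F {pr J u u, pr J u v, pr J v v}) :
    (th (wd J u v) ∘ₗ P) ((th (wd J u v) ∘ₗ P) ((th (wd J u v) ∘ₗ P) X)) = 0 := by
  refine cube _ (N_nil hJ hdet H hα hns huv) (Submodule.span F {pr J u u, pr J u v, pr J v v}) ?_ ?_ X hX
  · classical
    have h1 := finrank_span_finset_le_card (R := F) ({pr J u u, pr J u v, pr J v v} : Finset (Mn n F))
    have h2 : ({pr J u u, pr J u v, pr J v v} : Finset (Mn n F)).card ≤ 3 := Finset.card_le_three
    have h3 : (({pr J u u, pr J u v, pr J v v} : Finset (Mn n F)) : Set (Mn n F)) = {pr J u u, pr J u v, pr J v v} := by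
      simp
    rw [h3] at h1
    exact h1.trans h2
  · intro Y
    rw [LinearMap.comp_apply, th_wd hJ (H.le (H.hP.mem _))]
    refine Submodule.sub_mem _ (Submodule.sub_mem _ ?_ ?_) ?_
    · exact Submodule.smul_mem _ _ (Submodule.subset_span (by simp))
    · exact Submodule.smul_mem _ _ (Submodule.subset_span (by simp))
    · exact Submodule.smul_mem _ _ (Submodule.subset_span (by simp))

/-- the scalar -/
theorem K_scalar : ∃ ν : F, ∀ u v, Kf J P u v = ν * om J u v ^ 2 := by
  obtain ⟨m, hm, hmS⟩ := division hJ H.hP hdet fun u v h => K_iso hJ hdet H hα hns h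
  -- the function `tr (m b)`
  let Ψ : Pf n F := ∑ i, ∑ j, C (m i j) * X (j, i)
  have hev : ∀ β, ev β Ψ = Matrix.trace (m * β) := by
    intro β
    show ev β (∑ i, ∑ j, C (m i j) * X (j, i)) = _
    rw [map_sum]
    unfold Matrix.trace
    refine Finset.sum_congr rfl fun i _ => ?_
    rw [map_sum, Matrix.diag_apply, Matrix.mul_apply]
    refine Finset.sum_congr rfl fun j _ => ?_
    rw [map_mul, ev_C, ev_X]
  have hinv : ∀ Z ∈ spS J, (∀ Y ∈ 𝔩, Z * Y - Y * Z ∈ 𝔩) → DX Z Ψ = 0 := by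
    intro Z hZ hZl
    have h1 := Kf_comm hJ H.hTN H.hP hdet hm hZ hZl
    have h2 : Ψ = Matrix.trace (cst m * bm) := by
      unfold Matrix.trace
      refine Finset.sum_congr rfl fun i _ => ?_
      rw [Matrix.diag_apply, Matrix.mul_apply]
      rfl
    have h3 : DX Z (Matrix.trace (cst m * bm)) = Matrix.trace ((cst m * bm).map (DX Z)) := map_sum (DX Z) _ _
    rw [h2, h3, dmap_mul, DX_cst, Matrix.zero_mul, zero_add, DX_bm]
    unfold BX
    rw [Matrix.mul_sub, Matrix.trace_sub, ← Matrix.mul_assoc, ← Matrix.mul_assoc, Matrix.trace_mul_comm (cst m * bm),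
      ← Matrix.mul_assoc, ← cst_mul, ← cst_mul, h1, sub_self]
  have h1 : ∀ u v, om J u v = 0 → om J (m *ᵥ u) v = 0 := by
    intro u v huv
    have h2 := cor_S hJ hdet hα hns (Ψ := Ψ) (d := 1) le_rfl
      (fun β r => by rw [hev, hev, Matrix.mul_smul, Matrix.trace_smul, pow_one, smul_eq_mul]) (H.Dec' hinv) huv
    rw [hev] at h2
    have h3 : Matrix.trace (m * wd J u v) = om J v (m *ᵥ u) - om J u (m *ᵥ v) := by
      have h : ∀ a b : Fin n → F, Matrix.trace (m * (vecMulVec a b * J)) = om J b (m *ᵥ a) := by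
        intro a b
        rw [← Matrix.mul_assoc, Matrix.mul_vecMulVec, Matrix.trace_mul_comm, Matrix.mul_vecMulVec, Matrix.trace_vecMulVec,
          dotProduct_comm]
        rfl
      unfold wd
      rw [Matrix.sub_mul, Matrix.mul_sub, Matrix.trace_sub, h, h]
    rw [h3, ← hmS u v, om_swap hJ v] at h2
    have h4 : (2 : F) * om J (m *ᵥ u) v = 0 := by linear_combination -h2
    exact (mul_eq_zero.1 h4).resolve_left two_ne_zero
  -- hence `m` is scalar
  have h2 : ∀ u, m *ᵥ u ∈ Submodule.span F {u} := by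
    intro u
    by_contra hcon
    obtain ⟨y, h3, h4⟩ := exists_sep hJ hdet hcon
    have h5 := h1 u y (by rw [om_swap hJ, h4, neg_zero])
    rw [om_swap hJ, h3] at h5
    exact one_ne_zero (neg_eq_zero.1 h5)
  have h3 : ∃ ν : F, ∀ u, m *ᵥ u = ν • u := by
    choose c hc using fun u => Submodule.mem_span_singleton.1 (h2 u)
    by_cases hn : ∀ u : Fin n → F, u = 0
    · exact ⟨0, fun u => by rw [hn u, mulVec_zero, smul_zero]⟩
    push Not at hn
    obtain ⟨u₀, hu₀⟩ := hn
    refine ⟨c u₀, fun u => ?_⟩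
    by_cases hu : u ∈ Submodule.span F {u₀}
    · obtain ⟨r, rfl⟩ := Submodule.mem_span_singleton.1 hu
      rw [mulVec_smul, ← hc u₀, smul_comm]
    · have e1 : c (u + u₀) • (u + u₀) = c u • u + c u₀ • u₀ := by rw [hc, hc, hc, mulVec_add]
      have e2 : (c (u + u₀) - c u) • u = (c u₀ - c (u + u₀)) • u₀ := by
        rw [sub_smul, sub_smul, sub_eq_sub_iff_add_eq_add, ← smul_add, e1]
        abel
      have e3 : c (u + u₀) - c u = 0 := by
        by_contra h0
        apply hu
        refine Submodule.mem_span_singleton.2 ⟨(c (u + u₀) - c u)⁻¹ * (c u₀ - c (u + u₀)), ?_⟩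
        rw [mul_smul, ← e2, smul_smul, inv_mul_cancel₀ h0, one_smul]
      rw [e3, zero_smul] at e2
      have e4 : c u₀ - c (u + u₀) = 0 := (smul_eq_zero.1 e2.symm).resolve_right hu₀
      rw [← hc u, sub_eq_zero.1 e4, ← sub_eq_zero.1 e3]
  obtain ⟨ν, hν⟩ := h3
  refine ⟨ν, fun u v => ?_⟩
  rw [hm, hν, om_smul_left]
  ring

end iso

end Pool.Agent.H936.SL
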