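import Pool.Graph.R_pool_sql_team_seeded_620a6dc7.Helper880_LF.Sp

/-!
# Functions which are invariant under a subalgebra, on the orbit of a point fixed by a second subalgebra
-/

set_option autoImplicit false
set_option linter.unusedSectionVars false
set_option linter.unusedVariables false

open Matrix MvPolynomial

namespace Pool.Agent.H936.SL

variable {F : Type} [Field F] {n : ℕ}

/-- the polynomial functions on the space of matrices -/
abbrev Pf (n : ℕ) (F : Type) [Field F] : Type := MvPolynomial (Fin n × Fin n) F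

/-- the generic matrix -/
noncomputable def bm : Matrix (Fin n) (Fin n) (Pf n F) := Matrix.of fun i j => X (i, j)

/-- constant matrices -/
noncomputable def cst (X : Matrix (Fin n) (Fin n) F) : Matrix (Fin n) (Fin n) (Pf n F) := X.map C

/-- the commutator with the generic matrix -/
noncomputable def BX (X : Matrix (Fin n) (Fin n) F) : Matrix (Fin n) (Fin n) (Pf n F) := cst X * bm - bm * cst X

/-- the derivation `b ↦ [X, b]` -/
noncomputable def DX (X : Matrix (Fin n) (Fin n) F) : Derivation F (Pf n F) (Pf n F) :=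
  mkDerivation F fun p => BX X p.1 p.2

/-- the evaluation at a matrix -/
noncomputable def ev (β : Matrix (Fin n) (Fin n) F) : Pf n F →ₐ[F] F := aeval fun p => β p.1 p.2

theorem ev_X (β : Matrix (Fin n) (Fin n) F) (i j : Fin n) : ev β (X (i, j)) = β i j := by
  unfold ev
  rw [aeval_X]

theorem ev_C (β : Matrix (Fin n) (Fin n) F) (c : F) : ev β (C c) = c := by
  unfold ev
  rw [aeval_C]
  rfl

theorem ev_bm (β : Matrix (Fin n) (Fin n) F) : (bm (F := F)).map (ev β) = β := by
  ext i j
  exact ev_X β i j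

theorem ev_cst (β X : Matrix (Fin n) (Fin n) F) : (cst X).map (ev β) = X := by
  ext i j
  exact ev_C β _

theorem DX_X (X' : Matrix (Fin n) (Fin n) F) (p : Fin n × Fin n) :
    DX X' (X p) = BX X' p.1 p.2 := by
  unfold DX
  rw [mkDerivation_X]

theorem map_mulm {R S : Type} [CommRing R] [CommRing S] {m : ℕ} (f : R →+* S) (A B : Matrix (Fin m) (Fin m) R) :
    (A * B).map f = A.map f * B.map f := Matrix.map_mul

/-- derivations of products of matrices -/
theorem dmap_mul {R : Type} [CommRing R] [Algebra F R] (D : Derivation F R R) {ι : Type} [Fintype ι] (A B : Matrix ι ι R) :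
    (A * B).map D = A.map D * B + A * B.map D := by
  ext i j
  simp only [Matrix.map_apply, Matrix.mul_apply, Matrix.add_apply, map_sum, Derivation.leibniz, smul_eq_mul,
    Finset.sum_add_distrib]
  rw [add_comm]
  congr 1
  exact Finset.sum_congr rfl fun k _ => mul_comm _ _

theorem DX_bm (X' : Matrix (Fin n) (Fin n) F) : (bm (F := F)).map (DX X') = BX X' := by
  ext i j : 1
  exact DX_X X' (i, j)

theorem DX_cst (X' Y : Matrix (Fin n) (Fin n) F) : (cst Y).map (DX X') = 0 := by
  ext i j : 1
  exact Derivation.map_algebraMap (DX X') (Y i j)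

theorem cst_mul (X' Y : Matrix (Fin n) (Fin n) F) : cst (X' * Y) = cst X' * cst Y := map_mulm C X' Y

theorem cst_add (X' Y : Matrix (Fin n) (Fin n) F) : cst (X' + Y) = cst X' + cst Y := by
  ext i j : 1
  exact map_add C (X' i j) (Y i j)

theorem cst_sub (X' Y : Matrix (Fin n) (Fin n) F) : cst (X' - Y) = cst X' - cst Y := by
  ext i j : 1
  exact map_sub C (X' i j) (Y i j)

theorem cst_smul (c : F) (Y : Matrix (Fin n) (Fin n) F) :
    cst (c • Y) = (C c : Pf n F) • (cst Y : Matrix (Fin n) (Fin n) (Pf n F)) := by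
  ext i j : 1
  exact map_mul C c (Y i j)

theorem DX_add (X' Y : Matrix (Fin n) (Fin n) F) : DX (X' + Y) = DX X' + DX Y := by
  apply derivation_ext
  intro p
  rw [Derivation.add_apply, DX_X, DX_X, DX_X]
  unfold BX
  rw [cst_add, Matrix.add_mul, Matrix.mul_add]
  simp only [Matrix.sub_apply, Matrix.add_apply]
  ring

theorem DX_smul (c : F) (Y : Matrix (Fin n) (Fin n) F) : DX (c • Y) = c • DX Y := by
  apply derivation_ext
  intro p
  rw [Derivation.smul_apply, DX_X, DX_X]
  unfold BX
  rw [cst_smul, Matrix.smul_mul, Matrix.mul_smul, ← smul_sub, Matrix.smul_apply, smul_eq_mul, MvPolynomial.smul_eq_C_mul]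

/-- the commutator -/
theorem DX_comm (X' Y : Matrix (Fin n) (Fin n) F) (Θ : Pf n F) :
    DX X' (DX Y Θ) - DX Y (DX X' Θ) = DX (Y * X' - X' * Y) Θ := by
  have h : ⁅DX X', DX Y⁆ = DX (Y * X' - X' * Y) := by
    apply derivation_ext
    intro p
    rw [Derivation.commutator_apply, DX_X, DX_X, DX_X]
    have h1 : ∀ A B : Matrix (Fin n) (Fin n) F, DX A (BX B p.1 p.2) =
        (cst B * BX A - BX A * cst B : Matrix (Fin n) (Fin n) (Pf n F)) p.1 p.2 := by
      intro A B
      have h2 : DX A (BX B p.1 p.2) =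
          ((cst B * bm : Matrix (Fin n) (Fin n) (Pf n F)).map (DX A) -
            (bm * cst B : Matrix (Fin n) (Fin n) (Pf n F)).map (DX A)) p.1 p.2 := by
        unfold BX
        rw [Matrix.sub_apply, Matrix.sub_apply, map_sub]
        rfl
      rw [h2, dmap_mul, dmap_mul, DX_bm, DX_cst, Matrix.zero_mul, Matrix.mul_zero, zero_add, add_zero]
    rw [h1, h1, ← Matrix.sub_apply]
    unfold BX
    rw [cst_sub, cst_mul, cst_mul]
    refine congrFun (congrFun ?_ p.1) p.2
    simp only [Matrix.mul_sub, Matrix.sub_mul, Matrix.mul_assoc]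
    abel
  rw [← h, Derivation.commutator_apply]

/-- evaluation of the commutator -/
theorem BX_map {R : Type} [CommRing R] [Algebra F R] (f : Pf n F →ₐ[F] R) (B : Matrix (Fin n) (Fin n) F) :
    (BX B).map f = (cst B).map f * (bm (F := F)).map f - (bm (F := F)).map f * (cst B).map f := by
  have h3 : (cst B * bm : Matrix (Fin n) (Fin n) (Pf n F)).map f = (cst B).map f * (bm (F := F)).map f :=
    map_mulm (f : Pf n F →+* R) (cst B) bm
  have h4 : (bm * cst B : Matrix (Fin n) (Fin n) (Pf n F)).map f = (bm (F := F)).map f * (cst B).map f :=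
    map_mulm (f : Pf n F →+* R) bm (cst B)
  unfold BX
  rw [← h3, ← h4]
  ext i j : 1
  exact map_sub f _ _

theorem ev_BX (β B : Matrix (Fin n) (Fin n) F) : (BX B).map (ev β) = B * β - β * B := by
  rw [BX_map, ev_cst, ev_bm]

/-- the derivations in directions which fix the point -/
theorem ev_DX_zero {β B : Matrix (Fin n) (Fin n) F} (h : B * β = β * B) (Θ : Pf n F) : ev β (DX B Θ) = 0 := by
  induction Θ using MvPolynomial.induction_on with
  | C c =>
    have h1 : DX B (C c) = 0 := Derivation.map_algebraMap _ _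
    rw [h1, map_zero]
  | add p q hp hq => rw [map_add, map_add, hp, hq, add_zero]
  | mul_X p i hp =>
    rw [Derivation.leibniz, map_add, smul_eq_mul, smul_eq_mul, map_mul, map_mul, hp, mul_zero, add_zero, DX_X]
    have h1 : ev β (BX B i.1 i.2) = ((BX B).map (ev β)) i.1 i.2 := rfl
    rw [h1, ev_BX, h, sub_self, Matrix.zero_apply, mul_zero]

/-- the derivatives of `Ψ` of order `k` in the directions of `S` -/
noncomputable def Us (S : Submodule F (Matrix (Fin n) (Fin n) F)) (Ψ : Pf n F) : ℕ → Submodule F (Pf n F)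
  | 0 => Submodule.span F {Ψ}
  | k + 1 => Submodule.span F {Θ | ∃ X' ∈ S, ∃ Θ' ∈ Us S Ψ k, Θ = DX X' Θ'}

variable {S : Submodule F (Matrix (Fin n) (Fin n) F)} {Ψ : Pf n F}

theorem DX_Us {X' : Matrix (Fin n) (Fin n) F} (hX : X' ∈ S) {k : ℕ} {Θ : Pf n F} (hΘ : Θ ∈ Us S Ψ k) :
    DX X' Θ ∈ Us S Ψ (k + 1) := Submodule.subset_span ⟨X', hX, Θ, hΘ, rfl⟩

theorem Us_Z (hS : ∀ X' ∈ S, ∀ Y ∈ S, X' * Y - Y * X' ∈ S) {Z : Matrix (Fin n) (Fin n) F} (hZ : Z ∈ S)
    (hZΨ : DX Z Ψ = 0) (k : ℕ) : ∀ Θ ∈ Us S Ψ k, DX Z Θ ∈ Us S Ψ k ∧ (k = 0 → DX Z Θ = 0) := by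
  induction k with
  | zero =>
    intro Θ hΘ
    obtain ⟨c, rfl⟩ := Submodule.mem_span_singleton.1 hΘ
    rw [Derivation.map_smul, hZΨ, smul_zero]
    exact ⟨Submodule.zero_mem _, fun _ => rfl⟩
  | succ k ih =>
    intro Θ hΘ
    refine ⟨?_, fun h => absurd h (Nat.succ_ne_zero k)⟩
    have hΘ' : Θ ∈ Submodule.span F {Θ | ∃ X' ∈ S, ∃ Θ' ∈ Us S Ψ k, Θ = DX X' Θ'} := hΘ
    induction hΘ' using Submodule.span_induction with
    | mem Θ h =>
      obtain ⟨X', hX, Θ', h', rfl⟩ := h
      have h1 := DX_comm Z X' Θ'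
      have h2 : DX Z (DX X' Θ') = DX X' (DX Z Θ') + DX (X' * Z - Z * X') Θ' := by
        rw [← h1]
        ring
      rw [h2]
      exact Submodule.add_mem _ (DX_Us hX (ih _ h').1) (DX_Us (hS X' hX Z hZ) h')
    | zero => rw [map_zero]; exact Submodule.zero_mem _
    | add a b ha hb iha ihb => rw [map_add]; exact Submodule.add_mem _ (iha ha) (ihb hb)
    | smul c a ha iha => rw [Derivation.map_smul]; exact Submodule.smul_mem _ c (iha ha)

/-- every direction of `S` is the sum of one under which `Ψ` is invariant and of one which fixes `α` -/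
def Dec (S : Submodule F (Matrix (Fin n) (Fin n) F)) (Ψ : Pf n F) (α : Matrix (Fin n) (Fin n) F) : Prop :=
  ∀ X' ∈ S, ∃ Z B, X' = Z + B ∧ Z ∈ S ∧ DX Z Ψ = 0 ∧ B * α = α * B

theorem Us_van (hS : ∀ X' ∈ S, ∀ Y ∈ S, X' * Y - Y * X' ∈ S) {α : Matrix (Fin n) (Fin n) F} (hd : Dec S Ψ α) (k : ℕ) :
    ∀ Θ ∈ Us S Ψ (k + 1), ev α Θ = 0 := by
  induction k with
  | zero =>
    intro Θ hΘ
    have hΘ' : Θ ∈ Submodule.span F {Θ | ∃ X' ∈ S, ∃ Θ' ∈ Us S Ψ 0, Θ = DX X' Θ'} := hΘ
    induction hΘ' using Submodule.span_induction with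
    | mem Θ h =>
      obtain ⟨X', hX, Θ', h', rfl⟩ := h
      obtain ⟨Z, B, rfl, hZ, hZΨ, hB⟩ := hd X' hX
      rw [DX_add, Derivation.add_apply, map_add, ev_DX_zero hB, add_zero, (Us_Z hS hZ hZΨ 0 Θ' h').2 rfl, map_zero]
    | zero => exact map_zero _
    | add a b ha hb iha ihb => rw [map_add, iha ha, ihb hb, add_zero]
    | smul c a ha iha => rw [map_smul, iha ha, smul_zero]
  | succ k ih =>
    intro Θ hΘ
    have hΘ' : Θ ∈ Submodule.span F {Θ | ∃ X' ∈ S, ∃ Θ' ∈ Us S Ψ (k + 1), Θ = DX X' Θ'} := hΘ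
    induction hΘ' using Submodule.span_induction with
    | mem Θ h =>
      obtain ⟨X', hX, Θ', h', rfl⟩ := h
      obtain ⟨Z, B, rfl, hZ, hZΨ, hB⟩ := hd X' hX
      rw [DX_add, Derivation.add_apply, map_add, ev_DX_zero hB, add_zero, ih _ (Us_Z hS hZ hZΨ (k + 1) Θ' h').1]
    | zero => exact map_zero _
    | add a b ha hb iha ihb => rw [map_add, iha ha, ihb hb, add_zero]
    | smul c a ha iha => rw [map_smul, iha ha, smul_zero]

/-- the path through `β` in the direction of a nilpotent matrix -/
noncomputable def pth (x β : Matrix (Fin n) (Fin n) F) : Matrix (Fin n) (Fin n) (Polynomial F) :=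
  (1 + (Polynomial.X : Polynomial F) • x.map Polynomial.C) * β.map Polynomial.C *
    (1 - (Polynomial.X : Polynomial F) • x.map Polynomial.C)

/-- evaluation along the path -/
noncomputable def evp (M : Matrix (Fin n) (Fin n) (Polynomial F)) : Pf n F →ₐ[F] Polynomial F := aeval fun p => M p.1 p.2

theorem pC_mul (A B : Matrix (Fin n) (Fin n) F) : (A * B).map (Polynomial.C : F →+* Polynomial F) =
    A.map Polynomial.C * B.map Polynomial.C := map_mulm _ _ _

theorem der_pC (A : Matrix (Fin n) (Fin n) F) :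
    (A.map Polynomial.C).map (Polynomial.derivative : Polynomial F →ₗ[F] Polynomial F) = 0 := by
  ext i j : 1
  exact Polynomial.derivative_C

theorem der_mulm (A B : Matrix (Fin n) (Fin n) (Polynomial F)) :
    (A * B).map (Polynomial.derivative : Polynomial F →ₗ[F] Polynomial F) =
      A.map (Polynomial.derivative : Polynomial F →ₗ[F] Polynomial F) * B +
        A * B.map (Polynomial.derivative : Polynomial F →ₗ[F] Polynomial F) := by
  ext i j : 1
  simp only [Matrix.map_apply, Matrix.mul_apply, Matrix.add_apply, map_sum, Polynomial.derivative_mul,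
    Finset.sum_add_distrib]

theorem pth_der {x β : Matrix (Fin n) (Fin n) F} (hx : x * x = 0) :
    (pth x β).map (Polynomial.derivative : Polynomial F →ₗ[F] Polynomial F) =
      x.map Polynomial.C * pth x β - pth x β * x.map Polynomial.C := by
  have hx' : x.map (Polynomial.C : F →+* Polynomial F) * x.map Polynomial.C = 0 := by
    rw [← pC_mul, hx]
    ext i j : 1
    exact map_zero (Polynomial.C : F →+* Polynomial F)
  set y := x.map (Polynomial.C : F →+* Polynomial F) with hy
  set b := β.map (Polynomial.C : F →+* Polynomial F) with hb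
  have h1 : (1 + (Polynomial.X : Polynomial F) • y).map (Polynomial.derivative : Polynomial F →ₗ[F] Polynomial F) = y := by
    ext i j : 1
    rw [Matrix.map_apply, Matrix.add_apply, map_add, Matrix.smul_apply, smul_eq_mul, Polynomial.derivative_mul,
      Polynomial.derivative_X, one_mul, hy, Matrix.map_apply, Polynomial.derivative_C, mul_zero, add_zero,
      Matrix.one_apply]
    split_ifs <;> simp
  have h2 : (1 - (Polynomial.X : Polynomial F) • y).map (Polynomial.derivative : Polynomial F →ₗ[F] Polynomial F) = -y := by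
    ext i j : 1
    rw [Matrix.map_apply, Matrix.sub_apply, map_sub, Matrix.smul_apply, smul_eq_mul, Polynomial.derivative_mul,
      Polynomial.derivative_X, one_mul, hy, Matrix.map_apply, Polynomial.derivative_C, mul_zero, add_zero,
      Matrix.one_apply, Matrix.neg_apply, Matrix.map_apply]
    split_ifs <;> simp
  have h3 : b.map (Polynomial.derivative : Polynomial F →ₗ[F] Polynomial F) = 0 := der_pC β
  have e1 : y * (1 + (Polynomial.X : Polynomial F) • y) = y := by
    rw [Matrix.mul_add, Matrix.mul_one, Matrix.mul_smul, hx', smul_zero, add_zero]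
  have e2 : (1 - (Polynomial.X : Polynomial F) • y) * y = y := by
    rw [Matrix.sub_mul, Matrix.one_mul, Matrix.smul_mul, hx', smul_zero, sub_zero]
  unfold pth
  rw [← hy, ← hb, der_mulm, der_mulm, h1, h2, h3, Matrix.mul_zero, add_zero, Matrix.mul_neg,
    ← Matrix.mul_assoc y, ← Matrix.mul_assoc y, e1, Matrix.mul_assoc ((1 + (Polynomial.X : Polynomial F) • y) * b) _ y,
    e2]
  abel

theorem evp_der {x β : Matrix (Fin n) (Fin n) F} (hx : x * x = 0) (Θ : Pf n F) :
    Polynomial.derivative (evp (pth x β) Θ) = evp (pth x β) (DX x Θ) := by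
  induction Θ using MvPolynomial.induction_on with
  | C c =>
    have h1 : DX x (C c) = 0 := Derivation.map_algebraMap _ _
    have h2 : evp (pth x β) (C c) = Polynomial.C c := by
      unfold evp
      rw [aeval_C]
      rfl
    rw [h1, map_zero, h2, Polynomial.derivative_C]
  | add p q hp hq => rw [map_add, map_add, map_add, map_add, hp, hq]
  | mul_X p i hp =>
    rw [map_mul, Polynomial.derivative_mul, hp, Derivation.leibniz, map_add, smul_eq_mul, smul_eq_mul, map_mul, map_mul,
      add_comm]
    have h1 : evp (pth x β) (X i) = pth x β i.1 i.2 := by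
      unfold evp
      rw [aeval_X]
    have h2 : evp (pth x β) (DX x (X i)) = Polynomial.derivative (evp (pth x β) (X i)) := by
      rw [h1, DX_X]
      have h3 := congrFun (congrFun (pth_der (β := β) hx) i.1) i.2
      rw [Matrix.map_apply] at h3
      rw [h3]
      have h4 : evp (pth x β) (BX x i.1 i.2) = ((BX x).map (evp (pth x β))) i.1 i.2 := rfl
      rw [h4]
      have h5 : (cst x).map (evp (pth x β)) = x.map Polynomial.C := by
        ext a b : 1
        show evp (pth x β) (C (x a b)) = _
        unfold evp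
        rw [aeval_C]
        rfl
      have h6 : (bm (F := F)).map (evp (pth x β)) = pth x β := by
        ext a b : 1
        show evp (pth x β) (X (a, b)) = _
        unfold evp
        rw [aeval_X]
      rw [BX_map, h5, h6]
    rw [h2]
    ring

theorem evp_eval {x β : Matrix (Fin n) (Fin n) F} (c : F) (Θ : Pf n F) :
    Polynomial.eval c (evp (pth x β) Θ) = ev ((1 + c • x) * β * (1 - c • x)) Θ := by
  have h1 : (Polynomial.aeval c).comp (evp (pth x β)) = ev ((1 + c • x) * β * (1 - c • x)) := by
    apply MvPolynomial.algHom_ext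
    intro p
    rw [AlgHom.comp_apply]
    unfold evp ev
    rw [aeval_X, aeval_X]
    have h2 : Polynomial.aeval c (pth x β p.1 p.2) = ((pth x β).map (Polynomial.evalRingHom c)) p.1 p.2 := by
      rw [Matrix.map_apply, Polynomial.coe_evalRingHom, Polynomial.coe_aeval_eq_eval]
    rw [h2]
    unfold pth
    rw [map_mulm, map_mulm]
    have h3 : ∀ A : Matrix (Fin n) (Fin n) F, (A.map (Polynomial.C : F →+* Polynomial F)).map (Polynomial.evalRingHom c) = A := by
      intro A
      ext i j
      simp
    have h4 : ((1 : Matrix (Fin n) (Fin n) (Polynomial F)) + (Polynomial.X : Polynomial F) • x.map Polynomial.C).map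
        (Polynomial.evalRingHom c) = 1 + c • x := by
      ext i j
      simp only [Matrix.map_apply, Matrix.add_apply, Matrix.smul_apply, smul_eq_mul, Polynomial.coe_evalRingHom,
        Matrix.one_apply]
      split_ifs <;> simp <;> ring
    have h5 : ((1 : Matrix (Fin n) (Fin n) (Polynomial F)) - (Polynomial.X : Polynomial F) • x.map Polynomial.C).map
        (Polynomial.evalRingHom c) = 1 - c • x := by
      ext i j
      simp only [Matrix.map_apply, Matrix.sub_apply, Matrix.smul_apply, smul_eq_mul, Polynomial.coe_evalRingHom,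
        Matrix.one_apply]
      split_ifs <;> simp <;> ring
    rw [h3, h4, h5]
  rw [← h1, AlgHom.comp_apply, Polynomial.coe_aeval_eq_eval]

/-- all derivatives of `Ψ` vanish at `β`, and the values at `α` and `β` are the same -/
def Van (S : Submodule F (Matrix (Fin n) (Fin n) F)) (Ψ : Pf n F) (α β : Matrix (Fin n) (Fin n) F) : Prop :=
  (∀ k, ∀ Θ ∈ Us S Ψ (k + 1), ev β Θ = 0) ∧ ev β Ψ = ev α Ψ

theorem iter_mem {x : Matrix (Fin n) (Fin n) F} (hx : x ∈ S) {k : ℕ} {Θ : Pf n F} (hΘ : Θ ∈ Us S Ψ k) (j : ℕ) :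
    (DX x)^[j] Θ ∈ Us S Ψ (k + j) := by
  induction j with
  | zero => exact hΘ
  | succ j ih =>
    rw [Function.iterate_succ_apply']
    exact DX_Us hx ih

theorem evp_const [CharZero F] {x β : Matrix (Fin n) (Fin n) F} (hx : x * x = 0) {Θ : Pf n F}
    (h : ∀ j, ev β ((DX x)^[j + 1] Θ) = 0) (c : F) : ev ((1 + c • x) * β * (1 - c • x)) Θ = ev β Θ := by
  have h0 : ev β Θ = Polynomial.eval 0 (evp (pth x β) Θ) := by
    rw [evp_eval]
    simp
  rw [h0, ← evp_eval]
  set p := evp (pth x β) Θ with hp
  have h1 : ∀ j, Polynomial.derivative^[j] p = evp (pth x β) ((DX x)^[j] Θ) := by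
    intro j
    induction j with
    | zero => rfl
    | succ j ih => rw [Function.iterate_succ_apply', Function.iterate_succ_apply', ih, evp_der hx]
  have h2 : ∀ j, p.coeff (j + 1) = 0 := by
    intro j
    have h3 : Polynomial.eval 0 (Polynomial.derivative^[j + 1] p) = 0 := by
      rw [h1, evp_eval]
      simpa using h j
    rw [← Polynomial.coeff_zero_eq_eval_zero, Polynomial.coeff_iterate_derivative, zero_add,
      Nat.descFactorial_self, nsmul_eq_mul] at h3
    exact (mul_eq_zero.1 h3).resolve_left (by exact_mod_cast (j + 1).factorial_ne_zero)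
  have h4 : p = Polynomial.C (p.coeff 0) := by
    ext j
    rcases j with _ | j
    · simp
    · rw [h2, Polynomial.coeff_C_succ]
  rw [h4, Polynomial.eval_C, Polynomial.eval_C]

theorem Van.step [CharZero F] {α β : Matrix (Fin n) (Fin n) F} (h : Van S Ψ α β) {x : Matrix (Fin n) (Fin n) F} (hx : x ∈ S)
    (hxx : x * x = 0) (c : F) : Van S Ψ α ((1 + c • x) * β * (1 - c • x)) := by
  refine ⟨fun k Θ hΘ => ?_, ?_⟩
  · rw [evp_const hxx (fun j => ?_), h.1 k Θ hΘ]
    have h1 := iter_mem hx hΘ (j + 1)
    have h2 : k + 1 + (j + 1) = (k + j + 1) + 1 := by ring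
    rw [h2] at h1
    exact h.1 _ _ h1
  · rw [evp_const hxx (fun j => ?_), h.2]
    have h0 : Ψ ∈ Us S Ψ 0 := Submodule.mem_span_singleton_self Ψ
    have h1 := iter_mem hx h0 (j + 1)
    rw [zero_add] at h1
    exact h.1 _ _ h1

end Pool.Agent.H936.SL
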