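import Pool.Agent.H936.SL.Kk
import Pool.Graph.R_pool_sql_team_seeded_620a6dc7.Helper880_R3.Out

/-!
# Projections of Lie algebras of block matrices
-/

set_option autoImplicit false
set_option linter.unusedSectionVars false
set_option linter.unusedVariables false

open Matrix Module

namespace Pool.Agent.H936.SL

open Pool.Agent.Helper880_LF
open Pool.Agent.Helper880_R3 (Ix ib ib_apply ib_inj ib_mul Tot)

section thmC
variable {F : Type} [Field F] [CharZero F] {n : ℕ} {J : Matrix (Fin n) (Fin n) F}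

/-- a symmetric operator which is not scalar, or a skew operator whose square is a scalar different from zero -/
def Ty (J : Matrix (Fin n) (Fin n) F) (α : Mn n F) : Prop :=
  (Sy J α ∧ ∃ w, α *ᵥ w ∉ Submodule.span F {w}) ∨ (Sk J α ∧ ∃ c : F, c ≠ 0 ∧ ∀ v, α *ᵥ (α *ᵥ v) = c • v)

/-- **The symplectic Lie algebra is not the sum of a normaliser and a centraliser.** -/
theorem thmC [IsAlgClosed F] (hJ : Jᵀ = -J) (hdet : IsUnit J.det) (hn : 3 ≤ n) {𝔩 : Submodule F (Mn n F)} (hTN : TN 𝔩)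
    (hle : 𝔩 ≤ spS J) {α : Mn n F} (hα : Ty J α)
    (hdec : ∀ X ∈ spS J, ∃ Z B, X = Z + B ∧ Z ∈ spS J ∧ (∀ Y ∈ 𝔩, Z * Y - Y * Z ∈ 𝔩) ∧ B * α = α * B) :
    𝔩 = ⊥ ∨ 𝔩 = spS J := by
  rcases hα with ⟨h1, h2⟩ | ⟨h1, c, hc, h2⟩
  · exact thm_S hJ hdet hn hTN hle h1 h2 hdec
  · exact thm_K hJ hdet hn hTN hle h1 hc h2 hdec

end thmC

variable {F : Type} [Field F] {n N r₀ : ℕ} {J : Matrix (Fin n) (Fin n) F}

theorem Tot_mul' (x y : Matrix (Fin r₀) (Fin r₀) F) (X Y : Fin N → Matrix (Fin n) (Fin n) F) :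
    Tot x X * Tot y Y = Tot (x * y) fun j => X j * Y j := by
  unfold Tot
  rw [fromBlocks_multiply, ← blockDiagonal_mul]
  simp

theorem Tot_sub (x y : Matrix (Fin r₀) (Fin r₀) F) (X Y : Fin N → Matrix (Fin n) (Fin n) F) :
    Tot x X - Tot y Y = Tot (x - y) fun j => X j - Y j := by
  have h : (fun j => X j - Y j) = X - Y := rfl
  unfold Tot
  rw [h, blockDiagonal_sub]
  ext (a | a) (b | b) <;> simp

theorem Tot_add (x y : Matrix (Fin r₀) (Fin r₀) F) (X Y : Fin N → Matrix (Fin n) (Fin n) F) :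
    Tot x X + Tot y Y = Tot (x + y) fun j => X j + Y j := by
  unfold Tot
  rw [fromBlocks_add, add_zero, add_zero]
  congr 1
  exact (blockDiagonal_add X Y).symm

theorem Tot_smul (c : F) (x : Matrix (Fin r₀) (Fin r₀) F) (X : Fin N → Matrix (Fin n) (Fin n) F) :
    c • Tot x X = Tot (c • x) fun j => c • X j := by
  unfold Tot
  rw [fromBlocks_smul, smul_zero, smul_zero]
  congr 1
  exact (blockDiagonal_smul c X).symm

theorem Tot_zero : Tot (0 : Matrix (Fin r₀) (Fin r₀) F) (fun _ : Fin N => (0 : Matrix (Fin n) (Fin n) F)) = 0 := by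
  unfold Tot
  have h : (blockDiagonal fun _ : Fin N => (0 : Matrix (Fin n) (Fin n) F)) = 0 := blockDiagonal_zero
  rw [h, fromBlocks_zero]

theorem Tot_one' : Tot (1 : Matrix (Fin r₀) (Fin r₀) F) (fun _ : Fin N => (1 : Matrix (Fin n) (Fin n) F)) = 1 := by
  unfold Tot
  have h : (blockDiagonal fun _ : Fin N => (1 : Matrix (Fin n) (Fin n) F)) = 1 := blockDiagonal_one
  rw [h, fromBlocks_one]

/-- commutators of block matrices -/
theorem Tot_br (x y : Matrix (Fin r₀) (Fin r₀) F) (X Y : Fin N → Matrix (Fin n) (Fin n) F) :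
    Tot x X * Tot y Y - Tot y Y * Tot x X = Tot (x * y - y * x) fun j => X j * Y j - Y j * X j := by
  rw [Tot_mul', Tot_mul', Tot_sub]

theorem ib_Tot (i : Fin N) (X : Matrix (Fin n) (Fin n) F) : ib (r₀ := r₀) i X = Tot 0 (Pi.single i X) := rfl

/-- the similitudes -/
def GS (J : Matrix (Fin n) (Fin n) F) (X : Mn n F) : Prop := ∃ c : F, X + c • (1 : Mn n F) ∈ spS J

theorem GS.zero : GS J (0 : Mn n F) := ⟨0, by rw [zero_smul, add_zero]; exact (spS J).zero_mem⟩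

theorem GS.of {X : Mn n F} (h : X ∈ spS J) : GS J X := ⟨0, by rwa [zero_smul, add_zero]⟩

theorem GS.add {X Y : Mn n F} (hX : GS J X) (hY : GS J Y) : GS J (X + Y) := by
  obtain ⟨c, hc⟩ := hX
  obtain ⟨d, hd⟩ := hY
  refine ⟨c + d, ?_⟩
  have h := (spS J).add_mem hc hd
  rw [add_smul]
  convert h using 1
  abel

theorem GS.smul {X : Mn n F} (a : F) (hX : GS J X) : GS J (a • X) := by
  obtain ⟨c, hc⟩ := hX
  refine ⟨a * c, ?_⟩
  have h := (spS J).smul_mem a hc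
  rwa [smul_add, smul_smul] at h

/-- commutators do not see the scalars -/
theorem br_scalar' (X Y : Mn n F) (c d : F) :
    (X + c • (1 : Mn n F)) * (Y + d • (1 : Mn n F)) - (Y + d • (1 : Mn n F)) * (X + c • (1 : Mn n F)) = X * Y - Y * X := by
  simp only [Matrix.add_mul, Matrix.mul_add, Matrix.smul_mul, Matrix.mul_smul, Matrix.one_mul, Matrix.mul_one]
  module

theorem GS.br (hJ : Jᵀ = -J) {X Y : Mn n F} (hX : GS J X) (hY : GS J Y) : X * Y - Y * X ∈ spS J := by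
  obtain ⟨c, hc⟩ := hX
  obtain ⟨d, hd⟩ := hY
  rw [← br_scalar' X Y c d]
  exact comm_mem hJ hc hd

/-- the projection to a block, modulo scalars, of the block diagonal part -/
def Pj (J : Matrix (Fin n) (Fin n) F) (Λ : Submodule F (Matrix (Ix r₀ n N) (Ix r₀ n N) F)) (j : Fin N) :
    Submodule F (Mn n F) where
  carrier := {X | X ∈ spS J ∧ ∃ (e : Matrix (Fin r₀) (Fin r₀) F) (y : Fin N → Mn n F) (c : F), Tot e y ∈ Λ ∧
    (∀ i, GS J (y i)) ∧ y j = X + c • (1 : Mn n F)}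
  zero_mem' := ⟨(spS J).zero_mem, 0, fun _ => 0, 0, by rw [Tot_zero]; exact Λ.zero_mem, fun _ => GS.zero, by
    rw [zero_smul, add_zero]⟩
  add_mem' := by
    rintro X Y ⟨h0, e, y, c, h1, h2, h3⟩ ⟨h0', e', y', c', h1', h2', h3'⟩
    refine ⟨(spS J).add_mem h0 h0', e + e', fun i => y i + y' i, c + c', ?_, fun i => (h2 i).add (h2' i), ?_⟩
    · rw [← Tot_add]
      exact Λ.add_mem h1 h1'
    · show y j + y' j = _
      rw [h3, h3', add_smul]
      abel
  smul_mem' := by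
    rintro a X ⟨h0, e, y, c, h1, h2, h3⟩
    refine ⟨(spS J).smul_mem a h0, a • e, fun i => a • y i, a * c, ?_, fun i => (h2 i).smul a, ?_⟩
    · rw [← Tot_smul]
      exact Λ.smul_mem a h1
    · show a • y j = _
      rw [h3, smul_add, smul_smul]

variable {Λ : Submodule F (Matrix (Ix r₀ n N) (Ix r₀ n N) F)} {j : Fin N}

theorem Pj_le : Pj J Λ j ≤ spS J := fun X hX => hX.1

/-- normalising elements -/
theorem Pj_nrm (hJ : Jᵀ = -J) {e' : Matrix (Fin r₀) (Fin r₀) F} {a : Fin N → Mn n F} (ha : ∀ i, GS J (a i))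
    (hn : ∀ w ∈ Λ, Tot e' a * w - w * Tot e' a ∈ Λ) {Z : Mn n F} {c : F} (hZ : Z ∈ spS J)
    (hZa : a j = Z + c • (1 : Mn n F)) : ∀ X ∈ Pj J Λ j, Z * X - X * Z ∈ Pj J Λ j := by
  rintro X ⟨h0, e, y, d, h1, h2, h3⟩
  refine ⟨comm_mem hJ hZ h0, e' * e - e * e', fun i => a i * y i - y i * a i, 0, ?_, fun i => GS.of ((ha i).br hJ (h2 i)), ?_⟩
  · rw [← Tot_br]
    exact hn _ h1
  · show a j * y j - y j * a j = _
    rw [zero_smul, add_zero, hZa, h3, br_scalar']

theorem Pj_br (hJ : Jᵀ = -J) (hΛ : ∀ x ∈ Λ, ∀ y ∈ Λ, x * y - y * x ∈ Λ) :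
    ∀ X ∈ Pj J Λ j, ∀ Y ∈ Pj J Λ j, X * Y - Y * X ∈ Pj J Λ j := by
  rintro X ⟨h0, e, y, d, h1, h2, h3⟩ Y hY
  exact Pj_nrm hJ h2 (fun w hw => hΛ _ h1 _ hw) h0 h3 Y hY

theorem single_br (i : Fin N) (A : Mn n F) (e : Matrix (Fin r₀) (Fin r₀) F) (y : Fin N → Mn n F) :
    ib (r₀ := r₀) i A * Tot e y - Tot e y * ib i A = ib i (A * y i - y i * A) := by
  rw [ib_Tot, ib_Tot, Tot_br, Matrix.zero_mul, Matrix.mul_zero, sub_zero]
  congr 1
  funext l
  by_cases h : l = i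
  · subst h
    rw [Pi.single_eq_same, Pi.single_eq_same]
  · rw [Pi.single_eq_of_ne h, Pi.single_eq_of_ne h, Matrix.zero_mul, Matrix.mul_zero, sub_zero]

/-- the symplectic Lie algebra has trivial centre -/
theorem spS_centre [CharZero F] (hJ : Jᵀ = -J) (hdet : IsUnit J.det) {A : Mn n F} (hA : A ∈ spS J)
    (h : ∀ X ∈ spS J, A * X - X * A = 0) : A = 0 := by
  apply mul_ext
  intro u
  rw [zero_mulVec]
  by_cases hu : u = 0
  · rw [hu, mulVec_zero]
  have h1 := comm_pr hJ hA u u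
  rw [h _ (pr_mem hJ u u), pr_symm u (A *ᵥ u), ← two_smul F] at h1
  have h2 : pr J (A *ᵥ u) u = 0 := (smul_eq_zero.1 h1.symm).resolve_left two_ne_zero
  set a := A *ᵥ u with ha
  obtain ⟨w', hw'⟩ := exists_nonorth hJ hdet hu
  have h3 := congrArg (fun X : Mn n F => X *ᵥ w') h2
  simp only [pr_mulVec, zero_mulVec] at h3
  have h4 : a = (-(om J u w')⁻¹ * om J a w') • u := by
    have h5 : om J u w' • a = (-om J a w') • u := by
      rw [neg_smul, eq_neg_iff_add_eq_zero]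
      exact h3
    calc a = (om J u w')⁻¹ • (om J u w' • a) := by rw [smul_smul, inv_mul_cancel₀ hw', one_smul]
      _ = _ := by
        rw [h5, smul_smul]
        congr 1
        ring
  set κ := -(om J u w')⁻¹ * om J a w' with hκ
  rw [h4] at h3
  rw [om_smul_left, smul_smul, ← add_smul] at h3
  have h6 := (smul_eq_zero.1 h3).resolve_right hu
  have h7 : 2 * om J u w' * κ = 0 := by linear_combination h6
  have h8 := (mul_eq_zero.1 h7).resolve_left (mul_ne_zero two_ne_zero hw')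
  rw [h4, h8, zero_smul]

/-- **the last step** -/
theorem link [CharZero F] (hJ : Jᵀ = -J) (hdet : IsUnit J.det) (hΛ : ∀ x ∈ Λ, ∀ y ∈ Λ, x * y - y * x ∈ Λ)
    (hfull : spS J ≤ Pj J Λ j) {A : Mn n F} (hA : A ∈ spS J) (hA0 : A ≠ 0)
    (hn : ∀ w ∈ Λ, ib (r₀ := r₀) j A * w - w * ib j A ∈ Λ) : ∀ Y ∈ spS J, ib (r₀ := r₀) j Y ∈ Λ := by
  let I : Submodule F (Mn n F) := Λ.comap (ib j)
  have h1 : ∀ X ∈ spS J, A * X - X * A ∈ I := by
    intro X hX
    obtain ⟨-, e, y, c, h1, h2, h3⟩ := hfull hX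
    have h4 := hn _ h1
    rw [single_br, h3] at h4
    have h5 := br_scalar' A X 0 c
    rw [zero_smul, add_zero] at h5
    rw [h5] at h4
    exact h4
  obtain ⟨X, hX, hX0⟩ : ∃ X ∈ spS J, A * X - X * A ≠ 0 := by
    by_contra hcon
    push Not at hcon
    exact hA0 (spS_centre hJ hdet hA hcon)
  have h2 : ∀ x ∈ spS J, ∀ y ∈ I, x * y - y * x ∈ I := by
    intro x hx Y hY
    obtain ⟨-, e, y, c, h1, h2, h3⟩ := hfull hx
    have h4 : ib j Y * Tot e y - Tot e y * ib j Y ∈ Λ := hΛ _ hY _ h1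
    rw [single_br, h3] at h4
    have h5 := br_scalar' Y x 0 c
    rw [zero_smul, add_zero] at h5
    rw [h5] at h4
    have h6 := Λ.neg_mem h4
    rw [← map_neg, neg_sub] at h6
    exact h6
  exact simple hJ hdet h2 (h1 X hX) (comm_mem hJ hA hX) hX0

end Pool.Agent.H936.SL
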