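import Pool.Agent.H936.SL.Cor

/-!
# The quartic form of a projection
-/

set_option autoImplicit false
set_option linter.unusedSectionVars false
set_option linter.unusedVariables false

open Matrix Module MvPolynomial

namespace Pool.Agent.H936.SL

open Pool.Agent.Helper880_LF

variable {F : Type} [Field F] {n : ℕ} {J : Matrix (Fin n) (Fin n) F}

/-- traces against products of vectors -/
theorem tr_pr (X : Mn n F) (u v : Fin n → F) :
    Matrix.trace (X * pr J u v) = om J v (X *ᵥ u) + om J u (X *ᵥ v) := by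
  have h : ∀ a b : Fin n → F, Matrix.trace (X * (vecMulVec a b * J)) = om J b (X *ᵥ a) := by
    intro a b
    rw [← Matrix.mul_assoc, Matrix.mul_vecMulVec, Matrix.trace_mul_comm, Matrix.mul_vecMulVec, Matrix.trace_vecMulVec,
      dotProduct_comm]
    rfl
  unfold pr
  rw [Matrix.add_mul, Matrix.mul_add, Matrix.trace_add, h, h]

/-- the bilinear form on the products -/
def br (J : Matrix (Fin n) (Fin n) F) (a b c d : Fin n → F) : F := Matrix.trace (pr J a b * pr J c d)

/-- the quartic form of an operator -/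
def Q (J : Matrix (Fin n) (Fin n) F) (P : Mn n F →ₗ[F] Mn n F) (a b c d : Fin n → F) : F :=
  Matrix.trace (P (pr J a b) * pr J c d)

section lin
variable (P : Mn n F →ₗ[F] Mn n F)

theorem Q_s12 (a b c d : Fin n → F) : Q J P a b c d = Q J P b a c d := by unfold Q; rw [pr_symm a b]

theorem Q_s34 (a b c d : Fin n → F) : Q J P a b c d = Q J P a b d c := by unfold Q; rw [pr_symm c d]

theorem Q_add1 (a a' b c d : Fin n → F) : Q J P (a + a') b c d = Q J P a b c d + Q J P a' b c d := by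
  unfold Q; rw [pr_add_left, map_add, Matrix.add_mul, Matrix.trace_add]

theorem Q_smul1 (r : F) (a b c d : Fin n → F) : Q J P (r • a) b c d = r * Q J P a b c d := by
  unfold Q; rw [pr_smul_left, map_smul, Matrix.smul_mul, Matrix.trace_smul, smul_eq_mul]

theorem Q_add2 (a b b' c d : Fin n → F) : Q J P a (b + b') c d = Q J P a b c d + Q J P a b' c d := by
  rw [Q_s12, Q_add1, Q_s12 P b, Q_s12 P b']

theorem Q_smul2 (r : F) (a b c d : Fin n → F) : Q J P a (r • b) c d = r * Q J P a b c d := by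
  rw [Q_s12, Q_smul1, Q_s12 P b]

theorem Q_add3 (a b c c' d : Fin n → F) : Q J P a b (c + c') d = Q J P a b c d + Q J P a b c' d := by
  unfold Q; rw [pr_add_left, Matrix.mul_add, Matrix.trace_add]

theorem Q_smul3 (r : F) (a b c d : Fin n → F) : Q J P a b (r • c) d = r * Q J P a b c d := by
  unfold Q; rw [pr_smul_left, Matrix.mul_smul, Matrix.trace_smul, smul_eq_mul]

theorem Q_add4 (a b c d d' : Fin n → F) : Q J P a b c (d + d') = Q J P a b c d + Q J P a b c d' := by
  rw [Q_s34, Q_add3, Q_s34 P a b d, Q_s34 P a b d']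

theorem Q_smul4 (r : F) (a b c d : Fin n → F) : Q J P a b c (r • d) = r * Q J P a b c d := by
  rw [Q_s34, Q_smul3, Q_s34 P a b d]

theorem br_eq (a b c d : Fin n → F) : br J a b c d = Q J LinearMap.id a b c d := rfl

end lin

/-- the defect -/
def Kf (J : Matrix (Fin n) (Fin n) F) (P : Mn n F →ₗ[F] Mn n F) (u v : Fin n → F) : F := Q J P u u v v - Q J P u v u v

variable [CharZero F] (hJ : Jᵀ = -J)
include hJ

omit hJ [CharZero F] in
/-- elements of the symplectic Lie algebra are skew -/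
theorem skew {X : Mn n F} (hX : X ∈ spS J) (u v : Fin n → F) : om J (X *ᵥ u) v = -om J u (X *ᵥ v) := by
  rw [mem_spS] at hX
  have h1 : Xᵀ * J = -(J * X) := by rw [eq_neg_iff_add_eq_zero]; exact hX
  unfold om
  rw [← vecMul_transpose, ← dotProduct_mulVec, mulVec_mulVec, h1, neg_mulVec, dotProduct_neg, ← mulVec_mulVec]

theorem tr_pr' {X : Mn n F} (hX : X ∈ spS J) (u v : Fin n → F) : Matrix.trace (X * pr J u v) = 2 * om J u (X *ᵥ v) := by
  rw [tr_pr, om_swap hJ v, skew hX]
  ring

theorem br_val (a b c d : Fin n → F) : br J a b c d = 2 * (om J d b * om J a c + om J c b * om J a d) := by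
  unfold br
  rw [tr_pr' hJ (pr_mem hJ a b), pr_mulVec, om_add_right, om_smul_right, om_smul_right, om_swap hJ c a, om_swap hJ c b,
    om_swap hJ d b]
  ring

theorem Q_swap {𝔩 : Submodule F (Mn n F)} {P : Mn n F →ₗ[F] Mn n F} (hP : IsPr 𝔩 P) (a b c d : Fin n → F) :
    Q J P a b c d = Q J P c d a b := by
  unfold Q
  rw [hP.adj, Matrix.trace_mul_comm]

theorem Q_inv {𝔩 : Submodule F (Mn n F)} {P : Mn n F →ₗ[F] Mn n F} (hTN : TN 𝔩) (hP : IsPr 𝔩 P) {Z : Mn n F}
    (hZ : Z ∈ spS J) (hZl : ∀ Y ∈ 𝔩, Z * Y - Y * Z ∈ 𝔩) (a b c d : Fin n → F) :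
    Q J P (Z *ᵥ a) b c d + Q J P a (Z *ᵥ b) c d + Q J P a b (Z *ᵥ c) d + Q J P a b c (Z *ᵥ d) = 0 := by
  have h1 : Q J P (Z *ᵥ a) b c d + Q J P a (Z *ᵥ b) c d = Matrix.trace ((Z * P (pr J a b) - P (pr J a b) * Z) * pr J c d) := by
    rw [← hP.comm hTN hZl, comm_pr hJ hZ]
    unfold Q
    rw [map_add, Matrix.add_mul, Matrix.trace_add]
  have h2 : Q J P a b (Z *ᵥ c) d + Q J P a b c (Z *ᵥ d) = Matrix.trace (P (pr J a b) * (Z * pr J c d - pr J c d * Z)) := by
    rw [comm_pr hJ hZ]
    unfold Q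
    rw [Matrix.mul_add, Matrix.trace_add]
  have h3 : Matrix.trace ((Z * P (pr J a b) - P (pr J a b) * Z) * pr J c d) +
      Matrix.trace (P (pr J a b) * (Z * pr J c d - pr J c d * Z)) = 0 := by
    rw [Matrix.sub_mul, Matrix.mul_sub, Matrix.trace_sub, Matrix.trace_sub, ← Matrix.mul_assoc _ (pr J c d) Z,
      Matrix.trace_mul_comm (P (pr J a b) * pr J c d) Z, ← Matrix.mul_assoc Z, ← Matrix.mul_assoc _ Z]
    ring
  rw [← h3, ← h1, ← h2]
  ring

/-! ### The defect -/

variable {𝔩 : Submodule F (Mn n F)} {P : Mn n F →ₗ[F] Mn n F} (hP : IsPr 𝔩 P)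
include hP

theorem Kf_symm (u v : Fin n → F) : Kf J P u v = Kf J P v u := by
  unfold Kf
  rw [Q_swap hJ hP u u, Q_s12 P u v u v, Q_s34 P v u u v]

/-- the defect is divisible by the form -/
theorem Kf_fac (hdet : IsUnit J.det) (hK : ∀ u v, om J u v = 0 → Kf J P u v = 0) (u : Fin n → F) :
    ∃ z : Fin n → F, ∀ v, Kf J P u v = om J u v * om J z v := by
  by_cases hu : u = 0
  · refine ⟨0, fun v => ?_⟩
    rw [hu, om_zero_left, zero_mul]
    exact hK 0 v (om_zero_left v)
  obtain ⟨y', hy'⟩ := exists_nonorth hJ hdet hu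
  obtain ⟨y, hy⟩ : ∃ y, om J u y = 1 := ⟨(om J u y')⁻¹ • y', by rw [om_smul_right, inv_mul_cancel₀ hy']⟩
  let L : (Fin n → F) →ₗ[F] F :=
    { toFun := fun v => 2 * Q J P u u (v + (-om J u v) • y) y - 2 * Q J P u (v + (-om J u v) • y) u y +
        om J u v * Kf J P u y
      map_add' := fun v v' => by
        simp only [om_add_right, Q_add3, Q_add2, Q_smul3, Q_smul2, neg_add]
        ring
      map_smul' := fun c v => by
        simp only [om_smul_right, Q_add3, Q_add2, Q_smul3, Q_smul2, RingHom.id_apply, smul_eq_mul]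
        ring }
  obtain ⟨z, hz⟩ := exists_om hJ hdet L
  refine ⟨z, fun v => ?_⟩
  rw [← hz]
  have h1 := hK u (v + (-om J u v) • y) (by rw [om_add_right, om_smul_right, hy]; ring)
  show _ = om J u v * (2 * Q J P u u (v + (-om J u v) • y) y - 2 * Q J P u (v + (-om J u v) • y) u y +
        om J u v * Kf J P u y)
  unfold Kf at h1 ⊢
  simp only [Q_add2, Q_add3, Q_add4, Q_smul2, Q_smul3, Q_smul4] at h1 ⊢
  rw [Q_s34 P u u y v, Q_swap hJ hP u y u v] at h1
  rw [Q_swap hJ hP u v u y] at h1 ⊢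
  linear_combination h1

/-- **the division lemma** -/
theorem division (hdet : IsUnit J.det) (hK : ∀ u v, om J u v = 0 → Kf J P u v = 0) :
    ∃ m : Mn n F, (∀ u v, Kf J P u v = om J u v * om J (m *ᵥ u) v) ∧ Sy J m := by
  choose! z' hz' using Kf_fac hJ hP hdet hK
  obtain ⟨z, hz, hz0⟩ : ∃ z : (Fin n → F) → (Fin n → F), (∀ u v, Kf J P u v = om J u v * om J (z u) v) ∧ z 0 = 0 := by
    classical
    refine ⟨fun u => if u = 0 then 0 else z' u, fun u v => ?_, if_pos rfl⟩
    by_cases h : u = 0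
    · show _ = om J u v * om J (if u = 0 then 0 else z' u) v
      rw [if_pos h, h, om_zero_left, zero_mul]
      exact hK 0 v (om_zero_left v)
    · show _ = om J u v * om J (if u = 0 then 0 else z' u) v
      rw [if_neg h]
      exact hz' u v
  have h1 : ∀ u v, om J u v ≠ 0 → om J (z u) v = om J u (z v) := by
    intro u v huv
    have h2 := Kf_symm hJ hP u v
    rw [hz, hz, om_swap hJ v u, om_swap hJ (z v) u] at h2
    have h3 : om J u v * (om J (z u) v - om J u (z v)) = 0 := by linear_combination h2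
    exact sub_eq_zero.1 ((mul_eq_zero.1 h3).resolve_left huv)
  -- a vector orthogonal to almost nothing
  have hkey : ∀ (a : Fin n → F) (l : List (Fin n → F)), (∀ v, (∀ b ∈ l, b ≠ 0 → om J b v ≠ 0) → om J a v = 0) → a = 0 := by
    intro a l h
    by_contra ha
    classical
    obtain ⟨v, hv⟩ := avoid hJ hdet (a :: l.filter (· ≠ 0)) fun b hb => by
      rcases List.mem_cons.1 hb with rfl | hb
      · exact ha
      · simpa using (List.mem_filter.1 hb).2
    exact hv a List.mem_cons_self (h v fun b hb hb0 => hv b (List.mem_cons_of_mem _ (List.mem_filter.2 ⟨hb, by simpa using hb0⟩)))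
  have h1' : ∀ u v, (u ≠ 0 → om J u v ≠ 0) → om J (z u) v = om J u (z v) := by
    intro u v h
    by_cases hu : u = 0
    · rw [hu, hz0, om_zero_left, om_zero_left]
    · exact h1 u v (h hu)
  have hadd : ∀ u u', z (u + u') = z u + z u' := by
    intro u u'
    have h2 := hkey (z (u + u') - (z u + z u')) [u, u', u + u'] fun v hv => by
      have e1 := h1' u v (hv u (by simp))
      have e2 := h1' u' v (hv u' (by simp))
      have e3 := h1' (u + u') v (hv (u + u') (by simp))
      rw [om_sub_left, om_add_left, e1, e2, e3, om_add_left, sub_self]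
    exact sub_eq_zero.1 h2
  have hsmul : ∀ (c : F) u, z (c • u) = c • z u := by
    intro c u
    have h2 := hkey (z (c • u) - c • z u) [u, c • u] fun v hv => by
      have e1 := h1' u v (hv u (by simp))
      have e3 := h1' (c • u) v (hv (c • u) (by simp))
      rw [om_sub_left, om_smul_left, e1, e3, om_smul_left, sub_self]
    exact sub_eq_zero.1 h2
  let Z : (Fin n → F) →ₗ[F] (Fin n → F) := { toFun := z, map_add' := hadd, map_smul' := hsmul }
  have hZ : ∀ u, LinearMap.toMatrix' Z *ᵥ u = z u := by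
    intro u
    rw [LinearMap.toMatrix'_mulVec]
    rfl
  refine ⟨LinearMap.toMatrix' Z, fun u v => by rw [hZ, hz], fun u v => ?_⟩
  rw [hZ, hZ]
  by_cases hu : u = 0
  · rw [hu, hz0, om_zero_left, om_zero_left]
  by_cases huv : om J u v = 0
  · obtain ⟨y, hy⟩ := exists_nonorth hJ hdet hu
    have e1 := h1 u y hy
    have e2 := h1 u (v + y) (by rw [om_add_right, huv, zero_add]; exact hy)
    rw [hadd, om_add_right, om_add_right, e1] at e2
    exact add_right_cancel e2
  · exact h1 u v huv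

omit hP in
/-- the defect of an invariant form -/
theorem Kf_comm (hTN : TN 𝔩) (hP : IsPr 𝔩 P) (hdet : IsUnit J.det) {m : Mn n F}
    (hm : ∀ u v, Kf J P u v = om J u v * om J (m *ᵥ u) v) {Z : Mn n F} (hZ : Z ∈ spS J)
    (hZl : ∀ Y ∈ 𝔩, Z * Y - Y * Z ∈ 𝔩) : Z * m = m * Z := by
  apply mul_ext
  intro u
  have hkey : ∀ (a b : Fin n → F), (∀ v, om J b v ≠ 0 → om J a v = 0) → b ≠ 0 → a = 0 := by
    intro a b h hb
    by_contra ha
    obtain ⟨v, hv⟩ := avoid hJ hdet [a, b] (by simp [ha, hb])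
    exact hv a (by simp) (h v (hv b (by simp)))
  by_cases hu : u = 0
  · rw [hu, mulVec_zero, mulVec_zero]
  rw [← mulVec_mulVec, ← mulVec_mulVec]
  rw [← sub_eq_zero]
  refine hkey _ u (fun v huv => ?_) hu
  -- polarisation
  have h1 : ∀ u' , 2 * Q J P u' u v v - 2 * Q J P u v u' v = om J u v * om J (m *ᵥ u') v + om J u' v * om J (m *ᵥ u) v := by
    intro u'
    have e1 := hm (u + u') v
    have e2 := hm u v
    have e3 := hm u' v
    unfold Kf at e1 e2 e3
    rw [mulVec_add] at e1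
    simp only [Q_add1, Q_add2, Q_add3, om_add_left] at e1
    rw [Q_s12 P u u' v v, Q_swap hJ hP u' v u v] at e1
    linear_combination e1 - e2 - e3
  have h2 : ∀ v' , 2 * Q J P u u v' v - 2 * Q J P u v u v' = om J u v * om J (m *ᵥ u) v' + om J u v' * om J (m *ᵥ u) v := by
    intro v'
    have e1 := hm u (v + v')
    have e2 := hm u v
    have e3 := hm u v'
    unfold Kf at e1 e2 e3
    simp only [Q_add2, Q_add3, Q_add4, om_add_right] at e1
    rw [Q_s34 P u u v v', Q_swap hJ hP u v' u v] at e1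
    linear_combination e1 - e2 - e3
  have e1 := h1 (Z *ᵥ u)
  have e2 := h2 (Z *ᵥ v)
  have e3 := Q_inv hJ hTN hP hZ hZl u u v v
  have e4 := Q_inv hJ hTN hP hZ hZl u v u v
  rw [Q_s12 P u (Z *ᵥ u) v v, Q_s34 P u u v (Z *ᵥ v)] at e3
  rw [Q_swap hJ hP (Z *ᵥ u) v u v, Q_swap hJ hP u (Z *ᵥ v) u v] at e4
  rw [om_sub_left, skew hZ]
  have e5 : om J (Z *ᵥ u) v = -om J u (Z *ᵥ v) := skew hZ u v
  rw [e5] at e1
  have e6 : om J u v * (-om J (m *ᵥ u) (Z *ᵥ v) - om J (m *ᵥ Z *ᵥ u) v) = 0 := by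
    linear_combination e1 + e2 - e3 + e4
  exact (mul_eq_zero.1 e6).resolve_left huv

end Pool.Agent.H936.SL
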