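import Pool.Agent.H936.SL.Nil

/-!
# Symmetric quartic forms
-/

set_option autoImplicit false
set_option linter.unusedSectionVars false
set_option linter.unusedVariables false

open Matrix Module

namespace Pool.Agent.H936.SL

open Pool.Agent.Helper880_LF

variable {F : Type} [Field F] {n : ℕ}

/-- symmetric quadrilinear forms -/
structure SF (f : (Fin n → F) → (Fin n → F) → (Fin n → F) → (Fin n → F) → F) : Prop where
  add : ∀ a a' b c d, f (a + a') b c d = f a b c d + f a' b c d
  smul : ∀ (r : F) a b c d, f (r • a) b c d = r * f a b c d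
  s12 : ∀ a b c d, f a b c d = f b a c d
  s23 : ∀ a b c d, f a b c d = f a c b d
  s34 : ∀ a b c d, f a b c d = f a b d c

theorem poly6 [CharZero F] {c0 c1 c2 c3 c4 c5 c6 : F}
    (h : ∀ t : F, c0 + c1 * t + c2 * t ^ 2 + c3 * t ^ 3 + c4 * t ^ 4 + c5 * t ^ 5 + c6 * t ^ 6 = 0) :
    c0 = 0 ∧ c1 = 0 ∧ c2 = 0 ∧ c3 = 0 ∧ c4 = 0 ∧ c5 = 0 ∧ c6 = 0 := by
  have : Infinite F := inferInstance
  let p : Polynomial F := Polynomial.C c0 + Polynomial.C c1 * Polynomial.X + Polynomial.C c2 * Polynomial.X ^ 2 +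
    Polynomial.C c3 * Polynomial.X ^ 3 + Polynomial.C c4 * Polynomial.X ^ 4 + Polynomial.C c5 * Polynomial.X ^ 5 +
    Polynomial.C c6 * Polynomial.X ^ 6
  have hp : p = 0 := Polynomial.funext fun t => by
    simp only [p, Polynomial.eval_add, Polynomial.eval_mul, Polynomial.eval_C, Polynomial.eval_pow, Polynomial.eval_X,
      Polynomial.eval_zero]
    exact h t
  have hc : ∀ k, p.coeff k = 0 := fun k => by rw [hp, Polynomial.coeff_zero]
  simp only [p, Polynomial.coeff_add, Polynomial.coeff_C_mul, Polynomial.coeff_X_pow, Polynomial.coeff_X,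
    Polynomial.coeff_C] at hc
  refine ⟨?_, ?_, ?_, ?_, ?_, ?_, ?_⟩
  · simpa using hc 0
  · simpa using hc 1
  · simpa using hc 2
  · simpa using hc 3
  · simpa using hc 4
  · simpa using hc 5
  · simpa using hc 6

namespace SF

variable {f : (Fin n → F) → (Fin n → F) → (Fin n → F) → (Fin n → F) → F} (hf : SF f)
include hf

theorem add2 (a b b' c d : Fin n → F) : f a (b + b') c d = f a b c d + f a b' c d := by
  rw [hf.s12, hf.add, hf.s12 b, hf.s12 b']

theorem smul2 (r : F) (a b c d : Fin n → F) : f a (r • b) c d = r * f a b c d := by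
  rw [hf.s12, hf.smul, hf.s12 b]

theorem add3 (a b c c' d : Fin n → F) : f a b (c + c') d = f a b c d + f a b c' d := by
  rw [hf.s23, hf.add2, hf.s23 a c, hf.s23 a c']

theorem smul3 (r : F) (a b c d : Fin n → F) : f a b (r • c) d = r * f a b c d := by
  rw [hf.s23, hf.smul2, hf.s23 a c]

theorem add4 (a b c d d' : Fin n → F) : f a b c (d + d') = f a b c d + f a b c d' := by
  rw [hf.s34, hf.add3, hf.s34 a b d, hf.s34 a b d']

theorem smul4 (r : F) (a b c d : Fin n → F) : f a b c (r • d) = r * f a b c d := by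
  rw [hf.s34, hf.smul3, hf.s34 a b d]

theorem pow2 (a b x y : Fin n → F) (t : F) :
    f a b (x + t • y) (x + t • y) = f a b x x + 2 * t * f a b x y + t ^ 2 * f a b y y := by
  simp only [hf.add3, hf.add4, hf.smul3, hf.smul4]
  rw [hf.s34 a b y x]
  ring

theorem pow3 (a x y : Fin n → F) (t : F) :
    f a (x + t • y) (x + t • y) (x + t • y) = f a x x x + 3 * t * f a x x y + 3 * t ^ 2 * f a x y y + t ^ 3 * f a y y y := by
  simp only [hf.add2, hf.add3, hf.add4, hf.smul2, hf.smul3, hf.smul4]
  have e1 : f a y x x = f a x x y := by rw [hf.s23, hf.s34]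
  have e2 : f a x y x = f a x x y := by rw [hf.s34]
  have e3 : f a y y x = f a x y y := by rw [hf.s34, hf.s23]
  have e4 : f a y x y = f a x y y := by rw [hf.s23]
  rw [e1, e2, e3, e4]
  ring

theorem pow4 (x y : Fin n → F) (t : F) :
    f (x + t • y) (x + t • y) (x + t • y) (x + t • y) = f x x x x + 4 * t * f x x x y + 6 * t ^ 2 * f x x y y +
      4 * t ^ 3 * f x y y y + t ^ 4 * f y y y y := by
  rw [hf.add, hf.smul, hf.pow3, hf.pow3]
  have e1 : f y x x x = f x x x y := by rw [hf.s12, hf.s23, hf.s34]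
  have e2 : f y x x y = f x x y y := by rw [hf.s12, hf.s23]
  have e3 : f y x y y = f x y y y := by rw [hf.s12]
  rw [e1, e2, e3]
  ring

theorem eq_zero [CharZero F] (h : ∀ v, f v v v v = 0) (a b c d : Fin n → F) : f a b c d = 0 := by
  have h1 : ∀ x y, f x x x y = 0 := by
    intro x y
    have h2 := poly6 (c0 := f x x x x) (c1 := 4 * f x x x y) (c2 := 6 * f x x y y) (c3 := 4 * f x y y y)
      (c4 := f y y y y) (c5 := 0) (c6 := 0) fun t => by
        have h3 := h (x + t • y)
        rw [hf.pow4] at h3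
        linear_combination h3
    exact (mul_eq_zero.1 h2.2.1).resolve_left (by norm_num)
  have h2 : ∀ x y z, f x x y z = 0 := by
    intro x y z
    have h2 := poly6 (c0 := f z x x x) (c1 := 3 * f z x x y) (c2 := 3 * f z x y y) (c3 := f z y y y)
      (c4 := 0) (c5 := 0) (c6 := 0) fun t => by
        have h3 := h1 (x + t • y) z
        rw [hf.s34, hf.s23, hf.s12, hf.pow3] at h3
        linear_combination h3
    have h3 := (mul_eq_zero.1 h2.2.1).resolve_left (by norm_num)
    rw [hf.s12, hf.s23, hf.s34] at h3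
    exact h3
  have h3 := h2 (a + b) c d
  rw [hf.add, hf.add2, hf.add2, h2, h2, hf.s12 b a] at h3
  have h4 : (2 : F) * f a b c d = 0 := by linear_combination h3
  exact (mul_eq_zero.1 h4).resolve_left two_ne_zero

end SF

variable {J : Matrix (Fin n) (Fin n) F}

/-- the symmetric part of the quartic form of an operator -/
def f4 (J : Matrix (Fin n) (Fin n) F) (P : Mn n F →ₗ[F] Mn n F) (lam : F) (a b c d : Fin n → F) : F :=
  Q J P a b c d - lam * br J a b c d

theorem SF_f4 [CharZero F] (hJ : Jᵀ = -J) {𝔩 : Submodule F (Mn n F)} {P : Mn n F →ₗ[F] Mn n F} (hP : IsPr 𝔩 P) {ν : F}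
    (hK : ∀ u v, Kf J P u v = ν * om J u v ^ 2) : SF (f4 J P (-ν / 6)) := by
  set lam := -ν / 6 with hlam
  have hadd : ∀ a a' b c d, f4 J P lam (a + a') b c d = f4 J P lam a b c d + f4 J P lam a' b c d := by
    intro a a' b c d
    unfold f4
    rw [br_eq, br_eq, br_eq, Q_add1, Q_add1]
    ring
  have hsmul : ∀ (r : F) a b c d, f4 J P lam (r • a) b c d = r * f4 J P lam a b c d := by
    intro r a b c d
    unfold f4
    rw [br_eq, br_eq, Q_smul1, Q_smul1]
    ring
  have h12 : ∀ a b c d, f4 J P lam a b c d = f4 J P lam b a c d := by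
    intro a b c d
    unfold f4
    rw [br_eq, br_eq, Q_s12, Q_s12 LinearMap.id]
  have h34 : ∀ a b c d, f4 J P lam a b c d = f4 J P lam a b d c := by
    intro a b c d
    unfold f4
    rw [br_eq, br_eq, Q_s34, Q_s34 LinearMap.id]
  have hsw : ∀ a b c d, f4 J P lam a b c d = f4 J P lam c d a b := by
    intro a b c d
    unfold f4
    rw [Q_swap hJ hP, br_val hJ, br_val hJ, om_swap hJ d b, om_swap hJ c b, om_swap hJ c a]
    ring
  have hadd2 : ∀ a b b' c d, f4 J P lam a (b + b') c d = f4 J P lam a b c d + f4 J P lam a b' c d := by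
    intro a b b' c d
    rw [h12, hadd, h12 b, h12 b']
  have hadd3 : ∀ a b c c' d, f4 J P lam a b (c + c') d = f4 J P lam a b c d + f4 J P lam a b c' d := by
    intro a b c c' d
    rw [hsw, hadd, hsw c, hsw c']
  have hadd4 : ∀ a b c d d', f4 J P lam a b c (d + d') = f4 J P lam a b c d + f4 J P lam a b c d' := by
    intro a b c d d'
    rw [h34, hadd3, h34 a b d, h34 a b d']
  have h0 : ∀ u v, f4 J P lam u u v v = f4 J P lam u v u v := by
    intro u v
    have h1 := hK u v
    unfold Kf at h1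
    unfold f4
    rw [br_val hJ, br_val hJ, om_self hJ, om_self hJ, om_swap hJ v u]
    rw [hlam]
    linear_combination h1
  have h1 : ∀ u u' v, f4 J P lam u u' v v = f4 J P lam u v u' v := by
    intro u u' v
    have e1 := h0 (u + u') v
    simp only [hadd, hadd2, hadd3] at e1
    rw [h0 u v, h0 u' v, h12 u' u, hsw u' v u v] at e1
    have e2 : (2 : F) * (f4 J P lam u u' v v - f4 J P lam u v u' v) = 0 := by linear_combination e1
    exact sub_eq_zero.1 ((mul_eq_zero.1 e2).resolve_left two_ne_zero)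
  have h2 : ∀ a b c d, 2 * f4 J P lam a b c d = f4 J P lam a c b d + f4 J P lam a d b c := by
    intro a b c d
    have e1 := h1 a b (c + d)
    simp only [hadd2, hadd3, hadd4] at e1
    rw [h1 a b c, h1 a b d, h34 a b d c] at e1
    linear_combination e1
  refine ⟨hadd, hsmul, h12, fun a b c d => ?_, h34⟩
  have e1 := h2 a b c d
  have e2 := h2 a c b d
  rw [h34 a d c b] at e2
  have e3 : (3 : F) * (f4 J P lam a b c d - f4 J P lam a c b d) = 0 := by linear_combination e1 - e2
  exact sub_eq_zero.1 ((mul_eq_zero.1 e3).resolve_left (by norm_num))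

end Pool.Agent.H936.SL
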