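import Pool.Agent.H936.SL.End

/-!
# The dimension of the image of the projection
-/

set_option autoImplicit false
set_option linter.unusedSectionVars false
set_option linter.unusedVariables false

open Matrix Module

namespace Pool.Agent.H936.SL

open Pool.Agent.Helper880_LF

variable {F : Type} [Field F] {n : ℕ} {J : Matrix (Fin n) (Fin n) F} [CharZero F]

theorem spS_ext (hJ : Jᵀ = -J) (hdet : IsUnit J.det) {A B : Mn n F} (hA : A ∈ spS J) (hB : B ∈ spS J)
    (h : ∀ c d, Matrix.trace (A * pr J c d) = Matrix.trace (B * pr J c d)) : A = B := by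
  apply mul_ext
  intro v
  rw [← sub_eq_zero]
  apply om_nondeg hdet
  intro u
  have h1 := h u v
  rw [tr_pr' hJ hA, tr_pr' hJ hB] at h1
  rw [om_sub_right, mul_left_cancel₀ two_ne_zero h1, sub_self]

theorem TN_spS (hJ : Jᵀ = -J) (hdet : IsUnit J.det) : TN (spS J) := by
  intro X hX h
  refine spS_ext hJ hdet hX (spS J).zero_mem fun c d => ?_
  rw [h _ (pr_mem hJ c d), Matrix.zero_mul, Matrix.trace_zero]

/-- the basis vectors -/
def ei (i : Fin n) : Fin n → F := Pi.single i 1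

/-- the dual basis vectors -/
noncomputable def yi (J : Matrix (Fin n) (Fin n) F) (i : Fin n) : Fin n → F := -(J⁻¹ *ᵥ ei i)

theorem om_yi (hJ : Jᵀ = -J) (hdet : IsUnit J.det) (i : Fin n) (w : Fin n → F) : om J (yi J i) w = w i := by
  have hJi : (J⁻¹)ᵀ = -J⁻¹ := by
    rw [transpose_nonsing_inv, hJ]
    have h1 : (-J) * (-J⁻¹) = 1 := by rw [neg_mul_neg, mul_nonsing_inv _ hdet]
    exact Matrix.inv_eq_right_inv h1
  unfold yi om
  have h1 : -(J⁻¹ *ᵥ ei i) = ei i ᵥ* J⁻¹ := by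
    rw [← neg_mulVec, ← hJi, mulVec_transpose]
  rw [h1, dotProduct_mulVec, vecMul_vecMul, nonsing_inv_mul _ hdet, vecMul_one]
  exact single_one_dotProduct _ _

theorem trace_pr (hJ : Jᵀ = -J) (hdet : IsUnit J.det) {𝔩 : Submodule F (Mn n F)} {P : Mn n F →ₗ[F] Mn n F}
    (hTN : TN 𝔩) (hP : IsPr 𝔩 P) (hle : 𝔩 ≤ spS J) :
    LinearMap.trace F _ P = (1 / 4) * ∑ i, ∑ j, Q J P (ei i) (yi J j) (yi J i) (ei j) := by
  rw [← mt_trace]
  have h1 : Matrix.trace (mt P) = ∑ i, ∑ j, mt P (i, j) (i, j) := by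
    unfold Matrix.trace
    rw [Fintype.sum_prod_type]
    rfl
  rw [h1, Finset.mul_sum]
  refine Finset.sum_congr rfl fun i _ => ?_
  rw [Finset.mul_sum]
  refine Finset.sum_congr rfl fun j _ => ?_
  rw [mt_apply]
  have h2 : P (Matrix.single i j 1) = (1 / 2 : F) • P (pr J (ei i) (yi J j)) := by
    rw [← map_smul]
    refine hTN.eq (hP.mem _) (hP.mem _) fun Y hY => ?_
    rw [hP.tr _ Y hY, hP.tr _ Y hY, Matrix.trace_mul_comm, Matrix.smul_mul, Matrix.trace_smul, smul_eq_mul,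
      Matrix.trace_mul_comm (pr J _ _), pr_symm, tr_pr' hJ (hle hY), om_yi hJ hdet]
    have e1 : Y *ᵥ ei i = fun k => Y k i := by
      funext k
      unfold ei
      rw [mulVec_single_one]
      rfl
    rw [e1]
    have e2 : Matrix.trace (Y * Matrix.single i j 1) = Y j i := by
      rw [Matrix.trace_mul_single]
      simp
    rw [e2]
    ring
  have h3 : ∀ A ∈ spS J, A i j = (1 / 2) * Matrix.trace (A * pr J (yi J i) (ei j)) := by
    intro A hA
    rw [tr_pr' hJ hA, om_yi hJ hdet]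
    have e1 : (A *ᵥ ei j) i = A i j := by
      unfold ei
      rw [mulVec_single_one]
      rfl
    rw [e1]
    ring
  rw [h2]
  show (1 / 2 : F) * (P (pr J (ei i) (yi J j))) i j = _
  rw [h3 _ (hle (hP.mem _))]
  unfold Q
  ring

theorem sum_sf (hJ : Jᵀ = -J) (hdet : IsUnit J.det) {f : (Fin n → F) → (Fin n → F) → (Fin n → F) → (Fin n → F) → F}
    (hf : SF f) (a b : Fin n → F) : ∑ i, f (ei i) (yi J i) a b = 0 := by
  have hJi : (J⁻¹)ᵀ = -J⁻¹ := by
    rw [transpose_nonsing_inv, hJ]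
    have h1 : (-J) * (-J⁻¹) = 1 := by rw [neg_mul_neg, mul_nonsing_inv _ hdet]
    exact Matrix.inv_eq_right_inv h1
  have h1 : ∀ i, yi J i = ∑ k, (-(J⁻¹ k i)) • (ei k : Fin n → F) := by
    intro i
    funext l
    rw [Finset.sum_apply]
    unfold yi ei
    rw [Pi.neg_apply, mulVec_single_one]
    simp only [Pi.smul_apply, Pi.single_apply, smul_eq_mul, mul_ite, mul_one, mul_zero]
    rw [Finset.sum_eq_single l]
    · simp
    · intro k _ hk
      rw [if_neg (Ne.symm hk)]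
    · simp
  have h2 : ∀ i, f (ei i) (yi J i) a b = ∑ k, (-(J⁻¹ k i)) * f (ei i) (ei k) a b := by
    intro i
    rw [h1 i]
    let L : (Fin n → F) →ₗ[F] F :=
      { toFun := fun v => f (ei i) v a b
        map_add' := fun v w => hf.add2 _ _ _ _ _
        map_smul' := fun c v => hf.smul2 _ _ _ _ _ }
    have h3 : L (∑ k, (-(J⁻¹ k i)) • (ei k : Fin n → F)) = ∑ k, L ((-(J⁻¹ k i)) • (ei k : Fin n → F)) := map_sum L _ _
    show L (∑ k, (-(J⁻¹ k i)) • (ei k : Fin n → F)) = _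
    rw [h3]
    refine Finset.sum_congr rfl fun k _ => ?_
    rw [map_smul]
    rfl
  have h3 : ∑ i, f (ei i) (yi J i) a b = -∑ i, f (ei i) (yi J i) a b := by
    conv_lhs => rw [Finset.sum_congr rfl fun i _ => h2 i]
    rw [Finset.sum_comm, ← Finset.sum_neg_distrib]
    refine Finset.sum_congr rfl fun i _ => ?_
    rw [h2 i, ← Finset.sum_neg_distrib]
    refine Finset.sum_congr rfl fun k _ => ?_
    have e1 : J⁻¹ i k = -J⁻¹ k i := by
      have := congrFun (congrFun hJi k) i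
      rwa [transpose_apply, Matrix.neg_apply] at this
    rw [hf.s12 (ei k) (ei i), e1]
    ring
  have h4 : (2 : F) * ∑ i, f (ei i) (yi J i) a b = 0 := by linear_combination h3
  exact (mul_eq_zero.1 h4).resolve_left two_ne_zero

theorem trace_fin {𝔩 : Submodule F (Mn n F)} {P : Mn n F →ₗ[F] Mn n F} (hTN : TN 𝔩) (hP : IsPr 𝔩 P) :
    LinearMap.trace F _ P = (finrank F 𝔩 : F) :=
  LinearMap.IsProj.trace ⟨hP.mem, fun X hX => hP.id hTN hX⟩

/-- **the last step** -/
theorem dim_eq (hJ : Jᵀ = -J) (hdet : IsUnit J.det) {𝔩 : Submodule F (Mn n F)} {P : Mn n F →ₗ[F] Mn n F}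
    (hTN : TN 𝔩) (hP : IsPr 𝔩 P) (hle : 𝔩 ≤ spS J)
    {f : (Fin n → F) → (Fin n → F) → (Fin n → F) → (Fin n → F) → F} (hf : SF f) {lam : F}
    (hQ : ∀ a b c d, Q J P a b c d = f a b c d + lam * br J a b c d) (hl : lam * (1 - lam) = 0) :
    𝔩 = ⊥ ∨ 𝔩 = spS J := by
  obtain ⟨P', hP'⟩ := exists_proj (TN_spS hJ hdet)
  have hQ' : ∀ a b c d, Q J P' a b c d = br J a b c d := by
    intro a b c d
    unfold Q
    rw [hP'.id (TN_spS hJ hdet) (pr_mem hJ a b)]
    rfl
  have h1 := trace_pr hJ hdet hTN hP hle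
  have h2 := trace_pr hJ hdet (TN_spS hJ hdet) hP' le_rfl
  rw [trace_fin hTN hP] at h1
  rw [trace_fin (TN_spS hJ hdet) hP'] at h2
  have h3 : ∑ i, ∑ j, Q J P (ei i) (yi J j) (yi J i) (ei j) =
      lam * ∑ i, ∑ j, Q J P' (ei i) (yi J j) (yi J i) (ei j) := by
    have h4 : ∀ i j : Fin n, Q J P (ei i) (yi J j) (yi J i) (ei j) =
        f (ei i) (yi J i) (yi J j) (ei j) + lam * Q J P' (ei i) (yi J j) (yi J i) (ei j) := by
      intro i j
      rw [hQ, hQ', hf.s23]
    simp only [h4, Finset.sum_add_distrib]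
    rw [Finset.sum_comm, Finset.sum_congr rfl fun j _ => sum_sf hJ hdet hf (yi J j) (ei j), Finset.sum_const_zero, zero_add,
      Finset.mul_sum]
    exact Finset.sum_congr rfl fun i _ => (Finset.mul_sum _ _ _).symm
  rw [h3] at h1
  have h4 : (finrank F 𝔩 : F) = lam * (finrank F (spS J) : F) := by
    rw [h1, h2]
    ring
  rcases mul_eq_zero.1 hl with h0 | h0
  · left
    rw [h0, zero_mul] at h4
    exact Submodule.finrank_eq_zero.1 (by exact_mod_cast h4)
  · right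
    have h5 : lam = 1 := (sub_eq_zero.1 h0).symm
    rw [h5, one_mul] at h4
    exact Submodule.eq_of_le_of_finrank_eq hle (by exact_mod_cast h4)

/-- a scalar projection -/
theorem lam_of_zero (hJ : Jᵀ = -J) (hdet : IsUnit J.det) (hn : 0 < n) {𝔩 : Submodule F (Mn n F)}
    {P : Mn n F →ₗ[F] Mn n F} (hTN : TN 𝔩) (hP : IsPr 𝔩 P) (hle : 𝔩 ≤ spS J) {lam : F}
    (hQ : ∀ a b c d, Q J P a b c d = lam * br J a b c d) : lam * (1 - lam) = 0 := by
  have h1 : ∀ u, P (pr J u u) = lam • pr J u u := by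
    intro u
    refine spS_ext hJ hdet (hle (hP.mem _)) ((spS J).smul_mem _ (pr_mem hJ u u)) fun c d => ?_
    have := hQ u u c d
    unfold Q br at this
    rw [this, Matrix.smul_mul, Matrix.trace_smul, smul_eq_mul]
  set u : Fin n → F := ei ⟨0, hn⟩ with hu
  have hu0 : u ≠ 0 := by
    intro h
    have := congrFun h ⟨0, hn⟩
    rw [hu] at this
    unfold ei at this
    simp at this
  obtain ⟨y, hy⟩ := exists_nonorth hJ hdet hu0
  have h2 := hP.idem hTN (pr J u u)
  rw [h1, map_smul, h1, smul_smul] at h2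
  have h3 := congrArg (fun X : Mn n F => X *ᵥ y) h2
  simp only [smul_mulVec, pr_mulVec] at h3
  have h4 : ((lam * (1 - lam)) * (2 * om J u y)) • u = 0 := by
    have h5 : ((lam * (1 - lam)) * (2 * om J u y)) • u = lam • (om J u y • u + om J u y • u) -
      (lam * lam) • (om J u y • u + om J u y • u) := by module
    rw [h5, h3, sub_self]
  exact (mul_eq_zero.1 ((smul_eq_zero.1 h4).resolve_right hu0)).resolve_right (mul_ne_zero two_ne_zero hy)

/-- **the theorem for the symmetric operators** -/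
theorem thm_S [IsAlgClosed F] (hJ : Jᵀ = -J) (hdet : IsUnit J.det) (hn : 3 ≤ n) {𝔩 : Submodule F (Mn n F)} (hTN : TN 𝔩)
    (hle : 𝔩 ≤ spS J) {α : Mn n F} (hα : Sy J α) (hns : ∃ w, α *ᵥ w ∉ Submodule.span F {w})
    (hdec : ∀ X ∈ spS J, ∃ Z B, X = Z + B ∧ Z ∈ spS J ∧ (∀ Y ∈ 𝔩, Z * Y - Y * Z ∈ 𝔩) ∧ B * α = α * B) :
    𝔩 = ⊥ ∨ 𝔩 = spS J := by
  obtain ⟨P, hP⟩ := exists_proj hTN
  have H : Fac J 𝔩 P α := ⟨hTN, hP, hle, hdec⟩
  obtain ⟨ν, hν⟩ := K_scalar hJ hdet H hα hns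
  have hf := SF_f4 hJ hP hν
  have hQ : ∀ a b c d, Q J P a b c d = f4 J P (-ν / 6) a b c d + (-ν / 6) * br J a b c d := by
    intro a b c d
    unfold f4
    ring
  refine dim_eq hJ hdet hTN hP hle hf hQ ?_
  by_cases h0 : ∀ v, f4 J P (-ν / 6) v v v v = 0
  · refine lam_of_zero hJ hdet (by omega) hTN hP hle fun a b c d => ?_
    rw [hQ, hf.eq_zero h0, zero_add]
  · push Not at h0
    obtain ⟨v, hv⟩ := h0
    have E : EG J 𝔩 P (f4 J P (-ν / 6)) (-ν / 6) :=
      ⟨hJ, hdet, hTN, hP, hle, hf, hQ, fun u v huv X hX => N_cube hJ hdet H hα hns huv hX⟩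
    exact E.lam01 hn hv

end Pool.Agent.H936.SL
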