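import Pool.Agent.H936.SL.OP

/-!
# Transvections
-/

set_option autoImplicit false
set_option linter.unusedSectionVars false
set_option linter.unusedVariables false

open Matrix

namespace Pool.Agent.H936.SL

open Pool.Agent.Helper880_LF

variable {F : Type} [Field F] {n : ℕ} {J : Matrix (Fin n) (Fin n) F}

/-- the matrix `v ↦ (w, v) w` -/
def sq (J : Matrix (Fin n) (Fin n) F) (w : Fin n → F) : Matrix (Fin n) (Fin n) F := vecMulVec w w * J

theorem sq_mulVec (w v : Fin n → F) : sq J w *ᵥ v = om J w v • w := by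
  unfold sq om
  rw [← mulVec_mulVec]
  funext i
  simp only [mulVec, vecMulVec_apply, dotProduct, Pi.smul_apply, smul_eq_mul, Finset.sum_mul]
  exact Finset.sum_congr rfl fun j _ => by ring

theorem two_sq (w : Fin n → F) : pr J w w = (2 : F) • sq J w := by
  unfold pr sq
  rw [← two_smul F, Matrix.smul_mul]

theorem mul_ext {A B : Matrix (Fin n) (Fin n) F} (h : ∀ v, A *ᵥ v = B *ᵥ v) : A = B := by
  ext i j
  have h1 := congrFun (h (Pi.single j 1)) i
  rw [mulVec_single_one, mulVec_single_one] at h1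
  exact h1

theorem om_neg_right (u v : Fin n → F) : om J u (-v) = -om J u v := by
  have := om_smul_right (J := J) (-1) u v
  rwa [neg_one_smul, neg_one_mul] at this

theorem om_neg_left (u v : Fin n → F) : om J (-u) v = -om J u v := by
  have := om_smul_left (J := J) (-1) u v
  rwa [neg_one_smul, neg_one_mul] at this

theorem om_sub_right (u v w : Fin n → F) : om J u (v - w) = om J u v - om J u w := by
  rw [sub_eq_add_neg, om_add_right, om_neg_right, sub_eq_add_neg]

variable [CharZero F] (hJ : Jᵀ = -J)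
include hJ

theorem sq_sq (w : Fin n → F) : sq J w * sq J w = 0 := by
  apply mul_ext
  intro v
  rw [← mulVec_mulVec, sq_mulVec, sq_mulVec, om_smul_right, om_self hJ, mul_zero, zero_smul, zero_mulVec]

theorem sq_mem (w : Fin n → F) : sq J w ∈ spS J := by
  have h := pr_mem hJ w w
  rw [two_sq] at h
  exact smul_mem_iff' two_ne_zero h

omit hJ in
/-- products of transvections, with their inverses -/
inductive Gm (J : Matrix (Fin n) (Fin n) F) : Matrix (Fin n) (Fin n) F → Matrix (Fin n) (Fin n) F → Prop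
  | one : Gm J 1 1
  | step {g h : Matrix (Fin n) (Fin n) F} (w : Fin n → F) (c : F) : Gm J g h →
      Gm J ((1 + c • sq J w) * g) (h * (1 - c • sq J w))

omit hJ [CharZero F] in
theorem Gm.mul {g h g' h' : Matrix (Fin n) (Fin n) F} (h1 : Gm J g h) (h2 : Gm J g' h') : Gm J (g' * g) (h * h') := by
  induction h2 with
  | one => rwa [Matrix.one_mul, Matrix.mul_one]
  | step w c _ ih =>
    rw [Matrix.mul_assoc, ← Matrix.mul_assoc h]
    exact ih.step w c

theorem tv_inv (w : Fin n → F) (c : F) : (1 + c • sq J w) * (1 - c • sq J w) = 1 ∧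
    (1 - c • sq J w) * (1 + c • sq J w) = 1 := by
  have h : (c • sq J w) * (c • sq J w) = 0 := by rw [Matrix.smul_mul, Matrix.mul_smul, sq_sq hJ, smul_zero, smul_zero]
  set a := c • sq J w with ha
  constructor
  · have h1 : (1 + a) * (1 - a) = 1 - a * a := by noncomm_ring
    rw [h1, h, sub_zero]
  · have h1 : (1 - a) * (1 + a) = 1 - a * a := by noncomm_ring
    rw [h1, h, sub_zero]

theorem Gm.inv {g h : Matrix (Fin n) (Fin n) F} (h1 : Gm J g h) : g * h = 1 ∧ h * g = 1 := by
  induction h1 with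
  | one => simp
  | @step g h w c _ ih =>
    obtain ⟨e1, e2⟩ := tv_inv hJ w c
    constructor
    · calc (1 + c • sq J w) * g * (h * (1 - c • sq J w)) = (1 + c • sq J w) * (g * h) * (1 - c • sq J w) := by
            simp only [Matrix.mul_assoc]
        _ = 1 := by rw [ih.1, Matrix.mul_one, e1]
    · calc h * (1 - c • sq J w) * ((1 + c • sq J w) * g) = h * ((1 - c • sq J w) * (1 + c • sq J w)) * g := by
            simp only [Matrix.mul_assoc]
        _ = 1 := by rw [e2, Matrix.mul_one, ih.2]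

theorem tv_om (w : Fin n → F) (c : F) (x y : Fin n → F) :
    om J ((1 + c • sq J w) *ᵥ x) ((1 + c • sq J w) *ᵥ y) = om J x y := by
  rw [add_mulVec, add_mulVec, one_mulVec, one_mulVec, smul_mulVec, smul_mulVec, sq_mulVec, sq_mulVec]
  simp only [om_add_left, om_add_right, om_smul_left, om_smul_right]
  rw [om_self hJ w, om_swap hJ x w]
  ring

theorem Gm.om {g h : Matrix (Fin n) (Fin n) F} (h1 : Gm J g h) (x y : Fin n → F) :
    om J (g *ᵥ x) (g *ᵥ y) = Pool.Agent.Helper880_LF.om J x y := by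
  induction h1 with
  | one => rw [one_mulVec, one_mulVec]
  | @step g h w c _ ih =>
    rw [← mulVec_mulVec, ← mulVec_mulVec, tv_om hJ, ih]

/-- the derivatives of an invariant function along products of transvections -/
theorem Gm.van {g h : Matrix (Fin n) (Fin n) F} (h1 : Gm J g h) {Ψ : Pf n F} {α : Matrix (Fin n) (Fin n) F}
    (h2 : Van (spS J) Ψ α α) : Van (spS J) Ψ α (g * α * h) := by
  induction h1 with
  | one => rwa [Matrix.one_mul, Matrix.mul_one]
  | @step g h w c _ ih =>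
    have h3 := ih.step (sq_mem hJ w) (sq_sq hJ w) c
    have h4 : (1 + c • sq J w) * (g * α * h) * (1 - c • sq J w) =
        (1 + c • sq J w) * g * α * (h * (1 - c • sq J w)) := by simp only [Matrix.mul_assoc]
    rwa [h4] at h3

/-- **the orbit principle** -/
theorem orbit {g h : Matrix (Fin n) (Fin n) F} (h1 : Gm J g h) {Ψ : Pf n F} {α : Matrix (Fin n) (Fin n) F}
    (hd : Dec (spS J) Ψ α) : ev (g * α * h) Ψ = ev α Ψ :=
  (h1.van hJ ⟨fun k => Us_van (fun X hX Y hY => comm_mem hJ hX hY) hd k, rfl⟩).2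

/-- the first case of the transitivity -/
theorem trans0 {x y : Fin n → F} (hxy : om J y x ≠ 0) : ∃ g h, Gm J g h ∧ g *ᵥ x = y ∧
    ∀ z, om J x z = 0 → om J y z = 0 → g *ᵥ z = z := by
  refine ⟨_, _, (Gm.one (J := J)).step (y - x) (om J y x)⁻¹, ?_, fun z h1 h2 => ?_⟩
  · rw [Matrix.mul_one, add_mulVec, one_mulVec, smul_mulVec, sq_mulVec, om_sub_left, om_self hJ x, sub_zero, smul_smul,
      inv_mul_cancel₀ hxy, one_smul]
    abel
  · rw [Matrix.mul_one, add_mulVec, one_mulVec, smul_mulVec, sq_mulVec, om_sub_left, h1, h2, sub_zero, zero_smul,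
      smul_zero, add_zero]

theorem exists_nonorth (hdet : IsUnit J.det) {a : Fin n → F} (ha : a ≠ 0) : ∃ v, om J a v ≠ 0 := by
  by_contra hcon
  push Not at hcon
  exact ha (om_nondeg hdet fun u => by rw [om_swap hJ, hcon, neg_zero])

/-- transitivity on vectors -/
theorem trans1 (hdet : IsUnit J.det) {x y : Fin n → F} (hx : x ≠ 0) (hy : y ≠ 0) : ∃ g h, Gm J g h ∧ g *ᵥ x = y := by
  by_cases hxy : om J y x = 0
  · obtain ⟨z, h1, h2⟩ : ∃ z, om J z x ≠ 0 ∧ om J y z ≠ 0 := by
      obtain ⟨a, ha⟩ := exists_nonorth hJ hdet hx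
      obtain ⟨b, hb⟩ := exists_nonorth hJ hdet hy
      have ha' : om J a x ≠ 0 := by rw [om_swap hJ]; exact neg_ne_zero.2 ha
      by_cases h1 : om J y a = 0
      · by_cases h2 : om J b x = 0
        · exact ⟨a + b, by rw [om_add_left, h2, add_zero]; exact ha', by rw [om_add_right, h1, zero_add]; exact hb⟩
        · exact ⟨b, h2, hb⟩
      · exact ⟨a, ha', h1⟩
    obtain ⟨g1, k1, e1, e2, -⟩ := trans0 hJ h1
    obtain ⟨g2, k2, e3, e4, -⟩ := trans0 hJ h2
    exact ⟨_, _, e1.mul e3, by rw [← mulVec_mulVec, e2, e4]⟩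
  · obtain ⟨g1, k1, e1, e2, -⟩ := trans0 hJ hxy
    exact ⟨g1, k1, e1, e2⟩

/-- transitivity on pairs -/
theorem trans2 (hdet : IsUnit J.det) {u v v' : Fin n → F} (hv : v ∉ Submodule.span F {u}) (hv' : v' ∉ Submodule.span F {u})
    (huv : om J u v = 0) (huv' : om J u v' = 0) : ∃ g h, Gm J g h ∧ g *ᵥ u = u ∧ g *ᵥ v = v' := by
  have hvu : om J v u = 0 := by rw [om_swap hJ, huv, neg_zero]
  have hvu' : om J v' u = 0 := by rw [om_swap hJ, huv', neg_zero]
  by_cases hxy : om J v' v = 0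
  · obtain ⟨z, h1, h2, h3⟩ : ∃ z, om J z v ≠ 0 ∧ om J v' z ≠ 0 ∧ om J z u = 0 := by
      obtain ⟨a, ha, hau⟩ := exists_sep hJ hdet hv
      obtain ⟨b, hb, hbu⟩ := exists_sep hJ hdet hv'
      have ha' : om J a v ≠ 0 := by rw [ha]; exact one_ne_zero
      have hb' : om J v' b ≠ 0 := by rw [om_swap hJ, hb]; exact neg_ne_zero.2 one_ne_zero
      by_cases h1 : om J v' a = 0
      · by_cases h2 : om J b v = 0
        · exact ⟨a + b, by rw [om_add_left, h2, add_zero]; exact ha', by rw [om_add_right, h1, zero_add]; exact hb',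
            by rw [om_add_left, hau, hbu, add_zero]⟩
        · exact ⟨b, h2, hb', hbu⟩
      · exact ⟨a, ha', h1, hau⟩
    obtain ⟨g1, k1, e1, e2, f1⟩ := trans0 hJ h1
    obtain ⟨g2, k2, e3, e4, f2⟩ := trans0 hJ h2
    have e5 := f1 u hvu h3
    have e6 := f2 u h3 hvu'
    exact ⟨_, _, e1.mul e3, by rw [← mulVec_mulVec, e5, e6], by rw [← mulVec_mulVec, e2, e4]⟩
  · obtain ⟨g1, k1, e1, e2, f1⟩ := trans0 hJ hxy
    exact ⟨g1, k1, e1, f1 u hvu hvu', e2⟩

theorem trans3 (hdet : IsUnit J.det) {u₁ v₁ u₂ v₂ : Fin n → F} (hu₁ : u₁ ≠ 0) (hu₂ : u₂ ≠ 0)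
    (hv₁ : v₁ ∉ Submodule.span F {u₁}) (hv₂ : v₂ ∉ Submodule.span F {u₂})
    (h₁ : om J u₁ v₁ = 0) (h₂ : om J u₂ v₂ = 0) : ∃ g h, Gm J g h ∧ g *ᵥ u₁ = u₂ ∧ g *ᵥ v₁ = v₂ := by
  obtain ⟨g1, k1, e1, e2⟩ := trans1 hJ hdet hu₁ hu₂
  have h3 : g1 *ᵥ v₁ ∉ Submodule.span F {u₂} := by
    intro h
    obtain ⟨c, hc⟩ := Submodule.mem_span_singleton.1 h
    apply hv₁
    refine Submodule.mem_span_singleton.2 ⟨c, ?_⟩
    have h4 : k1 *ᵥ (c • u₂) = k1 *ᵥ (g1 *ᵥ v₁) := by rw [hc]
    rw [← e2, ← mulVec_smul, mulVec_mulVec, mulVec_mulVec, (e1.inv hJ).2, one_mulVec, one_mulVec] at h4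
    exact h4
  have h4 : om J u₂ (g1 *ᵥ v₁) = 0 := by rw [← e2, e1.om hJ, h₁]
  obtain ⟨g2, k2, e3, e4, e5⟩ := trans2 hJ hdet h3 hv₂ h4 h₂
  exact ⟨_, _, e1.mul e3, by rw [← mulVec_mulVec, e2, e4], by rw [← mulVec_mulVec, e5]⟩

omit hJ in
/-- finitely many hyperplanes do not cover the space -/
theorem avoid (hJ : Jᵀ = -J) (hdet : IsUnit J.det) (l : List (Fin n → F)) (hl : ∀ a ∈ l, a ≠ 0) :
    ∃ v, ∀ a ∈ l, om J a v ≠ 0 := by
  induction l with
  | nil => exact ⟨0, fun a ha => absurd ha List.not_mem_nil⟩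
  | cons b l ih =>
    obtain ⟨v, hv⟩ := ih fun a ha => hl a (List.mem_cons_of_mem _ ha)
    obtain ⟨w, hw⟩ := exists_nonorth hJ hdet (hl b List.mem_cons_self)
    let p : (Fin n → F) → Polynomial F := fun a => Polynomial.C (om J a w) + Polynomial.X * Polynomial.C (om J a v)
    have hp : ∀ a ∈ b :: l, p a ≠ 0 := by
      intro a ha h0
      rcases List.mem_cons.1 ha with rfl | ha
      · have h1 := congrArg (Polynomial.eval 0) h0
        simp only [p, Polynomial.eval_add, Polynomial.eval_mul, Polynomial.eval_C, Polynomial.eval_X, zero_mul, add_zero,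
          Polynomial.eval_zero] at h1
        exact hw h1
      · have h1 := congrArg (fun q => Polynomial.coeff q 1) h0
        simp [p, Polynomial.coeff_C] at h1
        exact hv a ha h1
    have hprod : ((b :: l).map p).prod ≠ 0 := by
      refine List.prod_ne_zero fun h => ?_
      obtain ⟨a, ha, h1⟩ := List.mem_map.1 h
      exact hp a ha h1
    have : Infinite F := inferInstance
    obtain ⟨t, ht⟩ : ∃ t, Polynomial.eval t ((b :: l).map p).prod ≠ 0 := by
      by_contra hcon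
      push Not at hcon
      exact hprod (Polynomial.funext fun t => by rw [hcon, Polynomial.eval_zero])
    refine ⟨w + t • v, fun a ha h0 => ht ?_⟩
    rw [Polynomial.eval_list_prod]
    refine List.prod_eq_zero (List.mem_map.2 ⟨p a, List.mem_map.2 ⟨a, ha, rfl⟩, ?_⟩)
    simp only [p, Polynomial.eval_add, Polynomial.eval_mul, Polynomial.eval_C, Polynomial.eval_X]
    rw [om_add_right, om_smul_right] at h0
    exact h0

end Pool.Agent.H936.SL
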